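import Pool.Agent.Y244.GP.Win

/-!
Bridges: upper bound for the probability that there is no bridge.
-/

set_option autoImplicit false

namespace Pool.Agent.Y244.GP
open Finset MeasureTheory H974 Pool.Agent.H160R2.CV Pool.Agent.Y244.PC

theorem union_bd {E : Type*} [DecidableEq E] {p : E → ℝ} (hp : Ok p) (S : Finset E)
    (A : ℕ → Finset E → Prop) (J : ℕ) :
    1 - Pr p S (fun F => ∀ j < J, A j F) ≤ ∑ j ∈ range J, (1 - Pr p S (A j)) := by
  induction J with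
  | zero =>
    rw [Pr_true]
    · simp
    · intro F _ i hi
      omega
  | succ J ih =>
    rw [Finset.sum_range_succ]
    have h1 := and_ge hp S (fun F => ∀ j < J, A j F) (A J)
    have h2 : Pr p S (fun F => (∀ j < J, A j F) ∧ A J F) ≤
        Pr p S (fun F => ∀ j < J + 1, A j F) := by
      apply Pr_mono hp
      rintro F _ ⟨h3, h4⟩ j hj
      rcases Nat.lt_succ_iff_lt_or_eq.mp hj with h | rfl
      · exact h3 j h
      · exact h4
    linarith

/-- wide tubes from the ground to the depth `t0` -/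
theorem wide_tube : ∃ c C : ℝ, 0 < c ∧ 0 < C ∧ ∀ N : ℕ, 1 ≤ N → ∀ h t0 : ℕ, 1 ≤ h →
    D N ≤ h → h ≤ 2 * t0 → t0 < N → ∀ a : ℤ,
    1 - gTB N a (a + h) (-(N : ℤ)) (-(t0 : ℤ)) ≤
      C * Real.exp (-(c * ((h : ℝ) / D N) ^ (7 / 3 : ℝ))) := by
  obtain ⟨c1, C1, hc1, hC1, hs⟩ := sup_cross
  obtain ⟨c', hc'⟩ : ∃ c' : ℝ, c' = c1 / 24 := ⟨_, rfl⟩
  have hc'0 : 0 < c' := by rw [hc']; positivity
  have hr1 : Real.exp (-c') < 1 := Real.exp_lt_one_iff.mpr (by linarith)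
  refine ⟨c', 2 * C1 / (1 - Real.exp (-c')), hc'0, div_pos (by positivity) (by linarith), ?_⟩
  intro N hN h t0 hh1 hDh hht htN a
  have hN0 : (0 : ℝ) < N := by exact_mod_cast hN
  have hD := D_pos hN
  obtain ⟨X, hX⟩ : ∃ X : ℝ, X = ((h : ℝ) / D N) ^ (7 / 3 : ℝ) := ⟨_, rfl⟩
  have hX1 : 1 ≤ X := by
    rw [hX]
    exact Real.one_le_rpow (by rw [le_div_iff₀ hD, one_mul]; exact hDh) (by norm_num)
  rw [← hX]
  have hh' : (1 : ℤ) ≤ h := by exact_mod_cast hh1
  obtain ⟨J, hJ⟩ : ∃ J : ℕ, J = (N - t0) / h := ⟨_, rfl⟩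
  have hJh : (J : ℤ) * h + t0 ≤ N := by
    have h1 : J * h ≤ N - t0 := by rw [hJ]; exact Nat.div_mul_le_self _ _
    have h2 : J * h + t0 ≤ N := by omega
    exact_mod_cast h2
  have hJh2 : (N : ℤ) < (J : ℤ) * h + h + t0 := by
    have h1 : N - t0 < J * h + h := by rw [hJ]; exact Nat.lt_div_mul_add (by omega)
    have h2 : N < J * h + h + t0 := by omega
    exact_mod_cast h2
  obtain ⟨y, hy⟩ : ∃ y : ℤ, y = -(t0 : ℤ) := ⟨_, rfl⟩
  rw [← hy]
  obtain ⟨S, hS⟩ : ∃ S : Finset Edg, S = RE a (a + h) (y - ((J : ℤ) + 2) * h) y := ⟨_, rfl⟩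
  obtain ⟨A, hAd⟩ : ∃ A : ℕ → Finset Edg → Prop, A = fun (j : ℕ) (F : Finset Edg) =>
      TBc a (a + h) (y - ((j : ℤ) + 2) * h) (y - (j : ℤ) * h) F ∧
      LRc a (a + h) (y - ((j : ℤ) + 1) * h) (y - (j : ℤ) * h) F := ⟨_, rfl⟩
  have hs1 : ∀ j < J + 1, TBE a (a + h) (y - ((j : ℤ) + 2) * h) (y - (j : ℤ) * h) ⊆ S := by
    intro j hj
    have h1 := jw_le (w := h) hj
    have h2 : (0 : ℤ) ≤ (j : ℤ) * h := by positivity
    rw [hS]
    refine TBE_subset_RE.trans (RE_subset le_rfl le_rfl ?_ ?_) <;> linarith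
  have hs2 : ∀ j < J + 1, LRE a (a + h) (y - ((j : ℤ) + 1) * h) (y - (j : ℤ) * h) ⊆ S := by
    intro j hj
    have h1 := jw_le (w := h) hj
    have h2 : (0 : ℤ) ≤ (j : ℤ) * h := by positivity
    rw [hS]
    refine LRE_subset_RE.trans (RE_subset le_rfl le_rfl ?_ ?_) <;> linarith
  have hterm : ∀ j ∈ range (J + 1), 1 - Pr (gp N) S (A j) ≤
      2 * C1 * Real.exp (-(c' * (((j : ℝ) + 1) * X))) := by
    intro j hj
    rw [Finset.mem_range] at hj
    have h1 := and_ge (ok_gp N) S (TBc a (a + h) (y - ((j : ℤ) + 2) * h) (y - (j : ℤ) * h))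
      (LRc a (a + h) (y - ((j : ℤ) + 1) * h) (y - (j : ℤ) * h))
    rw [pr_gTB (hs1 j hj), pr_gLR (hs2 j hj)] at h1
    have h0 : (0 : ℤ) ≤ (j : ℤ) * h := by positivity
    have h2 := jw_le (w := h) hj
    have h3 := sup_TB (N := N) (a := a) (b := a + h) (c := y - ((j : ℤ) + 2) * h)
      (d := y - (j : ℤ) * h) hs hN (t := (j : ℤ) * h + t0) (by omega) (by linarith) (w := h)
      (L := 2 * h) (by omega) (by omega) (by omega) rfl (by rw [hy]; ring)
      (by rw [hy]; push_cast; ring)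
    have h4 := sup_LR (N := N) (a := a) (b := a + h) (c := y - ((j : ℤ) + 1) * h)
      (d := y - (j : ℤ) * h) hs hN (t := (j : ℤ) * h + t0) (by omega) (by linarith) (w := h)
      (L := h) (by omega) (by omega) (by omega) rfl (by rw [hy]; ring)
      (by rw [hy]; push_cast; ring)
    have h5 := hit_exp (N := N) hN (h := h) (m := h) (s := (((j : ℤ) * h + t0 : ℤ) : ℝ)) (j := j)
      (by
        have : (0 : ℝ) ≤ h := by positivity
        linarith)
      (by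
        push_cast
        have h6 : (h : ℝ) ≤ 2 * t0 := by exact_mod_cast hht
        have h7 : (0 : ℝ) ≤ (j : ℝ) * h := by positivity
        linarith)
    rw [← hX] at h5
    have h6 : Real.exp (-(c1 * (h * ((((j : ℤ) * h + t0 : ℤ) : ℝ) / (2 * N)) ^ (4 / 3 : ℝ)))) ≤
        Real.exp (-(c' * (((j : ℝ) + 1) * X))) := by
      apply Real.exp_le_exp.mpr
      have := mul_le_mul_of_nonneg_left h5 hc1.le
      rw [hc']
      linarith
    have h7 := mul_le_mul_of_nonneg_left h6 hC1.le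
    have h8 : Pr (gp N) S (A j) = Pr (gp N) S (fun F =>
      TBc a (a + h) (y - ((j : ℤ) + 2) * h) (y - (j : ℤ) * h) F ∧
      LRc a (a + h) (y - ((j : ℤ) + 1) * h) (y - (j : ℤ) * h) F) := by rw [hAd]
    rw [h8]
    linarith
  have h1 := union_bd (ok_gp N) S A (J + 1)
  have h2 : Pr (gp N) S (fun F => ∀ j < J + 1, A j F) ≤
      Pr (gp N) S (TBc a (a + h) (y - ((J : ℤ) + 2) * h) y) := by
    apply Pr_mono (ok_gp N)
    intro F _ hF
    rw [hAd] at hF
    exact chainT (by omega) (by omega) J (fun j hj => (hF j hj).1) (fun j hj => (hF j hj).2)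
  rw [pr_gTB (by rw [hS]; exact TBE_subset_RE)] at h2
  have h3 : gTB N a (a + h) (y - ((J : ℤ) + 2) * h) y ≤ gTB N a (a + h) (-(N : ℤ)) y := by
    refine gTB_sub ?_ (by omega) le_rfl le_rfl le_rfl
    rw [hy]
    linarith
  have h4 := Finset.sum_le_sum hterm
  rw [← Finset.mul_sum] at h4
  have h5 := mul_le_mul_of_nonneg_left (geo_sum hc'0 hX1 (J + 1)) (by positivity : 0 ≤ 2 * C1)
  have h6 : 2 * C1 * (Real.exp (-(c' * X)) / (1 - Real.exp (-c'))) =
      2 * C1 / (1 - Real.exp (-c')) * Real.exp (-(c' * X)) := by ring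
  rw [← h6]
  linarith

/-- a bridge from two crossings -/
theorem br_det {N : ℕ} {ω : sqLattice.edgeSet → Bool} (hω : Good N ω) {a : ℤ} {w h t0 L : ℕ}
    (hw : 1 ≤ w) (hh : 1 ≤ h) (hwL : w ≤ L) (hhL : h ≤ L) (ht : t0 < h) (hhN : h ≤ N)
    {S : Finset Edg} (hL : LRc a (a + L) (-(h : ℤ)) (-(t0 : ℤ)) (FF S ω))
    (hT : TBc a (a + h) (-(N : ℤ)) (-(t0 : ℤ)) (FF S ω)) : Br N a w h ω := by
  have hwL' : (w : ℤ) ≤ L := by exact_mod_cast hwL
  have hhL' : (h : ℤ) ≤ L := by exact_mod_cast hhL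
  have hw' : (1 : ℤ) ≤ w := by exact_mod_cast hw
  have hh' : (1 : ℤ) ≤ h := by exact_mod_cast hh
  have ht' : (t0 : ℤ) < h := by exact_mod_cast ht
  have hN' : (h : ℤ) ≤ N := by exact_mod_cast hhN
  have hsubF : (↑(FF S ω) : Set Edg) ⊆ opn ω := by
    rw [FF_coe]; exact Set.inter_subset_left
  obtain ⟨y, y', hy, hy', hP⟩ := hL
  obtain ⟨x, x', hx, hx', hQ⟩ := hT
  have hP1 : Reach (↑(FF S ω) ∩ ↑(RE a (a + L) (-(h : ℤ)) (-(t0 : ℤ)))) (a, y) (a + L, y') :=
    hP.mono (Set.inter_subset_inter_right _ (by exact_mod_cast LRE_subset_RE))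
  have hQ1 : Reach (↑(FF S ω) ∩ ↑(RE a (a + h) (-(N : ℤ)) (-(t0 : ℤ)))) (x, -(N : ℤ))
      (x', -(t0 : ℤ)) :=
    hQ.mono (Set.inter_subset_inter_right _ (by exact_mod_cast TBE_subset_RE))
  have hmeet := cross_meet (A := a) (B := a + L) (C := -(N : ℤ)) (D := -(t0 : ℤ)) (a := a)
    (b := a + h) (c := -(h : ℤ)) (d := -(t0 : ℤ)) le_rfl (by omega) (by omega) (by omega)
    (by omega) le_rfl hP1 le_rfl (by show a + (h : ℤ) ≤ a + L; omega) hQ1
    (by show -(N : ℤ) ≤ -(h : ℤ); omega) le_rfl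
  have hground : Reach (opn ω) (0, -(N : ℤ)) (a, y) :=
    (ground_line hω x).trans ((hmeet.mono (Set.inter_subset_left.trans hsubF)).symm)
  obtain ⟨y1, y2, k1, k2, k3, k4⟩ := sub_LR (a := a) (b := a + w)
    (c := -(h : ℤ)) (d := -(t0 : ℤ)) (by omega)
    (by rintro z z' ⟨-, he⟩ _ _
        simp only [mem_coe, mem_RE_true] at he
        omega)
    (by rintro z z' ⟨-, he⟩ _ _
        simp only [mem_coe, mem_RE_false] at he
        omega) hP1 le_rfl (by show a + (w : ℤ) ≤ a + L; omega)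
  refine ⟨(a, y1), (a + w, y2), hground.trans (k4.mono (Set.inter_subset_left.trans hsubF)),
    rfl, rfl, k3.mono ?_⟩
  rintro e ⟨⟨he1, -⟩, he2⟩
  refine ⟨hsubF he1, ?_⟩
  obtain ⟨z, z', _ | _⟩ := e
  · simp only [mem_coe, mem_LRE_false] at he2
    show (a ≤ z ∧ z ≤ a + w ∧ -(h : ℤ) ≤ z') ∧ (a ≤ z ∧ z ≤ a + w ∧ -(h : ℤ) ≤ z' + 1)
    omega
  · simp only [mem_coe, mem_LRE_true] at he2
    show (a ≤ z ∧ z ≤ a + w ∧ -(h : ℤ) ≤ z') ∧ (a ≤ z + 1 ∧ z + 1 ≤ a + w ∧ -(h : ℤ) ≤ z')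
    omega

theorem br_upper : ∃ c C : ℝ, 0 < c ∧ 0 < C ∧ ∀ (N : ℕ) (q : sqLattice.edgeSet → unitInterval),
    1 ≤ N → 2 ≤ D N → (∀ e, (q (toE e) : ℝ) = gp N e) → ∀ w h : ℕ, D N ≤ w → h ≤ N → ∀ a : ℤ,
    (ilaw q).real {ω | ¬ Br N a w h ω} ≤
      C * (w / D N) * Real.exp (-(c * ((h : ℝ) / D N) ^ (7 / 3 : ℝ))) := by
  obtain ⟨c1, C1, hc1, hC1, hwt⟩ := wide_tube
  obtain ⟨c2, C2, hc2, hC2, hwc⟩ := wide_cross
  obtain ⟨c, hc⟩ : ∃ c : ℝ, c = min c1 (c2 / 24) := ⟨_, rfl⟩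
  have hc0 : 0 < c := by rw [hc]; exact lt_min hc1 (by positivity)
  refine ⟨c, C1 + 7 * C2 + Real.exp c, hc0, by positivity, ?_⟩
  intro N q hN hD2 hq w h hw hhN a
  have hN0 : (0 : ℝ) < N := by exact_mod_cast hN
  have hD := D_pos hN
  have hwD : 1 ≤ (w : ℝ) / D N := by rw [le_div_iff₀ hD, one_mul]; exact hw
  have hw1 : 1 ≤ w := by
    have : (1 : ℝ) ≤ w := by linarith
    exact_mod_cast this
  obtain ⟨X, hX⟩ : ∃ X : ℝ, X = ((h : ℝ) / D N) ^ (7 / 3 : ℝ) := ⟨_, rfl⟩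
  have hXe := Real.exp_pos (-(c * X))
  rcases lt_or_ge (h : ℝ) (D N) with hh | hh
  · have hX1 : X ≤ 1 := by
      rw [hX]
      exact Real.rpow_le_one (by positivity) (by rw [div_le_one hD]; exact hh.le) (by norm_num)
    rw [← hX]
    have h1 : (1 : ℝ) ≤ Real.exp c * Real.exp (-(c * X)) := by
      rw [← Real.exp_add]
      apply Real.one_le_exp
      nlinarith
    have h2 : (ilaw q).real {ω | ¬ Br N a w h ω} ≤ 1 := measureReal_le_one
    have h3 : Real.exp c * Real.exp (-(c * X)) ≤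
        (C1 + 7 * C2 + Real.exp c) * (w / D N) * Real.exp (-(c * X)) := by
      apply mul_le_mul_of_nonneg_right _ hXe.le
      calc Real.exp c ≤ (C1 + 7 * C2 + Real.exp c) * 1 := by linarith
        _ ≤ (C1 + 7 * C2 + Real.exp c) * (w / D N) :=
            mul_le_mul_of_nonneg_left hwD (by positivity)
    linarith
  · have hh2 : 2 ≤ h := by
      have : (2 : ℝ) ≤ h := by linarith
      exact_mod_cast this
    have hX1 : 1 ≤ X := by
      rw [hX]
      exact Real.one_le_rpow (by rw [le_div_iff₀ hD, one_mul]; exact hh) (by norm_num)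
    obtain ⟨t0, ht0⟩ : ∃ t0 : ℕ, t0 = (h + 1) / 2 := ⟨_, rfl⟩
    obtain ⟨L, hL⟩ : ∃ L : ℕ, L = max w h := ⟨_, rfl⟩
    obtain ⟨H, hH⟩ : ∃ H : ℕ, H = h - t0 := ⟨_, rfl⟩
    have hwL : w ≤ L := by rw [hL]; exact le_max_left _ _
    have hhL : h ≤ L := by rw [hL]; exact le_max_right _ _
    obtain ⟨S, hS⟩ : ∃ S : Finset Edg, S = RE a (a + L) (-(N : ℤ)) (-(t0 : ℤ)) := ⟨_, rfl⟩
    have h1 : (ilaw q).real {ω | ¬ Br N a w h ω} ≤ (ilaw q).real {ω |
        ¬ (LRc a (a + L) (-(h : ℤ)) (-(t0 : ℤ)) (FF S ω) ∧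
          TBc a (a + h) (-(N : ℤ)) (-(t0 : ℤ)) (FF S ω))} := by
      apply real_mono_ae
      filter_upwards [ae_good hN hq] with ω hω
      intro hno hcon
      exact hno (br_det hω hw1 (by omega) hwL hhL (by omega) hhN hcon.1 hcon.2)
    rw [mu_event hq S (fun F => ¬ (LRc a (a + L) (-(h : ℤ)) (-(t0 : ℤ)) F ∧
      TBc a (a + h) (-(N : ℤ)) (-(t0 : ℤ)) F)), Pr_not] at h1
    have h2 := and_ge (ok_gp N) S (LRc a (a + L) (-(h : ℤ)) (-(t0 : ℤ)))
      (TBc a (a + h) (-(N : ℤ)) (-(t0 : ℤ)))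
    have s1 : LRE a (a + L) (-(h : ℤ)) (-(t0 : ℤ)) ⊆ S := by
      rw [hS]; exact LRE_subset_RE.trans (RE_subset le_rfl le_rfl (by omega) le_rfl)
    have s2 : TBE a (a + h) (-(N : ℤ)) (-(t0 : ℤ)) ⊆ S := by
      rw [hS]; exact TBE_subset_RE.trans (RE_subset le_rfl (by omega) le_rfl le_rfl)
    rw [pr_gLR s1, pr_gTB s2] at h2
    have h3 := hwt N hN h t0 (by omega) hh (by omega) (by omega) a
    have ht0N : (0 : ℤ) ≤ t0 ∧ (t0 : ℤ) ≤ N := ⟨by positivity, by omega⟩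
    obtain ⟨l1, l2⟩ := lvl hN ht0N.1 ht0N.2
    have hcast : (((t0 : ℕ) : ℤ) : ℝ) = (t0 : ℝ) := by norm_num
    rw [hcast] at l1 l2
    have h4 := le_gLR (N := N) (a := a) (b := a + L) (c := -(h : ℤ)) (d := -(t0 : ℤ))
      (q := 1 / 2 + (t0 : ℝ) / (2 * N)) hN (by linarith) (by linarith) (by
        push_cast; rw [neg_div]; linarith)
    have h5 := hwc (1 / 2 + (t0 : ℝ) / (2 * N)) (by linarith) (by linarith) L H
      (by omega) (by omega)
    have e1 : a + (L : ℤ) - a = L := by ring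
    have e2 : -(t0 : ℤ) - -(h : ℤ) = (H : ℤ) := by omega
    have e3 : (1 : ℝ) / 2 + (t0 : ℝ) / (2 * N) - 1 / 2 = (t0 : ℝ) / (2 * N) := by ring
    rw [e1, e2] at h4
    rw [e3] at h5
    have h6 := hit_exp (N := N) hN (h := h) (m := H) (s := t0) (j := 0)
      (by
        rw [div_le_iff₀ (by norm_num)]
        have : h ≤ H * 3 := by omega
        exact_mod_cast this)
      (by
        rw [div_le_iff₀ (by norm_num)]
        push_cast
        have : h ≤ t0 * 2 := by omega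
        have h7 : (h : ℝ) ≤ t0 * 2 := by exact_mod_cast this
        linarith)
    rw [← hX] at h6 h3 ⊢
    have hLH : (L : ℝ) / H ≤ 6 * (w / D N) := by
      have hH0 : (0 : ℝ) < H := by
        have : 0 < H := by omega
        exact_mod_cast this
      have hHD : D N ≤ 3 * H := by
        have : h ≤ 3 * H := by omega
        have h7 : (h : ℝ) ≤ 3 * H := by exact_mod_cast this
        linarith
      rw [div_le_iff₀ hH0, hL]
      rcases le_total w h with hwh | hwh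
      · rw [max_eq_right hwh]
        have : (h : ℝ) ≤ 3 * H := by
          have : h ≤ 3 * H := by omega
          exact_mod_cast this
        nlinarith
      · rw [max_eq_left hwh]
        have h7 : (w : ℝ) = w / D N * D N := by field_simp
        have h8 : 0 ≤ (w : ℝ) / D N := by positivity
        nlinarith
    have e6 : Real.exp (-(c2 * (H * ((t0 : ℝ) / (2 * N)) ^ (4 / 3 : ℝ)))) ≤
        Real.exp (-(c * X)) := by
      apply Real.exp_le_exp.mpr
      have h7 : c ≤ c2 / 24 := by rw [hc]; exact min_le_right _ _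
      have h8 := mul_le_mul_of_nonneg_left h6 hc2.le
      have h9 := mul_le_mul_of_nonneg_right h7 (by linarith : 0 ≤ X)
      push_cast at h8
      linarith
    have e7 : Real.exp (-(c1 * X)) ≤ Real.exp (-(c * X)) := by
      apply Real.exp_le_exp.mpr
      have h7 : c ≤ c1 := by rw [hc]; exact min_le_left _ _
      have h9 := mul_le_mul_of_nonneg_right h7 (by linarith : 0 ≤ X)
      linarith
    have f1 : C2 * (1 + (L : ℝ) / H) *
        Real.exp (-(c2 * (H * ((t0 : ℝ) / (2 * N)) ^ (4 / 3 : ℝ)))) ≤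
        C2 * (7 * (w / D N)) * Real.exp (-(c * X)) := by
      apply mul_le_mul _ e6 (Real.exp_pos _).le (by positivity)
      exact mul_le_mul_of_nonneg_left (by linarith) hC2.le
    have f2 : C1 * Real.exp (-(c1 * X)) ≤ C1 * (w / D N) * Real.exp (-(c * X)) := by
      apply mul_le_mul _ e7 (Real.exp_pos _).le (by positivity)
      exact le_mul_of_one_le_right hC1.le hwD
    have f3 : 0 ≤ Real.exp c * (w / D N) * Real.exp (-(c * X)) := by
      have := Real.exp_pos c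
      positivity
    nlinarith [f1, f2, f3, h1, h2, h3, h4, h5]

end Pool.Agent.Y244.GP
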