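import Pool.Agent.Y244.GP.Inf

/-!
Gluing of crossings in tubes, and products of monotone events.
-/

set_option autoImplicit false

namespace Pool.Agent.Y244.GP
open Finset H974 Pool.Agent.H160R2.CV Pool.Agent.Y244.PC

/-- gluing of two top-bottom crossings -/
theorem glueT {F : Finset Edg} {a b c1 c2 d1 d2 : ℤ} (hab : a < b) (h1 : c1 ≤ c2) (h2 : c2 < d1)
    (h3 : d1 ≤ d2) (hA : TBc a b c1 d1 F) (hB : TBc a b c2 d2 F) (hC : LRc a b c2 d1 F) :
    TBc a b c1 d2 F := by
  have h4 := glue (F := tps.mp F) h1 h2 h3 hab (LRc_tps hA) (LRc_tps hB) (TBc_tps hC)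
  exact LRc_tps_iff.mp h4

/-- restriction of connections -/
theorem reach_restrict {G : Set Edg} {u v : Vtx} (Q : Vtx → Prop)
    (h : ∀ w, Reach G u w → Q w) (hr : Reach G u v) :
    Reach (G ∩ {e | Q (src e) ∧ Q (tgt e)}) u v := by
  have key : ∀ w, Reach G u w → Reach (G ∩ {e | Q (src e) ∧ Q (tgt e)}) u w := by
    intro w hw
    induction hw with
    | refl => exact Reach.refl _ _
    | @tail b c hb hs ih =>
      obtain ⟨e, he, hcase⟩ := hs
      have hb' : Q b := h b hb
      have hc' : Q c := h c (Relation.ReflTransGen.tail hb ⟨e, he, hcase⟩)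
      refine Relation.ReflTransGen.tail ih ⟨e, ⟨he, ?_⟩, hcase⟩
      rcases hcase with ⟨h1, h2⟩ | ⟨h1, h2⟩
      · exact ⟨h1 ▸ hb', h2 ▸ hc'⟩
      · exact ⟨h1 ▸ hc', h2 ▸ hb'⟩
  exact key v hr

/-- gluing of two blocked rectangles -/
theorem glueN {F : Finset Edg} {a b c1 c2 d1 d2 : ℤ} (h1 : c1 ≤ c2) (h2 : c2 < d1)
    (h3 : d1 ≤ d2) (hA : ¬ LRc a b c1 d1 F) (hB : ¬ LRc a b c2 d2 F) (hC : ¬ TBc a b c2 d1 F) :
    ¬ LRc a b c1 d2 F := by
  rintro ⟨y, y', hy, hy', hr⟩
  set G : Set Edg := ↑F ∩ ↑(LRE a b c1 d2) with hG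
  by_cases hlo : ∃ u, Reach G (a, y) u ∧ u.2 ≤ c2
  · by_cases hhi : ∃ v, Reach G (a, y) v ∧ d1 ≤ v.2
    · obtain ⟨u, hu, hu2⟩ := hlo
      obtain ⟨v, hv, hv2⟩ := hhi
      apply hC
      obtain ⟨x1, x2, k1, k2, k3, -⟩ := sub_TB (a := a) (b := b) h2
        (by rintro x z ⟨-, h⟩ _ _; simp only [mem_coe, mem_LRE_false] at h; omega)
        (by rintro x z ⟨-, h⟩ _ _; simp only [mem_coe, mem_LRE_true] at h; omega)
        (hu.symm.trans hv) hu2 hv2
      exact ⟨x1, x2, k1, k2, k3.mono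
        (Set.inter_subset_inter_left _ Set.inter_subset_left)⟩
    · apply hA
      have hall : ∀ w, Reach G (a, y) w → w.2 ≤ d1 := by
        intro w hw
        by_contra hcon
        exact hhi ⟨w, hw, by omega⟩
      have h4 := reach_restrict (fun w => w.2 ≤ d1) hall hr
      refine ⟨y, y', ⟨hy.1, hall _ (Reach.refl _ _)⟩, ⟨hy'.1, hall _ hr⟩, h4.mono ?_⟩
      rintro e ⟨⟨he1, he2⟩, he3, he4⟩
      refine ⟨he1, ?_⟩
      obtain ⟨x, z, _ | _⟩ := e
      · simp only [mem_coe, mem_LRE_false, Set.mem_setOf_eq, src_mk, tgt_false] at he2 he3 he4 ⊢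
        omega
      · simp only [mem_coe, mem_LRE_true, Set.mem_setOf_eq, src_mk, tgt_true] at he2 he3 he4 ⊢
        omega
  · apply hB
    have hall : ∀ w, Reach G (a, y) w → c2 ≤ w.2 := by
      intro w hw
      by_contra hcon
      exact hlo ⟨w, hw, by omega⟩
    have h4 := reach_restrict (fun w => c2 ≤ w.2) hall hr
    refine ⟨y, y', ⟨hall _ (Reach.refl _ _), hy.2⟩, ⟨hall _ hr, hy'.2⟩, h4.mono ?_⟩
    rintro e ⟨⟨he1, he2⟩, he3, he4⟩
    refine ⟨he1, ?_⟩
    obtain ⟨x, z, _ | _⟩ := e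
    · simp only [mem_coe, mem_LRE_false, Set.mem_setOf_eq, src_mk, tgt_false] at he2 he3 he4 ⊢
      omega
    · simp only [mem_coe, mem_LRE_true, Set.mem_setOf_eq, src_mk, tgt_true] at he2 he3 he4 ⊢
      omega

/-- a chain of crossings going down -/
theorem chainT {F : Finset Edg} {a b y w : ℤ} (hab : a < b) (hw : 0 < w) (J : ℕ)
    (hV : ∀ j : ℕ, j < J + 1 → TBc a b (y - (j + 2) * w) (y - j * w) F)
    (hH : ∀ j : ℕ, j < J + 1 → LRc a b (y - (j + 1) * w) (y - j * w) F) :
    TBc a b (y - (J + 2) * w) y F := by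
  induction J with
  | zero =>
    have h1 := hV 0 (by omega)
    simpa using h1
  | succ J ih =>
    have h1 := ih (fun j hj => hV j (by omega)) (fun j hj => hH j (by omega))
    have h2 := hV (J + 1) (by omega)
    have h3 := hH (J + 1) (by omega)
    push_cast at h2 h3 ⊢
    have e1 : y - ((J : ℤ) + 1 + 1) * w = y - (J + 2) * w := by ring
    rw [e1] at h3
    have hJw : 0 ≤ (J : ℤ) * w := by positivity
    refine glueT hab ?_ ?_ ?_ h2 h1 h3
    · nlinarith
    · nlinarith
    · nlinarith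

/-- a chain of blocked rectangles going up -/
theorem chainN {F : Finset Edg} {a b y w : ℤ} (hw : 0 < w) (J : ℕ)
    (hV : ∀ j : ℕ, j < J + 1 → ¬ LRc a b (y + j * w) (y + (j + 2) * w) F)
    (hH : ∀ j : ℕ, j < J + 1 → ¬ TBc a b (y + j * w) (y + (j + 1) * w) F) :
    ¬ LRc a b y (y + (J + 2) * w) F := by
  induction J with
  | zero =>
    have h1 := hV 0 (by omega)
    simpa using h1
  | succ J ih =>
    have h1 := ih (fun j hj => hV j (by omega)) (fun j hj => hH j (by omega))
    have h2 := hV (J + 1) (by omega)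
    have h3 := hH (J + 1) (by omega)
    push_cast at h2 h3 ⊢
    have e1 : y + ((J : ℤ) + 1 + 1) * w = y + (J + 2) * w := by ring
    rw [e1] at h3
    have hJw : 0 ≤ (J : ℤ) * w := by positivity
    refine glueN (c2 := y + ((J : ℤ) + 1) * w) (d1 := y + ((J : ℤ) + 2) * w) ?_ ?_ ?_ h1 h2 h3
    · nlinarith
    · nlinarith
    · nlinarith

/-- product of monotone events, most of which are very likely -/
theorem chain_incr {E : Type*} [DecidableEq E] {p : E → ℝ} (hp : Ok p) {S : Finset E}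
    (A : ℕ → Finset E → Prop) (hA : ∀ j, IncrE S (A j)) (K J : ℕ) {κ : ℝ} (hκ : 0 ≤ κ)
    (hκ1 : κ ≤ 1) (δ : ℕ → ℝ) (h1 : ∀ j < J, j < K → κ ≤ Pr p S (A j))
    (h2 : ∀ j < J, K ≤ j → 1 - Pr p S (A j) ≤ δ j)
    (hδ : ∀ j, 0 ≤ δ j) (h3 : ∑ j ∈ Ico K J, δ j ≤ 1 / 2) :
    κ ^ K * (1 / 2) ≤ Pr p S (fun F => ∀ j < J, A j F) := by
  classical
  have hnear : κ ^ K ≤ Pr p S (fun F => ∀ j ∈ range (min K J), A j F) := by
    refine le_trans ?_ (fkg_incr hp (range (min K J)) A (fun j _ => hA j))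
    refine le_trans ?_ (pow_card_le_prod (range (min K J)) _ hκ (c := κ) (fun j hj => ?_))
    · rw [Finset.card_range]
      exact pow_le_pow_of_le_one hκ hκ1 (min_le_left _ _)
    · rw [Finset.mem_range, lt_min_iff] at hj
      exact h1 j hj.2 hj.1
  have hfar : 1 / 2 ≤ Pr p S (fun F => ∀ j ∈ Ico K J, A j F) := by
    have h4 : ∀ I : Finset ℕ, I ⊆ Ico K J → 1 - Pr p S (fun F => ∀ j ∈ I, A j F) ≤ ∑ j ∈ I, δ j := by
      intro I
      induction I using Finset.induction_on with
      | empty =>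
        intro _
        rw [Pr_true]
        · simp
        · intro F _ i hi
          exact absurd hi (Finset.notMem_empty i)
      | insert i I hi ih =>
        intro hI
        have h5 := ih (fun x hx => hI (Finset.mem_insert_of_mem hx))
        have h6 := hI (Finset.mem_insert_self i I)
        rw [Finset.mem_Ico] at h6
        have h7 := h2 i h6.2 h6.1
        rw [Finset.sum_insert hi]
        have h8 : 1 - Pr p S (fun F => ∀ j ∈ insert i I, A j F) ≤
            (1 - Pr p S (A i)) + (1 - Pr p S (fun F => ∀ j ∈ I, A j F)) := by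
          rw [← Pr_not, ← Pr_not, ← Pr_not]
          refine le_trans ?_ (Pr_or_le hp S _ _)
          apply Pr_mono hp
          intro F _ hF
          rw [Finset.forall_mem_insert] at hF
          tauto
        linarith
    have h5 := h4 (Ico K J) (Finset.Subset.refl _)
    linarith
  have hinc : ∀ I : Finset ℕ, IncrE S (fun F => ∀ j ∈ I, A j F) := by
    intro I F G hFG hG h j hj
    exact hA j F G hFG hG (h j hj)
  have h5 := Pr_harris hp (hinc (range (min K J))) (hinc (Ico K J))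
  have h6 : κ ^ K * (1 / 2) ≤ Pr p S (fun F => ∀ j ∈ range (min K J), A j F) *
      Pr p S (fun F => ∀ j ∈ Ico K J, A j F) :=
    mul_le_mul hnear hfar (by norm_num) (Pr_nonneg hp _ _)
  refine h6.trans (h5.trans ?_)
  apply Pr_mono hp
  rintro F _ ⟨h7, h8⟩ j hj
  by_cases hjK : j < K
  · exact h7 j (by rw [Finset.mem_range]; omega)
  · exact h8 j (by rw [Finset.mem_Ico]; omega)

/-- the same for decreasing events -/
theorem chain_decr {E : Type*} [DecidableEq E] {p : E → ℝ} (hp : Ok p) {S : Finset E}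
    (A : ℕ → Finset E → Prop) (hA : ∀ j, DecrE S (A j)) (K J : ℕ) {κ : ℝ} (hκ : 0 ≤ κ)
    (hκ1 : κ ≤ 1) (δ : ℕ → ℝ) (h1 : ∀ j < J, j < K → κ ≤ Pr p S (A j))
    (h2 : ∀ j < J, K ≤ j → 1 - Pr p S (A j) ≤ δ j)
    (hδ : ∀ j, 0 ≤ δ j) (h3 : ∑ j ∈ Ico K J, δ j ≤ 1 / 2) :
    κ ^ K * (1 / 2) ≤ Pr p S (fun F => ∀ j < J, A j F) := by
  classical
  have hnear : κ ^ K ≤ Pr p S (fun F => ∀ j ∈ range (min K J), A j F) := by
    refine le_trans ?_ (fkg_decr hp (range (min K J)) A (fun j _ => hA j))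
    refine le_trans ?_ (pow_card_le_prod (range (min K J)) _ hκ (c := κ) (fun j hj => ?_))
    · rw [Finset.card_range]
      exact pow_le_pow_of_le_one hκ hκ1 (min_le_left _ _)
    · rw [Finset.mem_range, lt_min_iff] at hj
      exact h1 j hj.2 hj.1
  have hfar : 1 / 2 ≤ Pr p S (fun F => ∀ j ∈ Ico K J, A j F) := by
    have h4 : ∀ I : Finset ℕ, I ⊆ Ico K J → 1 - Pr p S (fun F => ∀ j ∈ I, A j F) ≤ ∑ j ∈ I, δ j := by
      intro I
      induction I using Finset.induction_on with
      | empty =>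
        intro _
        rw [Pr_true]
        · simp
        · intro F _ i hi
          exact absurd hi (Finset.notMem_empty i)
      | insert i I hi ih =>
        intro hI
        have h5 := ih (fun x hx => hI (Finset.mem_insert_of_mem hx))
        have h6 := hI (Finset.mem_insert_self i I)
        rw [Finset.mem_Ico] at h6
        have h7 := h2 i h6.2 h6.1
        rw [Finset.sum_insert hi]
        have h8 : 1 - Pr p S (fun F => ∀ j ∈ insert i I, A j F) ≤
            (1 - Pr p S (A i)) + (1 - Pr p S (fun F => ∀ j ∈ I, A j F)) := by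
          rw [← Pr_not, ← Pr_not, ← Pr_not]
          refine le_trans ?_ (Pr_or_le hp S _ _)
          apply Pr_mono hp
          intro F _ hF
          rw [Finset.forall_mem_insert] at hF
          tauto
        linarith
    have h5 := h4 (Ico K J) (Finset.Subset.refl _)
    linarith
  have hinc : ∀ I : Finset ℕ, DecrE S (fun F => ∀ j ∈ I, A j F) := by
    intro I F G hFG hG h h' 
    apply h
    intro j hj
    by_contra hcon
    exact hA j F G hFG hG hcon (h' j hj)
  have h5 := harris_dec2 hp (hinc (range (min K J))) (hinc (Ico K J))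
  have h6 : κ ^ K * (1 / 2) ≤ Pr p S (fun F => ∀ j ∈ range (min K J), A j F) *
      Pr p S (fun F => ∀ j ∈ Ico K J, A j F) :=
    mul_le_mul hnear hfar (by norm_num) (Pr_nonneg hp _ _)
  refine h6.trans (h5.trans ?_)
  apply Pr_mono hp
  rintro F _ ⟨h7, h8⟩ j hj
  by_cases hjK : j < K
  · exact h7 j (by rw [Finset.mem_range]; omega)
  · exact h8 j (by rw [Finset.mem_Ico]; omega)

end Pool.Agent.Y244.GP
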