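import Pool.Agent.Y244.GP.Prof2

/-!
The final form: the four estimates with common constants.
-/

set_option autoImplicit false

namespace Pool.Agent.Y244.GP
open Finset MeasureTheory H974 Pool.Agent.H160R2.CV Pool.Agent.H160R2.CV.Quad Pool.Agent.Y244.PC

theorem D_large {N : ℕ} (hN : 2 ^ 12 ≤ N) : 48 ≤ D N ∧ 12 * D N ≤ N := by
  have hN' : (2 : ℝ) ^ 12 ≤ N := by exact_mod_cast hN
  have hN0 : (0 : ℝ) < N := lt_of_lt_of_le (by positivity) hN'
  have hN1 : 1 ≤ N := le_trans (by norm_num) hN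
  constructor
  · unfold D
    have h1 : ((2 : ℝ) ^ 12) ^ (4 / 7 : ℝ) ≤ (N : ℝ) ^ (4 / 7 : ℝ) :=
      Real.rpow_le_rpow (by positivity) hN' (by norm_num)
    have h2 : (48 : ℝ) ≤ ((2 : ℝ) ^ 12) ^ (4 / 7 : ℝ) := by
      have h3 : ((2 : ℝ) ^ 12) ^ (4 / 7 : ℝ) = (2 : ℝ) ^ (48 / 7 : ℝ) := by
        rw [← Real.rpow_natCast, ← Real.rpow_mul (by norm_num)]
        norm_num
      rw [h3]
      calc (48 : ℝ) ≤ (2 : ℝ) ^ (6 : ℝ) := by norm_num
        _ ≤ (2 : ℝ) ^ (48 / 7 : ℝ) :=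
          Real.rpow_le_rpow_of_exponent_le (by norm_num) (by norm_num)
    exact h2.trans h1
  · have h1 : D N / N ≤ 1 / 12 := by
      rw [D_div hN1]
      calc (N : ℝ) ^ (-(3 / 7) : ℝ) ≤ ((2 : ℝ) ^ 12) ^ (-(3 / 7) : ℝ) :=
            Real.rpow_le_rpow_of_nonpos (by positivity) hN' (by norm_num)
        _ = (2 : ℝ) ^ (-(36 / 7) : ℝ) := by
            rw [← Real.rpow_natCast, ← Real.rpow_mul (by norm_num)]
            norm_num
        _ ≤ (2 : ℝ) ^ (-(4 : ℝ)) :=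
            Real.rpow_le_rpow_of_exponent_le (by norm_num) (by norm_num)
        _ ≤ 1 / 12 := by
            rw [Real.rpow_neg (by norm_num)]
            norm_num
    rw [div_le_iff₀ hN0] at h1
    linarith

/-- monotonicity of the tails in the constants -/
theorem tail_mono {A A' κ κ' L X : ℝ} (hA : 0 ≤ A') (h1 : A ≤ A') (h2 : κ' ≤ κ) (hL : 0 ≤ L)
    (hX : 0 ≤ X) : A * L * Real.exp (-(κ * X)) ≤ A' * L * Real.exp (-(κ' * X)) := by
  have h3 : Real.exp (-(κ * X)) ≤ Real.exp (-(κ' * X)) := by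
    apply Real.exp_le_exp.mpr
    have := mul_le_mul_of_nonneg_right h2 hX
    linarith
  exact mul_le_mul (mul_le_mul_of_nonneg_right h1 hL) h3 (Real.exp_pos _).le (by positivity)

theorem gradient_main : ∃ c C : ℝ, 0 < c ∧ 0 < C ∧
    ∀ (N : ℕ) (q : sqLattice.edgeSet → unitInterval), 2 ^ 12 ≤ N →
    (∀ e, (q (toE e) : ℝ) = gp N e) →
    (∀ v : ℤ × ℤ, -(N : ℤ) ≤ 2 * v.2 → v.2 ≤ 0 →
      c * (max (|(v.2 : ℝ)| / N) ((N : ℝ) ^ (-(3 / 7) : ℝ))) ^ (5 / 36 : ℝ) ≤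
        (ilaw q).real (Gr N v) ∧
      (ilaw q).real (Gr N v) ≤
        C * (max (|(v.2 : ℝ)| / N) ((N : ℝ) ^ (-(3 / 7) : ℝ))) ^ (5 / 36 : ℝ)) ∧
    (∀ v : ℤ × ℤ, 0 ≤ v.2 →
      (4 * v.2 ≤ N → c * (N : ℝ) ^ (-(5 / 84) : ℝ) *
        Real.exp (-(C * ((v.2 : ℝ) / D N) ^ (7 / 3 : ℝ))) ≤ (ilaw q).real (Gr N v)) ∧
      (ilaw q).real (Gr N v) ≤ C * (N : ℝ) ^ (-(5 / 84) : ℝ) *
        Real.exp (-(c * ((v.2 : ℝ) / D N) ^ (7 / 3 : ℝ)))) ∧
    (∀ (a : ℤ) (w h : ℕ), D N ≤ w →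
      (ilaw q).real {ω | Hit N a w h ω} ≤
        C * (w / D N) * Real.exp (-(c * ((h : ℝ) / D N) ^ (7 / 3 : ℝ))) ∧
      (4 * h ≤ N → (ilaw q).real {ω | ¬ Hit N a w h ω} ≤
        Real.exp (-(c * (w / D N) * Real.exp (-(C * ((h : ℝ) / D N) ^ (7 / 3 : ℝ))))))) ∧
    (∀ (a : ℤ) (w h : ℕ), D N ≤ w → h ≤ N →
      (ilaw q).real {ω | ¬ Br N a w h ω} ≤
        C * (w / D N) * Real.exp (-(c * ((h : ℝ) / D N) ^ (7 / 3 : ℝ))) ∧
      (4 * h ≤ N → (ilaw q).real {ω | Br N a w h ω} ≤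
        Real.exp (-(c * (w / D N) * Real.exp (-(C * ((h : ℝ) / D N) ^ (7 / 3 : ℝ))))))) := by
  obtain ⟨c1, C1, hc1, hC1, h1⟩ := prof_up_high
  obtain ⟨C2, hC2, h2⟩ := prof_up_low
  obtain ⟨c3, hc3, h3⟩ := prof_low_deep
  obtain ⟨c4, C4, hc4, hC4, h4⟩ := prof_low_mid
  obtain ⟨c5, C5, hc5, hC5, h5⟩ := hit_upper
  obtain ⟨c6, C6, hc6, hC6, h6⟩ := hit_lower
  obtain ⟨c7, C7, hc7, hC7, h7⟩ := br_upper
  obtain ⟨c8, C8, hc8, hC8, h8⟩ := br_lower
  obtain ⟨c, hc⟩ : ∃ c : ℝ, c = min (min (min c1 c3) (min c4 c5)) (min (min c6 c7) c8) := ⟨_, rfl⟩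
  obtain ⟨C, hC⟩ : ∃ C : ℝ, C = C1 + C2 * Real.exp c + C2 + C4 + C5 + C6 + C7 + C8 := ⟨_, rfl⟩
  have hc0 : 0 < c := by
    rw [hc]
    exact lt_min (lt_min (lt_min hc1 hc3) (lt_min hc4 hc5)) (lt_min (lt_min hc6 hc7) hc8)
  have b1 : c ≤ c1 := by
    rw [hc]; exact ((min_le_left _ _).trans (min_le_left _ _)).trans (min_le_left _ _)
  have b3 : c ≤ c3 := by
    rw [hc]; exact ((min_le_left _ _).trans (min_le_left _ _)).trans (min_le_right _ _)
  have b4 : c ≤ c4 := by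
    rw [hc]; exact ((min_le_left _ _).trans (min_le_right _ _)).trans (min_le_left _ _)
  have b5 : c ≤ c5 := by
    rw [hc]; exact ((min_le_left _ _).trans (min_le_right _ _)).trans (min_le_right _ _)
  have b6 : c ≤ c6 := by
    rw [hc]; exact ((min_le_right _ _).trans (min_le_left _ _)).trans (min_le_left _ _)
  have b7 : c ≤ c7 := by
    rw [hc]; exact ((min_le_right _ _).trans (min_le_left _ _)).trans (min_le_right _ _)
  have b8 : c ≤ c8 := by
    rw [hc]; exact (min_le_right _ _).trans (min_le_right _ _)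
  have he := Real.exp_pos c
  have hC2e : 0 < C2 * Real.exp c := by positivity
  have hC0 : 0 < C := by rw [hC]; linarith
  have d1 : C1 ≤ C := by rw [hC]; linarith
  have d2 : C2 ≤ C := by rw [hC]; linarith
  have d2' : C2 * Real.exp c ≤ C := by rw [hC]; linarith
  have d4 : C4 ≤ C := by rw [hC]; linarith
  have d5 : C5 ≤ C := by rw [hC]; linarith
  have d6 : C6 ≤ C := by rw [hC]; linarith
  have d7 : C7 ≤ C := by rw [hC]; linarith
  have d8 : C8 ≤ C := by rw [hC]; linarith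
  refine ⟨c, C, hc0, hC0, ?_⟩
  intro N q hN12 hq
  obtain ⟨hD, hDN⟩ := D_large hN12
  have hN : 1 ≤ N := le_trans (by norm_num) hN12
  have hN0 : (0 : ℝ) < N := by exact_mod_cast hN
  have hD0 := D_pos hN
  have hpow : 0 < (N : ℝ) ^ (-(5 / 84) : ℝ) := Real.rpow_pos_of_pos hN0 _
  refine ⟨?_, ?_, ?_, ?_⟩
  · intro v hv1 hv2
    obtain ⟨s, hs⟩ : ∃ s : ℝ, s = max (|(v.2 : ℝ)| / N) ((N : ℝ) ^ (-(3 / 7) : ℝ)) := ⟨_, rfl⟩
    rw [← hs]
    have hs0 : 0 < s := by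
      rw [hs]; exact lt_of_lt_of_le (Real.rpow_pos_of_pos hN0 _) (le_max_right _ _)
    have hse : 0 < s ^ (5 / 36 : ℝ) := Real.rpow_pos_of_pos hs0 _
    have hv0 : (v.2 : ℝ) ≤ 0 := by exact_mod_cast hv2
    constructor
    · rcases le_total (D N) (|(v.2 : ℝ)|) with hcase | hcase
      · obtain ⟨t, ht⟩ : ∃ t : ℕ, (t : ℤ) = -v.2 := ⟨(-v.2).toNat, Int.toNat_of_nonneg (by omega)⟩
        have ht' : |(v.2 : ℝ)| = t := by
          rw [abs_of_nonpos hv0]
          have : ((t : ℤ) : ℝ) = ((-v.2 : ℤ) : ℝ) := by rw [ht]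
          push_cast at this
          linarith
        have e1 : s = (t : ℝ) / N := by
          rw [hs, ht', ← D_div hN]
          apply max_eq_left
          rw [ht'] at hcase
          exact div_le_div_of_nonneg_right hcase hN0.le
        rw [e1]
        refine le_trans ?_ (h3 N q hN hD hq v t (by omega) (by rw [← ht']; exact hcase)
          (by omega))
        exact mul_le_mul_of_nonneg_right b3 (by positivity)
      · have e1 : s = (N : ℝ) ^ (-(3 / 7) : ℝ) := by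
          rw [hs, ← D_div hN]
          apply max_eq_right
          exact div_le_div_of_nonneg_right hcase hN0.le
        rw [e1, s_pow hN]
        have h9 := h4 N q hN hD hDN hq v 0 (by omega) (by
          have := neg_abs_le (v.2 : ℝ)
          linarith) (by omega)
        rw [Nat.cast_zero, zero_div, Real.zero_rpow (by norm_num), mul_zero, neg_zero,
          Real.exp_zero, mul_one] at h9
        exact (mul_le_mul_of_nonneg_right b4 hpow.le).trans h9
    · refine (h2 N q hN hq v hv1 (by linarith) s hs).trans ?_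
      exact mul_le_mul_of_nonneg_right d2 hse.le
  · intro v hv
    obtain ⟨y, hy⟩ : ∃ y : ℕ, (y : ℤ) = v.2 := ⟨v.2.toNat, Int.toNat_of_nonneg hv⟩
    have hyr : (v.2 : ℝ) = y := by rw [← hy]; norm_num
    rw [hyr]
    have hX : 0 ≤ ((y : ℝ) / D N) ^ (7 / 3 : ℝ) := by positivity
    constructor
    · intro h9
      refine le_trans ?_ (h4 N q hN hD hDN hq v y (by omega) (by rw [hyr]; linarith [(by
        positivity : (0 : ℝ) ≤ y)]) (by omega))
      exact tail_mono hc4.le b4 d4 hpow.le hX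
    · rcases le_total (D N) (y : ℝ) with hcase | hcase
      · refine (h1 N q hN (by linarith) hq v y hy.symm hcase).trans ?_
        exact tail_mono hC0.le d1 b1 hpow.le hX
      · obtain ⟨s, hs⟩ : ∃ s : ℝ, s = max (|(v.2 : ℝ)| / N) ((N : ℝ) ^ (-(3 / 7) : ℝ)) := ⟨_, rfl⟩
        have e1 : s = (N : ℝ) ^ (-(3 / 7) : ℝ) := by
          rw [hs, ← D_div hN, hyr, abs_of_nonneg (by positivity)]
          apply max_eq_right
          exact div_le_div_of_nonneg_right hcase hN0.le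
        have h9 := h2 N q hN hq v (by omega) (by rw [hyr]; exact hcase) s hs
        rw [e1, s_pow hN] at h9
        have hX1 : ((y : ℝ) / D N) ^ (7 / 3 : ℝ) ≤ 1 :=
          Real.rpow_le_one (by positivity) (by rw [div_le_one hD0]; exact hcase) (by norm_num)
        have h10 : (1 : ℝ) ≤ Real.exp c * Real.exp (-(c * ((y : ℝ) / D N) ^ (7 / 3 : ℝ))) := by
          rw [← Real.exp_add]
          apply Real.one_le_exp
          nlinarith
        have hE := Real.exp_pos (-(c * ((y : ℝ) / D N) ^ (7 / 3 : ℝ)))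
        calc (ilaw q).real (Gr N v) ≤ C2 * (N : ℝ) ^ (-(5 / 84) : ℝ) := h9
          _ ≤ C2 * (N : ℝ) ^ (-(5 / 84) : ℝ) *
              (Real.exp c * Real.exp (-(c * ((y : ℝ) / D N) ^ (7 / 3 : ℝ)))) :=
              le_mul_of_one_le_right (by positivity) h10
          _ = (C2 * Real.exp c) * (N : ℝ) ^ (-(5 / 84) : ℝ) *
              Real.exp (-(c * ((y : ℝ) / D N) ^ (7 / 3 : ℝ))) := by ring
          _ ≤ C * (N : ℝ) ^ (-(5 / 84) : ℝ) *
              Real.exp (-(c * ((y : ℝ) / D N) ^ (7 / 3 : ℝ))) :=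
              mul_le_mul_of_nonneg_right (mul_le_mul_of_nonneg_right d2' hpow.le) hE.le
  · intro a w h hw
    have hL : 0 ≤ (w : ℝ) / D N := by positivity
    have hX : 0 ≤ ((h : ℝ) / D N) ^ (7 / 3 : ℝ) := by positivity
    refine ⟨(h5 N q hN (by linarith) hq w h hw a).trans (tail_mono hC0.le d5 b5 hL hX), ?_⟩
    intro hh
    refine (h6 N q hN hD hq w h hw (by omega) a).trans (Real.exp_le_exp.mpr ?_)
    exact neg_le_neg (tail_mono hc6.le b6 d6 hL hX)
  · intro a w h hw hhN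
    have hL : 0 ≤ (w : ℝ) / D N := by positivity
    have hX : 0 ≤ ((h : ℝ) / D N) ^ (7 / 3 : ℝ) := by positivity
    refine ⟨(h7 N q hN (by linarith) hq w h hw hhN a).trans (tail_mono hC0.le d7 b7 hL hX), ?_⟩
    intro hh
    refine (h8 N q hN hD hq w h hw (by omega) a).trans (Real.exp_le_exp.mpr ?_)
    exact neg_le_neg (tail_mono hc8.le b8 d8 hL hX)

end Pool.Agent.Y244.GP
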