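import Pool.Agent.Y244.GP.Tube2

/-!
Upper bounds for the height of the ground cluster.
-/

set_option autoImplicit false

namespace Pool.Agent.Y244.GP
open Finset MeasureTheory H974 Pool.Agent.H160R2.CV Pool.Agent.Y244.PC

/-- escaping from a rectangle crosses one of four rectangles -/
theorem esc4 {F : Finset Edg} {A B C E m : ℤ} (hm : 0 < m) {G : Set Edg}
    {u v : Vtx} (hu : inR A B C E u) (hr : Reach G u v)
    (hv : v.1 ≤ A - m ∨ B + m ≤ v.1 ∨ v.2 ≤ C - m ∨ E + m ≤ v.2)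
    (hF : G ∩ ↑(RE (A - m) (B + m) (C - m) (E + m)) ⊆ ↑F) :
    LRc (A - m) A (C - m) (E + m) F ∨ LRc B (B + m) (C - m) (E + m) F ∨
      TBc (A - m) (B + m) (C - m) C F ∨ TBc (A - m) (B + m) E (E + m) F := by
  unfold inR at hu
  obtain ⟨w, hw1, hw2, hw3⟩ := first_exit (a := A - m) (b := B + m) (c := C - m) (d := E + m)
    (by unfold inR; omega) hr hv
  have hH : ∀ x y : ℤ, ((x, y, true) : Edg) ∈ G ∩ ↑(RE (A - m) (B + m) (C - m) (E + m)) →
      (A - m ≤ x ∧ x < B + m) ∧ C - m ≤ y ∧ y ≤ E + m := by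
    rintro x y ⟨-, h⟩
    simp only [mem_coe, mem_RE_true] at h
    omega
  have hV : ∀ x y : ℤ, ((x, y, false) : Edg) ∈ G ∩ ↑(RE (A - m) (B + m) (C - m) (E + m)) →
      (A - m ≤ x ∧ x ≤ B + m) ∧ C - m ≤ y ∧ y < E + m := by
    rintro x y ⟨-, h⟩
    simp only [mem_coe, mem_RE_false] at h
    omega
  rcases hw2 with h | h | h | h
  · left
    obtain ⟨y1, y2, k1, k2, k3, -⟩ := sub_LR (a := A - m) (b := A) (c := C - m) (d := E + m)
      (by omega) (fun x y h _ _ => (hH x y h).2) (fun x y h _ _ => (hV x y h).2) hw3.symm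
      (by omega) (by omega)
    exact ⟨y1, y2, k1, k2, k3.mono (Set.inter_subset_inter_left _ hF)⟩
  · right; left
    obtain ⟨y1, y2, k1, k2, k3, -⟩ := sub_LR (a := B) (b := B + m) (c := C - m) (d := E + m)
      (by omega) (fun x y h _ _ => (hH x y h).2) (fun x y h _ _ => (hV x y h).2) hw3
      (by omega) (by omega)
    exact ⟨y1, y2, k1, k2, k3.mono (Set.inter_subset_inter_left _ hF)⟩
  · right; right; left
    obtain ⟨x1, x2, k1, k2, k3, -⟩ := sub_TB (a := A - m) (b := B + m) (c := C - m) (d := C)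
      (by omega) (fun x y h _ _ => (hV x y h).1) (fun x y h _ _ => (hH x y h).1) hw3.symm
      (by omega) (by omega)
    exact ⟨x1, x2, k1, k2, k3.mono (Set.inter_subset_inter_left _ hF)⟩
  · right; right; right
    obtain ⟨x1, x2, k1, k2, k3, -⟩ := sub_TB (a := A - m) (b := B + m) (c := E) (d := E + m)
      (by omega) (fun x y h _ _ => (hV x y h).1) (fun x y h _ _ => (hH x y h).1) hw3
      (by omega) (by omega)
    exact ⟨x1, x2, k1, k2, k3.mono (Set.inter_subset_inter_left _ hF)⟩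

/-- the sure edges and the impossible edges -/
def Good (N : ℕ) (ω : sqLattice.edgeSet → Bool) : Prop :=
  (∀ e : Edg, hgt e ≤ -(N : ℝ) → ω (toE e) = true) ∧
    (∀ e : Edg, (N : ℝ) ≤ hgt e → ω (toE e) = false)

section law

variable {N : ℕ} {q : sqLattice.edgeSet → unitInterval}

theorem mu_event (hq : ∀ e, (q (toE e) : ℝ) = gp N e) (S : Finset Edg) (Q : Finset Edg → Prop) :
    (ilaw q).real {ω | Q (FF S ω)} = Pr (gp N) S Q := by
  rw [ilaw_event]
  congr 1
  funext e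
  exact hq e

theorem gp_one (hN : 1 ≤ N) {e : Edg} (h : hgt e ≤ -(N : ℝ)) : gp N e = 1 := by
  have hN0 : (0 : ℝ) < N := by exact_mod_cast hN
  have h1 : hgt e / (2 * N) ≤ -(1 / 2) := by
    rw [div_le_iff₀ (by positivity)]
    linarith
  unfold gp
  rw [min_eq_left (by linarith), max_eq_right (by norm_num)]

theorem gp_zero (hN : 1 ≤ N) {e : Edg} (h : (N : ℝ) ≤ hgt e) : gp N e = 0 := by
  have hN0 : (0 : ℝ) < N := by exact_mod_cast hN
  have h1 : 1 / 2 ≤ hgt e / (2 * N) := by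
    rw [le_div_iff₀ (by positivity)]
    linarith
  unfold gp
  exact max_eq_left ((min_le_right _ _).trans (by linarith))

theorem ae_good (hN : 1 ≤ N) (hq : ∀ e, (q (toE e) : ℝ) = gp N e) :
    ∀ᵐ ω ∂(ilaw q), Good N ω := by
  filter_upwards [ae_open q, ae_closed q] with ω h1 h2
  exact ⟨fun e he => h1 e (by rw [hq, gp_one hN he]), fun e he => h2 e (by rw [hq, gp_zero hN he])⟩

theorem real_mono_ae {A B : Set (sqLattice.edgeSet → Bool)}
    (h : ∀ᵐ ω ∂(ilaw q), ω ∈ A → ω ∈ B) : (ilaw q).real A ≤ (ilaw q).real B := by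
  rw [measureReal_def, measureReal_def]
  exact ENNReal.toReal_mono (measure_ne_top _ _) (measure_mono_ae h)

theorem reach_le {ω : sqLattice.edgeSet → Bool} (hω : Good N ω) {v : Vtx}
    (h : Reach (opn ω) (0, -(N : ℤ)) v) : v.2 ≤ N := by
  induction h with
  | refl => show -(N : ℤ) ≤ N; omega
  | @tail b c hb hs ih =>
    obtain ⟨e, he, hcase⟩ := hs
    have h1 : hgt e < N := by
      by_contra hcon
      push Not at hcon
      have h2 := hω.2 e hcon
      have h3 : ω (toE e) = true := he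
      rw [h2] at h3
      exact absurd h3 (by simp)
    obtain ⟨x, y, _ | _⟩ := e
    · unfold hgt at h1
      simp only [Bool.false_eq_true, if_false] at h1
      have h2 : y + 1 ≤ (N : ℤ) := by
        have : (y : ℝ) < N := by linarith
        have h3 : y < (N : ℤ) := by exact_mod_cast this
        omega
      rcases hcase with ⟨h3, h4⟩ | ⟨h3, h4⟩
      · rw [← h4]; exact h2
      · rw [← h3]; show y ≤ (N : ℤ); omega
    · unfold hgt at h1
      simp only [if_true] at h1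
      have h2 : y ≤ (N : ℤ) := by
        have h3 : y < (N : ℤ) := by exact_mod_cast h1
        omega
      rcases hcase with ⟨h3, h4⟩ | ⟨h3, h4⟩
      · rw [← h4]; exact h2
      · rw [← h3]; exact h2

theorem ground_line {ω : sqLattice.edgeSet → Bool} (hω : Good N ω) (x : ℤ) :
    Reach (opn ω) (0, -(N : ℤ)) (x, -(N : ℤ)) := by
  have hopen : ∀ z : ℤ, ((z, -(N : ℤ), true) : Edg) ∈ opn ω := by
    intro z
    apply hω.1
    unfold hgt
    simp
  have h1 : ∀ n : ℕ, Reach (opn ω) (0, -(N : ℤ)) ((n : ℤ), -(N : ℤ)) := by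
    intro n
    induction n with
    | zero => exact Reach.refl _ _
    | succ n ih =>
      refine ih.trans (Adj.reach ⟨((n : ℤ), -(N : ℤ), true), hopen _, Or.inl ⟨rfl, ?_⟩⟩)
      rw [tgt_true]
      push_cast
      rfl
  have h2 : ∀ n : ℕ, Reach (opn ω) (0, -(N : ℤ)) (-(n : ℤ), -(N : ℤ)) := by
    intro n
    induction n with
    | zero => simpa using Reach.refl _ _
    | succ n ih =>
      refine ih.trans (Adj.reach ⟨(-((n + 1 : ℕ) : ℤ), -(N : ℤ), true), hopen _,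
        Or.inr ⟨rfl, ?_⟩⟩)
      rw [tgt_true]
      push_cast
      congr 1
      ring
  rcases Int.eq_nat_or_neg x with ⟨n, rfl | rfl⟩
  · exact h1 n
  · exact h2 n

/-- the ground cluster reaches the height `h` above the window `[a, a + w]` -/
def Hit (N : ℕ) (a w h : ℤ) (ω : sqLattice.edgeSet → Bool) : Prop :=
  ∃ v : Vtx, Reach (opn ω) (0, -(N : ℤ)) v ∧ a ≤ v.1 ∧ v.1 ≤ a + w ∧ h ≤ v.2

/-- the four crossings around a block -/
def EV (a h m t : ℤ) (F : Finset Edg) : Prop :=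
  LRc (a - m) a (t - m) (t + h + m) F ∨ LRc (a + h) (a + h + m) (t - m) (t + h + m) F ∨
    TBc (a - m) (a + h + m) (t - m) t F ∨ TBc (a - m) (a + h + m) (t + h) (t + h + m) F

theorem pr_EV {c1 C1 : ℝ} (hs : SubC c1 C1) (hN : 1 ≤ N) {a : ℤ} {h m : ℕ} {t : ℤ}
    (hm1 : 1 ≤ m) (hmh : h ≤ 3 * m) (ht0 : (m : ℤ) ≤ t) (htN : t ≤ N) :
    Pr (gp N) (RE (a - m) (a + h + m) (t - m) (t + h + m)) (EV a h m t) ≤
      4 * (C1 * Real.exp (-(c1 * (m * (((t - m : ℤ) : ℝ) / (2 * N)) ^ (4 / 3 : ℝ))))) := by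
  obtain ⟨S, hS⟩ : ∃ S : Finset Edg, S = RE (a - m) (a + h + m) (t - m) (t + h + m) := ⟨_, rfl⟩
  rw [← hS]
  have hh0 : (0 : ℤ) ≤ h := by positivity
  have hm0 : (1 : ℤ) ≤ m := by exact_mod_cast hm1
  have s1 : LRE (a - m) a (t - m) (t + h + m) ⊆ S := by
    rw [hS]; exact LRE_subset_RE.trans (RE_subset le_rfl (by omega) le_rfl le_rfl)
  have s2 : LRE (a + h) (a + h + m) (t - m) (t + h + m) ⊆ S := by
    rw [hS]; exact LRE_subset_RE.trans (RE_subset (by omega) le_rfl le_rfl le_rfl)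
  have s3 : TBE (a - m) (a + h + m) (t - m) t ⊆ S := by
    rw [hS]; exact TBE_subset_RE.trans (RE_subset le_rfl le_rfl le_rfl (by omega))
  have s4 : TBE (a - m) (a + h + m) (t + h) (t + h + m) ⊆ S := by
    rw [hS]; exact TBE_subset_RE.trans (RE_subset le_rfl le_rfl (by omega) le_rfl)
  have p1 := sub_LR' (N := N) (a := a - m) (b := a) (c := t - m) (d := t + h + m) hs hN
    (t := t - m) (by omega) (by omega) (w := m) (L := h + 2 * m) hm1 (by omega) (by ring) le_rfl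
    (by push_cast; ring)
  have p2 := sub_LR' (N := N) (a := a + h) (b := a + h + m) (c := t - m) (d := t + h + m) hs hN
    (t := t - m) (by omega) (by omega) (w := m) (L := h + 2 * m) hm1 (by omega) (by ring) le_rfl
    (by push_cast; ring)
  have p3 := sub_TB' (N := N) (a := a - m) (b := a + h + m) (c := t - m) (d := t) hs hN
    (t := t - m) (by omega) (by omega) (w := m) (L := h + 2 * m) hm1 (by omega)
    (by push_cast; ring) le_rfl (by ring)
  have p4 := sub_TB' (N := N) (a := a - m) (b := a + h + m) (c := t + h) (d := t + h + m) hs hN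
    (t := t - m) (by omega) (by omega) (w := m) (L := h + 2 * m) hm1 (by omega)
    (by push_cast; ring) (by omega) (by ring)
  have i1 := Pr_or_le (ok_gp N) S (TBc (a - m) (a + h + m) (t - m) t)
    (TBc (a - m) (a + h + m) (t + h) (t + h + m))
  have i2 := Pr_or_le (ok_gp N) S (LRc (a + h) (a + h + m) (t - m) (t + h + m))
    (fun F => TBc (a - m) (a + h + m) (t - m) t F ∨ TBc (a - m) (a + h + m) (t + h) (t + h + m) F)
  have i3 := Pr_or_le (ok_gp N) S (LRc (a - m) a (t - m) (t + h + m))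
    (fun F => LRc (a + h) (a + h + m) (t - m) (t + h + m) F ∨
      TBc (a - m) (a + h + m) (t - m) t F ∨ TBc (a - m) (a + h + m) (t + h) (t + h + m) F)
  rw [pr_gTB s3, pr_gTB s4] at i1
  rw [pr_gLR s2] at i2
  rw [pr_gLR s1] at i3
  have e : Pr (gp N) S (EV a h m t) = Pr (gp N) S (fun F => LRc (a - m) a (t - m) (t + h + m) F ∨
    LRc (a + h) (a + h + m) (t - m) (t + h + m) F ∨
      TBc (a - m) (a + h + m) (t - m) t F ∨
        TBc (a - m) (a + h + m) (t + h) (t + h + m) F) := rfl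
  rw [e]
  linarith

/-- the exponent in the `j`-th block -/
theorem hit_exp (hN : 1 ≤ N) {h : ℕ} {m s : ℝ} {j : ℕ} (hm : (h : ℝ) / 3 ≤ m)
    (hs : ((j : ℝ) + 1) * h / 2 ≤ s) :
    ((j : ℝ) + 1) * ((h : ℝ) / D N) ^ (7 / 3 : ℝ) / 24 ≤ m * (s / (2 * N)) ^ (4 / 3 : ℝ) := by
  have hN0 : (0 : ℝ) < N := by exact_mod_cast hN
  have hD := D_pos hN
  have h1 : ((j : ℝ) + 1) / 4 * h / N ≤ s / (2 * N) := by
    rw [div_le_div_iff₀ hN0 (by positivity)]
    nlinarith
  have h2 : (((j : ℝ) + 1) / 4 * h / N) ^ (4 / 3 : ℝ) ≤ (s / (2 * N)) ^ (4 / 3 : ℝ) :=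
    Real.rpow_le_rpow (by positivity) h1 (by norm_num)
  have h3 : (((j : ℝ) + 1) / 4 * h / N) ^ (4 / 3 : ℝ) =
      (((j : ℝ) + 1) / 4) ^ (4 / 3 : ℝ) * ((h : ℝ) / N) ^ (4 / 3 : ℝ) := by
    rw [mul_div_assoc, Real.mul_rpow (by positivity) (by positivity)]
  have h4 : ((j : ℝ) + 1) / 8 ≤ (((j : ℝ) + 1) / 4) ^ (4 / 3 : ℝ) := by
    rw [div_eq_mul_one_div, div_eq_mul_one_div ((j : ℝ) + 1) 4,
      Real.mul_rpow (by positivity) (by norm_num)]
    have h5 : (j : ℝ) + 1 ≤ ((j : ℝ) + 1) ^ (4 / 3 : ℝ) := by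
      have := Real.rpow_le_rpow_of_exponent_le (show (1 : ℝ) ≤ (j : ℝ) + 1 by
        have : (0 : ℝ) ≤ j := by positivity
        linarith) (show (1 : ℝ) ≤ 4 / 3 by norm_num)
      rwa [Real.rpow_one] at this
    have h6 : (1 / 8 : ℝ) ≤ (1 / 4 : ℝ) ^ (4 / 3 : ℝ) := by
      have h7 : (1 / 8 : ℝ) = (1 / 4 : ℝ) ^ (3 / 2 : ℝ) := by
        have : (1 / 4 : ℝ) = (1 / 2) ^ (2 : ℝ) := by norm_num
        rw [this, ← Real.rpow_mul (by norm_num)]
        norm_num
      rw [h7]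
      exact Real.rpow_le_rpow_of_exponent_ge (by norm_num) (by norm_num) (by norm_num)
    exact mul_le_mul h5 h6 (by norm_num) (by positivity)
  have h5 := self_mul_div hN (t := (h : ℝ)) (by positivity)
  have h6 : 0 ≤ ((h : ℝ) / N) ^ (4 / 3 : ℝ) := by positivity
  calc ((j : ℝ) + 1) * ((h : ℝ) / D N) ^ (7 / 3 : ℝ) / 24
      = (h : ℝ) / 3 * (((j : ℝ) + 1) / 8 * ((h : ℝ) / N) ^ (4 / 3 : ℝ)) := by rw [← h5]; ring
    _ ≤ (h : ℝ) / 3 * ((((j : ℝ) + 1) / 4) ^ (4 / 3 : ℝ) * ((h : ℝ) / N) ^ (4 / 3 : ℝ)) := by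
        apply mul_le_mul_of_nonneg_left _ (by positivity)
        exact mul_le_mul_of_nonneg_right h4 h6
    _ ≤ (h : ℝ) / 3 * (s / (2 * N)) ^ (4 / 3 : ℝ) := by
        rw [← h3]
        exact mul_le_mul_of_nonneg_left h2 (by positivity)
    _ ≤ m * (s / (2 * N)) ^ (4 / 3 : ℝ) :=
        mul_le_mul_of_nonneg_right hm ((Real.rpow_nonneg (by positivity) _).trans h2)

/-- geometric sum of the blocks -/
theorem geo_sum {c' X : ℝ} (hc : 0 < c') (hX : 1 ≤ X) (J : ℕ) :
    ∑ j ∈ range J, Real.exp (-(c' * (((j : ℝ) + 1) * X))) ≤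
      Real.exp (-(c' * X)) / (1 - Real.exp (-c')) := by
  have hr0 := Real.exp_pos (-c')
  have hr1 : Real.exp (-c') < 1 := Real.exp_lt_one_iff.mpr (by linarith)
  have h1 : ∀ j ∈ range J, Real.exp (-(c' * (((j : ℝ) + 1) * X))) ≤
      Real.exp (-(c' * X)) * Real.exp (-c') ^ j := by
    intro j _
    rw [← Real.exp_nat_mul, ← Real.exp_add]
    apply Real.exp_le_exp.mpr
    have : (0 : ℝ) ≤ j := by positivity
    have h2 : (j : ℝ) * 1 ≤ j * X := mul_le_mul_of_nonneg_left hX this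
    nlinarith
  refine (Finset.sum_le_sum h1).trans ?_
  rw [← Finset.mul_sum]
  have h2 := geom_sum_Ico_le_of_lt_one hr0.le hr1 (m := 0) (n := J)
  rw [pow_zero, ← Finset.range_eq_Ico] at h2
  rw [div_eq_mul_one_div (Real.exp (-(c' * X)))]
  exact mul_le_mul_of_nonneg_left h2 (Real.exp_pos _).le

/-- the ground cluster above a window of width `h` -/
theorem hit_block : ∃ c C : ℝ, 0 < c ∧ 0 < C ∧ ∀ (N : ℕ) (q : sqLattice.edgeSet → unitInterval),
    1 ≤ N → (∀ e, (q (toE e) : ℝ) = gp N e) → ∀ h : ℕ, 2 ≤ h → D N ≤ h → ∀ a : ℤ,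
    (ilaw q).real {ω | Hit N a h h ω} ≤
      C * Real.exp (-(c * ((h : ℝ) / D N) ^ (7 / 3 : ℝ))) := by
  obtain ⟨c1, C1, hc1, hC1, hs⟩ := sub_cross
  obtain ⟨c', hc'⟩ : ∃ c' : ℝ, c' = c1 / 24 := ⟨_, rfl⟩
  have hc'0 : 0 < c' := by rw [hc']; positivity
  have hr1 : Real.exp (-c') < 1 := Real.exp_lt_one_iff.mpr (by linarith)
  refine ⟨c', 4 * C1 / (1 - Real.exp (-c')), hc'0, div_pos (by positivity) (by linarith), ?_⟩
  intro N q hN hq h hh2 hDh a
  have hN0 : (0 : ℝ) < N := by exact_mod_cast hN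
  have hD := D_pos hN
  obtain ⟨X, hX⟩ : ∃ X : ℝ, X = ((h : ℝ) / D N) ^ (7 / 3 : ℝ) := ⟨_, rfl⟩
  have hX1 : 1 ≤ X := by
    rw [hX]
    exact Real.one_le_rpow (by rw [le_div_iff₀ hD, one_mul]; exact hDh) (by norm_num)
  rw [← hX]
  obtain ⟨m, hm⟩ : ∃ m : ℕ, m = h / 2 := ⟨_, rfl⟩
  have hm1 : 1 ≤ m := by omega
  have hmh : h ≤ 3 * m := by omega
  have hm2 : 2 * m ≤ h := by omega
  obtain ⟨J, hJ⟩ : ∃ J : ℕ, J = N / h := ⟨_, rfl⟩
  have hJh : J * h ≤ N := by rw [hJ]; exact Nat.div_mul_le_self _ _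
  have hJh2 : N < J * h + h := by rw [hJ]; exact Nat.lt_div_mul_add (by omega)
  -- covering
  have hcov : (ilaw q).real {ω | Hit N a h h ω} ≤
      (ilaw q).real (⋃ j ∈ range J, {ω | EV a h m (((j : ℤ) + 1) * h)
        (FF (RE (a - m) (a + h + m) (((j : ℤ) + 1) * h - m) (((j : ℤ) + 1) * h + h + m)) ω)}) := by
    apply real_mono_ae
    filter_upwards [ae_good hN hq] with ω hω
    rintro ⟨v, hv, hv1, hv2, hv3⟩
    have hvN := reach_le hω hv
    obtain ⟨n, hn⟩ : ∃ n : ℕ, (n : ℤ) = v.2 := ⟨v.2.toNat, Int.toNat_of_nonneg (by omega)⟩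
    have hhn : h ≤ n := by omega
    have hnN : n ≤ N := by omega
    obtain ⟨i, hi⟩ : ∃ i : ℕ, i = n / h := ⟨_, rfl⟩
    have hi1 : 1 ≤ i := by rw [hi]; exact Nat.div_pos hhn (by omega)
    have hi2 : i * h ≤ n := by rw [hi]; exact Nat.div_mul_le_self _ _
    have hi3 : n < i * h + h := by rw [hi]; exact Nat.lt_div_mul_add (by omega)
    obtain ⟨j, rfl⟩ : ∃ j, i = j + 1 := ⟨i - 1, by omega⟩
    have hjJ : j < J := by
      by_contra hcon
      have h1 : (J + 1) * h ≤ (j + 1) * h := Nat.mul_le_mul_right _ (by omega)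
      have h2 : (J + 1) * h = J * h + h := by ring
      omega
    rw [Set.mem_iUnion₂]
    refine ⟨j, Finset.mem_range.mpr hjJ, ?_⟩
    have hz1 : ((j : ℤ) + 1) * h ≤ v.2 := by rw [← hn]; exact_mod_cast hi2
    have hz2 : v.2 < ((j : ℤ) + 1) * h + h := by rw [← hn]; exact_mod_cast hi3
    have hz3 : (h : ℤ) ≤ ((j : ℤ) + 1) * h := by
      have h1 : (0 : ℤ) ≤ (j : ℤ) * h := by positivity
      linarith
    have hm' : 2 * (m : ℤ) ≤ h := by exact_mod_cast hm2
    have hm1' : (1 : ℤ) ≤ m := by exact_mod_cast hm1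
    obtain ⟨T, hT⟩ : ∃ T : ℤ, T = ((j : ℤ) + 1) * h := ⟨_, rfl⟩
    show EV a h m (((j : ℤ) + 1) * h)
        (FF (RE (a - m) (a + h + m) (((j : ℤ) + 1) * h - m) (((j : ℤ) + 1) * h + h + m)) ω)
    rw [← hT] at hz1 hz2 hz3 ⊢
    refine esc4 (A := a) (B := a + h) (C := T) (E := T + h) (m := m) (G := opn ω) (u := v)
      (v := (0, -(N : ℤ))) (by omega) ?_ hv.symm ?_ ?_
    · unfold inR; omega
    · right; right; left
      show -(N : ℤ) ≤ T - m
      omega
    · rw [FF_coe]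
  refine hcov.trans ((measureReal_biUnion_finset_le _ _).trans ?_)
  have hterm : ∀ j ∈ range J, (ilaw q).real {ω | EV a h m (((j : ℤ) + 1) * h)
        (FF (RE (a - m) (a + h + m) (((j : ℤ) + 1) * h - m)
          (((j : ℤ) + 1) * h + h + m)) ω)} ≤
      4 * C1 * Real.exp (-(c' * (((j : ℝ) + 1) * X))) := by
    intro j hj
    rw [Finset.mem_range] at hj
    rw [mu_event hq]
    have h1 : ((j : ℤ) + 1) * h ≤ N := by
      have h2 : (j + 1) * h ≤ J * h := Nat.mul_le_mul_right _ hj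
      exact_mod_cast h2.trans hJh
    have hz3 : (h : ℤ) ≤ ((j : ℤ) + 1) * h := by
      have h1 : (0 : ℤ) ≤ (j : ℤ) * h := by positivity
      linarith
    have hm' : 2 * (m : ℤ) ≤ h := by exact_mod_cast hm2
    refine (pr_EV hs hN hm1 hmh (t := ((j : ℤ) + 1) * h) (by omega) h1).trans ?_
    rw [mul_assoc]
    apply mul_le_mul_of_nonneg_left _ (by norm_num)
    apply mul_le_mul_of_nonneg_left _ hC1.le
    apply Real.exp_le_exp.mpr
    have h2 := hit_exp (N := N) hN (h := h) (m := m) (s := ((((j : ℤ) + 1) * h - m : ℤ) : ℝ))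
      (j := j) (by
        rw [div_le_iff₀ (by norm_num)]
        have : (h : ℝ) ≤ 3 * m := by exact_mod_cast hmh
        linarith) (by
        push_cast
        have h3 : 2 * (m : ℝ) ≤ h := by exact_mod_cast hm2
        have h4 : (0 : ℝ) ≤ (j : ℝ) * h := by positivity
        linarith)
    rw [← hX] at h2
    have h3 := mul_le_mul_of_nonneg_left h2 hc1.le
    rw [hc']
    linarith
  refine (Finset.sum_le_sum hterm).trans ?_
  rw [← Finset.mul_sum]
  have h1 := mul_le_mul_of_nonneg_left (geo_sum hc'0 hX1 J) (by positivity : 0 ≤ 4 * C1)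
  refine h1.trans (le_of_eq ?_)
  ring

/-- the ground cluster above a window of any width -/
theorem hit_upper : ∃ c C : ℝ, 0 < c ∧ 0 < C ∧ ∀ (N : ℕ) (q : sqLattice.edgeSet → unitInterval),
    1 ≤ N → 2 ≤ D N → (∀ e, (q (toE e) : ℝ) = gp N e) → ∀ w h : ℕ, D N ≤ w → ∀ a : ℤ,
    (ilaw q).real {ω | Hit N a w h ω} ≤
      C * (w / D N) * Real.exp (-(c * ((h : ℝ) / D N) ^ (7 / 3 : ℝ))) := by
  obtain ⟨c, C, hc, hC, hb⟩ := hit_block
  refine ⟨c, 2 * C + Real.exp c, hc, by positivity, ?_⟩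
  intro N q hN hD2 hq w h hw a
  have hD := D_pos hN
  have hwD : 1 ≤ (w : ℝ) / D N := by rw [le_div_iff₀ hD, one_mul]; exact hw
  obtain ⟨X, hX⟩ : ∃ X : ℝ, X = ((h : ℝ) / D N) ^ (7 / 3 : ℝ) := ⟨_, rfl⟩
  have hXe := Real.exp_pos (-(c * X))
  rcases lt_or_ge (h : ℝ) (D N) with hh | hh
  · have hX1 : X ≤ 1 := by
      rw [hX]
      exact Real.rpow_le_one (by positivity) (by rw [div_le_one hD]; exact hh.le) (by norm_num)
    rw [← hX]
    have h1 : (1 : ℝ) ≤ Real.exp c * Real.exp (-(c * X)) := by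
      rw [← Real.exp_add]
      apply Real.one_le_exp
      nlinarith
    have h2 : (ilaw q).real {ω | Hit N a w h ω} ≤ 1 := measureReal_le_one
    have h3 : Real.exp c * Real.exp (-(c * X)) ≤
        (2 * C + Real.exp c) * (w / D N) * Real.exp (-(c * X)) := by
      apply mul_le_mul_of_nonneg_right _ hXe.le
      have h4 : Real.exp c ≤ 2 * C + Real.exp c := by linarith
      calc Real.exp c ≤ (2 * C + Real.exp c) * 1 := by linarith
        _ ≤ (2 * C + Real.exp c) * (w / D N) :=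
            mul_le_mul_of_nonneg_left hwD (by positivity)
    linarith
  · have hh2 : 2 ≤ h := by
      have : (2 : ℝ) ≤ h := by linarith
      exact_mod_cast this
    obtain ⟨k, hk⟩ : ∃ k : ℕ, k = w / h + 1 := ⟨_, rfl⟩
    have hcov : {ω | Hit N a w h ω} ⊆ ⋃ i ∈ range k, {ω | Hit N (a + i * h) h h ω} := by
      rintro ω ⟨v, hv, hv1, hv2, hv3⟩
      obtain ⟨n, hn⟩ : ∃ n : ℕ, (n : ℤ) = v.1 - a := ⟨(v.1 - a).toNat, Int.toNat_of_nonneg (by omega)⟩
      have hnw : n ≤ w := by omega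
      have h1 : n / h ≤ w / h := Nat.div_le_div_right hnw
      have h2 : n / h * h ≤ n := Nat.div_mul_le_self _ _
      have h3 : n < n / h * h + h := Nat.lt_div_mul_add (by omega)
      rw [Set.mem_iUnion₂]
      refine ⟨n / h, by rw [Finset.mem_range]; omega, v, hv, ?_, ?_, hv3⟩
      · have : (((n / h : ℕ) : ℤ)) * h ≤ n := by exact_mod_cast h2
        linarith
      · have : (n : ℤ) < ((n / h : ℕ) : ℤ) * h + h := by exact_mod_cast h3
        linarith
    have h1 : (ilaw q).real {ω | Hit N a w h ω} ≤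
        ∑ i ∈ range k, (ilaw q).real {ω | Hit N (a + i * h) h h ω} :=
      (measureReal_mono hcov (measure_ne_top _ _)).trans (measureReal_biUnion_finset_le _ _)
    have h2 : ∑ i ∈ range k, (ilaw q).real {ω | Hit N (a + i * h) h h ω} ≤
        ∑ i ∈ range k, C * Real.exp (-(c * X)) :=
      Finset.sum_le_sum fun i _ => by rw [hX]; exact hb N q hN hq h hh2 hh _
    rw [Finset.sum_const, Finset.card_range, nsmul_eq_mul] at h2
    rw [← hX]
    have hk2 : (k : ℝ) ≤ 2 * (w / D N) := by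
      have h3 : ((w / h : ℕ) : ℝ) ≤ (w : ℝ) / h := Nat.cast_div_le
      have h4 : (w : ℝ) / h ≤ w / D N := div_le_div_of_nonneg_left (by positivity) hD hh
      rw [hk]
      push_cast
      linarith
    calc (ilaw q).real {ω | Hit N a w h ω} ≤ k * (C * Real.exp (-(c * X))) := h1.trans h2
      _ ≤ 2 * (w / D N) * (C * Real.exp (-(c * X))) :=
          mul_le_mul_of_nonneg_right hk2 (by positivity)
      _ ≤ (2 * C + Real.exp c) * (w / D N) * Real.exp (-(c * X)) := by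
          have h5 := Real.exp_pos c
          have h6 : 0 ≤ Real.exp c * (w / D N) * Real.exp (-(c * X)) := by positivity
          nlinarith

end law

end Pool.Agent.Y244.GP
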