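import Pool.Agent.W424.NC.Win
import Pool.Agent.Y554.NC.Theta

/-!
Crossing probabilities of homogeneous near-critical percolation, in convenient forms.
-/

set_option autoImplicit false

namespace Pool.Agent.Y244.GP
open Finset H974 Pool.Agent.W424.NC

/-- Crossing the short way below the critical point. -/
theorem sub_cross : ∃ c C : ℝ, 0 < c ∧ 0 < C ∧ ∀ q : ℝ, 0 ≤ q → q ≤ 1 / 2 → ∀ w h : ℕ,
    1 ≤ w → h ≤ 8 * w → hh q w h ≤ C * Real.exp (-(c * (w * (1 / 2 - q) ^ (4 / 3 : ℝ)))) := by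
  obtain ⟨c, C, hc, hC, h1⟩ := win_upper 8 (by norm_num)
  refine ⟨c, C, hc, hC, fun q h0 hq w h hw hh8 => ?_⟩
  refine le_trans ?_ (h1 q h0 hq w (max h w) hw (by omega) (by omega))
  exact hh_mono h0 (by linarith) (by exact_mod_cast hw) le_rfl (by exact_mod_cast le_max_left _ _)

/-- Crossing the long way above the critical point. -/
theorem sup_cross : ∃ c C : ℝ, 0 < c ∧ 0 < C ∧ ∀ q : ℝ, 1 / 2 ≤ q → q ≤ 1 → ∀ w h : ℕ,
    1 ≤ w → 1 ≤ h → w ≤ 8 * h →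
    1 - hh q w h ≤ C * Real.exp (-(c * (h * (q - 1 / 2) ^ (4 / 3 : ℝ)))) := by
  obtain ⟨c, C, hc, hC, h1⟩ := sub_cross
  refine ⟨c, C, hc, hC, fun q h0 hq w h hw hh1 hwh => ?_⟩
  have h2 := hh_dual (q := q) (w := (w : ℤ)) (h := (h : ℤ)) (by exact_mod_cast hw) (by positivity)
  have h3 := h1 (1 - q) (by linarith) (by linarith) (h + 1) (w - 1) (by omega) (by omega)
  have e1 : ((h + 1 : ℕ) : ℤ) = (h : ℤ) + 1 := by push_cast; ring
  have e2 : ((w - 1 : ℕ) : ℤ) = (w : ℤ) - 1 := by omega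
  have e3 : (1 : ℝ) / 2 - (1 - q) = q - 1 / 2 := by ring
  rw [e1, e2, e3] at h3
  have h4 : 1 - hh q w h = hh (1 - q) ((h : ℤ) + 1) ((w : ℤ) - 1) := by linarith
  rw [h4]
  refine h3.trans (mul_le_mul_of_nonneg_left (Real.exp_le_exp.mpr ?_) hC.le)
  have h5 : 0 ≤ (q - 1 / 2) ^ (4 / 3 : ℝ) := Real.rpow_nonneg (by linarith) _
  push_cast
  nlinarith

/-- Crossing of long tubes below the critical point. -/
theorem tube_lower : ∃ c C : ℝ, 0 < c ∧ 0 < C ∧ ∀ q : ℝ, 1 / 4 ≤ q → q ≤ 1 / 2 → ∀ n w : ℕ,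
    1 ≤ n → 1 ≤ w →
    c * Real.exp (-(C * ((n : ℝ) / w + n * (1 / 2 - q) ^ (4 / 3 : ℝ)))) ≤ hh q n w := by
  obtain ⟨κ, a, C, hκ, ha, hC, hG⟩ := nearG
  have hκ2 : κ ≤ 1/2 := by
    obtain ⟨m, -, -, hW, -⟩ := hG (1/2) 1 (by norm_num) le_rfl le_rfl
    exact hW.kle
  obtain ⟨L, hL⟩ : ∃ L : ℝ, L = Real.log (1 / κ) := ⟨_, rfl⟩
  have hL0 : 0 < L := by
    rw [hL]
    apply Real.log_pos
    rw [lt_div_iff₀ hκ]
    linarith
  refine ⟨κ, 2 * L * (1 + C), hκ, by positivity, ?_⟩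
  intro q hq hq1 n w hn hw
  obtain ⟨m, hm, hmw, hW, -, hcase⟩ := hG q w hq hq1 hw
  obtain ⟨H, hH⟩ : ∃ H : ℝ, H = (1 / 2 - q) ^ (4 / 3 : ℝ) := ⟨_, rfl⟩
  have hH0 : 0 ≤ H := by rw [hH]; exact Real.rpow_nonneg (by linarith) _
  rw [← hH] at hcase ⊢
  have hm0 : (0:ℝ) < m := by exact_mod_cast hm
  have hw0 : (0:ℝ) < w := by exact_mod_cast hw
  have hn0 : (0:ℝ) < n := by exact_mod_cast hn
  have h2 := hh_exp (hW.anti (show m ≤ 4 * m by omega)) hm hn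
  rw [← hL] at h2
  have h3 : hh q n m ≤ hh q n w :=
    hh_mono (by linarith) (by linarith) (by exact_mod_cast hn) le_rfl (by exact_mod_cast hmw)
  refine le_trans (mul_le_mul_of_nonneg_left (Real.exp_le_exp.mpr ?_) hκ.le) (h2.trans h3)
  have h4 : (n : ℝ) / m ≤ n / w + C * (n * H) := by
    rcases hcase with h5 | h5
    · rw [h5]
      have : 0 ≤ C * (n * H) := by positivity
      linarith
    · have h6 : (n : ℝ) / m ≤ C * (n * H) := by
        rw [div_le_iff₀ hm0]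
        have := mul_le_mul_of_nonneg_left h5 hn0.le
        linarith
      have : 0 ≤ (n : ℝ) / w := by positivity
      linarith
  have h7 : 0 ≤ (n : ℝ) / w := by positivity
  have h8 : 0 ≤ (n : ℝ) * H := by positivity
  have h9 : (n : ℝ) / m ≤ (1 + C) * (n / w + n * H) := by nlinarith
  have h10 := mul_le_mul_of_nonneg_left h9 (by positivity : 0 ≤ 2 * L)
  nlinarith

/-- Absence of crossings of long tubes above the critical point. -/
theorem tube_lower_dual : ∃ c C : ℝ, 0 < c ∧ 0 < C ∧ ∀ q : ℝ, 1 / 2 ≤ q → q ≤ 3 / 4 → ∀ n w : ℕ,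
    1 ≤ n → 2 ≤ w →
    c * Real.exp (-(C * ((n : ℝ) / w + n * (q - 1 / 2) ^ (4 / 3 : ℝ)))) ≤ 1 - hh q w n := by
  obtain ⟨c, C, hc, hC, h1⟩ := tube_lower
  refine ⟨c, C * 4, hc, by positivity, fun q h0 hq n w hn hw => ?_⟩
  have h2 := hh_dual (q := q) (w := (w : ℤ)) (h := (n : ℤ)) (by omega) (by positivity)
  have h3 := h1 (1 - q) (by linarith) (by linarith) (n + 1) (w - 1) (by omega) (by omega)
  have e1 : ((n + 1 : ℕ) : ℤ) = (n : ℤ) + 1 := by push_cast; ring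
  have e2 : ((w - 1 : ℕ) : ℤ) = (w : ℤ) - 1 := by omega
  have e3 : (1 : ℝ) / 2 - (1 - q) = q - 1 / 2 := by ring
  rw [e1, e2, e3] at h3
  have h4 : 1 - hh q w n = hh (1 - q) ((n : ℤ) + 1) ((w : ℤ) - 1) := by linarith
  rw [h4]
  refine le_trans (mul_le_mul_of_nonneg_left (Real.exp_le_exp.mpr ?_) hc.le) h3
  have h5 : 0 ≤ (q - 1 / 2) ^ (4 / 3 : ℝ) := Real.rpow_nonneg (by linarith) _
  have hn' : (1 : ℝ) ≤ n := by exact_mod_cast hn
  have hw' : (2 : ℝ) ≤ w := by exact_mod_cast hw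
  have e4 : ((w - 1 : ℕ) : ℝ) = (w : ℝ) - 1 := by
    rw [Nat.cast_sub (by omega)]; norm_num
  have e5 : ((n + 1 : ℕ) : ℝ) = (n : ℝ) + 1 := by push_cast; ring
  rw [e4, e5]
  have h6 : ((n : ℝ) + 1) / (w - 1) ≤ 4 * (n / w) := by
    rw [div_le_iff₀ (by linarith), mul_assoc, div_mul_eq_mul_div, ← mul_div_assoc,
      le_div_iff₀ (by linarith)]
    nlinarith
  have h7 : ((n : ℝ) + 1) * (q - 1 / 2) ^ (4 / 3 : ℝ) ≤ 4 * (n * (q - 1 / 2) ^ (4 / 3 : ℝ)) := by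
    nlinarith
  have h8 := mul_le_mul_of_nonneg_left (add_le_add h6 h7) hC.le
  nlinarith

/-- Crossings of wide rectangles the long way above the critical point. -/
theorem wide_cross : ∃ c C : ℝ, 0 < c ∧ 0 < C ∧ ∀ q : ℝ, 1 / 2 ≤ q → q ≤ 1 → ∀ L H : ℕ,
    1 ≤ L → 1 ≤ H →
    1 - hh q L H ≤ C * (1 + (L : ℝ) / H) * Real.exp (-(c * (H * (q - 1 / 2) ^ (4 / 3 : ℝ)))) := by
  obtain ⟨c, C, hc, hC, h1⟩ := sup_cross
  refine ⟨c, 2 * C, hc, by positivity, fun q h0 hq L H hL hH => ?_⟩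
  have hq0 : 0 ≤ q := by linarith
  obtain ⟨j, hj⟩ : ∃ j : ℕ, j = L / (H + 1) := ⟨_, rfl⟩
  have h2 := longj hq0 hq (N := H + 1) (by omega) j
  have h3 := h1 q h0 hq (2 * (H + 1)) H (by omega) hH (by omega)
  have hE : eps q (H + 1) = 1 - hh q ((2 * (H + 1) : ℕ) : ℤ) H := by
    unfold eps
    push_cast
    congr 2
    ring
  rw [← hE] at h3
  have hjL : L < (j + 1) * (H + 1) := by
    have := Nat.lt_div_mul_add (a := L) (b := H + 1) (by omega)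
    rw [hj, add_mul, one_mul]
    exact this
  have h4 : hh q (((j : ℤ) + 2) * ((H + 1 : ℕ) : ℤ)) (((H + 1 : ℕ) : ℤ) - 1) ≤ hh q L H := by
    apply hh_mono hq0 hq (by exact_mod_cast hL)
    · have h5 : L ≤ (j + 2) * (H + 1) := by nlinarith
      exact_mod_cast h5
    · push_cast; linarith
  have h5 : 1 - hh q L H ≤ (2 * (j : ℝ) + 1) * eps q (H + 1) := by linarith
  refine h5.trans ?_
  have hH0 : (0 : ℝ) < H := by exact_mod_cast hH
  have h6 : (j : ℝ) ≤ (L : ℝ) / H := by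
    rw [le_div_iff₀ hH0]
    have h7 : j * H ≤ L := by
      have := Nat.div_mul_le_self L (H + 1)
      rw [← hj] at this
      nlinarith
    exact_mod_cast h7
  have hL0 : (0 : ℝ) ≤ (L : ℝ) / H := by positivity
  have hj0 : (0 : ℝ) ≤ j := by positivity
  have hX := Real.exp_pos (-(c * (H * (q - 1 / 2) ^ (4 / 3 : ℝ))))
  calc (2 * (j : ℝ) + 1) * eps q (H + 1)
      ≤ (2 * (j : ℝ) + 1) * (C * Real.exp (-(c * (H * (q - 1 / 2) ^ (4 / 3 : ℝ))))) :=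
        mul_le_mul_of_nonneg_left h3 (by positivity)
    _ ≤ (2 * (1 + (L : ℝ) / H)) * (C * Real.exp (-(c * (H * (q - 1 / 2) ^ (4 / 3 : ℝ))))) :=
        mul_le_mul_of_nonneg_right (by linarith) (by positivity)
    _ = 2 * C * (1 + (L : ℝ) / H) * Real.exp (-(c * (H * (q - 1 / 2) ^ (4 / 3 : ℝ)))) := by ring

/-- The one-arm event above the critical point. -/
theorem arm_sup : ∃ c : ℝ, 0 < c ∧ ∀ q : ℝ, 1 / 2 < q → q ≤ 1 → ∀ n : ℕ,
    c * (q - 1 / 2) ^ (5 / 36 : ℝ) ≤ arm q n := by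
  obtain ⟨c, hc, h1⟩ := Pool.Agent.Y554.NC.theta_lower'
  refine ⟨c, hc, fun q hq hq1 n => ?_⟩
  have h2 := h1 ⟨q, by linarith, hq1⟩ hq
  exact h2.trans (theta_le_arm _ n)

end Pool.Agent.Y244.GP
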