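import Pool.Agent.Y244.PC.Conf
import Pool.Agent.H974R2.Glue

/-!
Inhomogeneous product measures on the edges of the square lattice; the gradient measure.
-/

set_option autoImplicit false

namespace Pool.Agent.Y244.GP
open Finset MeasureTheory H974 Pool.Agent.H160R2.CV Pool.Agent.Y244.PC

/-- independent edges, the edge `e` is open with probability `q e` -/
noncomputable def ilaw (q : sqLattice.edgeSet → unitInterval) :
    Measure (sqLattice.edgeSet → Bool) :=
  Measure.infinitePi (fun e => ProbabilityTheory.bernoulliMeasure true false (q e))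

instance (q : sqLattice.edgeSet → unitInterval) : IsProbabilityMeasure (ilaw q) := by
  unfold ilaw; infer_instance

theorem ilaw_eq (q : sqLattice.edgeSet → unitInterval) {S T : Finset Edg} (hT : T ⊆ S) :
    (ilaw q).real {ω | FF S ω = T} =
      (∏ e ∈ T, (q (toE e) : ℝ)) * ∏ e ∈ S \ T, (1 - (q (toE e) : ℝ)) := by
  classical
  rw [measureReal_def, FF_eq_pi hT]
  unfold ilaw
  rw [Measure.infinitePi_pi _ (fun _ _ => MeasurableSet.of_discrete), ENNReal.toReal_prod,
    Finset.prod_image (toE_inj.injOn)]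
  have h1 : ∀ e ∈ S, ((ProbabilityTheory.bernoulliMeasure true false (q (toE e)))
      {b : Bool | b = true ↔ toE e ∈ T.image toE}).toReal =
      if e ∈ T then (q (toE e) : ℝ) else 1 - (q (toE e) : ℝ) := by
    intro e _
    by_cases he : e ∈ T
    · rw [if_pos he]
      have hm : toE e ∈ T.image toE := Finset.mem_image_of_mem _ he
      exact ProbabilityTheory.bernoulliMeasure_real_apply_of_mem_of_notMem _
        MeasurableSet.of_discrete (show (true = true ↔ toE e ∈ T.image toE) by simp [hm])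
        (show ¬ (false = true ↔ toE e ∈ T.image toE) by simp [hm])
    · rw [if_neg he]
      have hm : toE e ∉ T.image toE := by
        rw [toE_inj.mem_finset_image]; exact he
      exact ProbabilityTheory.bernoulliMeasure_real_apply_of_notMem_of_mem _
        MeasurableSet.of_discrete (show ¬ (true = true ↔ toE e ∈ T.image toE) by simp [hm])
        (show (false = true ↔ toE e ∈ T.image toE) by simp [hm])
  rw [Finset.prod_congr rfl h1, Finset.prod_ite]
  congr 1
  · apply Finset.prod_congr _ (fun _ _ => rfl)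
    ext e
    simp only [Finset.mem_filter]
    exact ⟨fun h => h.2, fun h => ⟨hT h, h⟩⟩
  · apply Finset.prod_congr _ (fun _ _ => rfl)
    ext e
    simp only [Finset.mem_filter, Finset.mem_sdiff]

theorem ilaw_event (q : sqLattice.edgeSet → unitInterval) (S : Finset Edg)
    (Q : Finset Edg → Prop) :
    (ilaw q).real {ω | Q (FF S ω)} = Pr (fun e => (q (toE e) : ℝ)) S Q := by
  classical
  rw [event_union, measureReal_biUnion_finset]
  · unfold Pr Ex
    rw [Finset.sum_filter]
    apply Finset.sum_congr rfl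
    intro T hT
    show _ = (∏ e ∈ T, (q (toE e) : ℝ)) * (∏ e ∈ S \ T, (1 - (q (toE e) : ℝ))) * ind (Q T)
    split_ifs with hQ
    · rw [ilaw_eq q (Finset.mem_powerset.mp hT), ind_of hQ, mul_one]
    · rw [ind_not_of hQ, mul_zero]
  · intro T _ T' _ hne
    rw [Function.onFun, Set.disjoint_left]
    intro ω h1 h2
    exact hne ((show FF S ω = T from h1).symm.trans (show FF S ω = T' from h2))
  · intro T _
    exact meas_FF S T

theorem ok_q (q : sqLattice.edgeSet → unitInterval) : Ok (fun e : Edg => (q (toE e) : ℝ)) :=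
  fun _ => ⟨(q _).2.1, (q _).2.2⟩

/-- sure edges -/
theorem ae_open (q : sqLattice.edgeSet → unitInterval) :
    ∀ᵐ ω ∂(ilaw q), ∀ e : Edg, (q (toE e) : ℝ) = 1 → ω (toE e) = true := by
  rw [ae_all_iff]
  intro e
  by_cases h : (q (toE e) : ℝ) = 1
  · have h1 := ilaw_event q {e} (fun F => e ∉ F)
    have h2 : Pr (fun e => (q (toE e) : ℝ)) {e} (fun F => e ∉ F) = 0 := by
      unfold Pr Ex
      apply Finset.sum_eq_zero
      intro F hF
      rw [Finset.mem_powerset, Finset.subset_singleton_iff] at hF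
      rcases hF with rfl | rfl
      · show (∏ e ∈ (∅ : Finset Edg), (q (toE e) : ℝ)) *
          (∏ e ∈ {e} \ (∅ : Finset Edg), (1 - (q (toE e) : ℝ))) * _ = 0
        rw [Finset.sdiff_empty, Finset.prod_singleton, h, sub_self, mul_zero, zero_mul]
      · show _ * ind (e ∉ ({e} : Finset Edg)) = 0
        rw [ind_not_of (by simp), mul_zero]
    rw [h2] at h1
    rw [measureReal_eq_zero_iff (measure_ne_top _ _)] at h1
    rw [ae_iff]
    refine measure_mono_null ?_ h1
    intro ω hω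
    simp only [Set.mem_setOf_eq, Classical.not_imp] at hω ⊢
    rw [mem_FF]
    exact fun h3 => hω.2 h3.2
  · exact Filter.Eventually.of_forall fun ω h' => absurd h' h

/-- impossible edges -/
theorem ae_closed (q : sqLattice.edgeSet → unitInterval) :
    ∀ᵐ ω ∂(ilaw q), ∀ e : Edg, (q (toE e) : ℝ) = 0 → ω (toE e) = false := by
  rw [ae_all_iff]
  intro e
  by_cases h : (q (toE e) : ℝ) = 0
  · have h1 := ilaw_event q {e} (fun F => e ∈ F)
    have h2 : Pr (fun e => (q (toE e) : ℝ)) {e} (fun F => e ∈ F) = 0 := by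
      unfold Pr Ex
      apply Finset.sum_eq_zero
      intro F hF
      rw [Finset.mem_powerset, Finset.subset_singleton_iff] at hF
      rcases hF with rfl | rfl
      · show _ * ind (e ∈ (∅ : Finset Edg)) = 0
        rw [ind_not_of (by simp), mul_zero]
      · show (∏ e ∈ ({e} : Finset Edg), (q (toE e) : ℝ)) * _ * _ = 0
        rw [Finset.prod_singleton, h, zero_mul, zero_mul]
    rw [h2] at h1
    rw [measureReal_eq_zero_iff (measure_ne_top _ _)] at h1
    rw [ae_iff]
    refine measure_mono_null ?_ h1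
    intro ω hω
    simp only [Set.mem_setOf_eq, Classical.not_imp] at hω ⊢
    rw [mem_FF]
    exact ⟨Finset.mem_singleton_self _, by simpa using hω.2⟩
  · exact Filter.Eventually.of_forall fun ω h' => absurd h' h

/-- monotonicity in the parameters, local form -/
theorem Pr_mono_on {E : Type*} [DecidableEq E] {p q : E → ℝ} (hp : Ok p) (hq : Ok q)
    {S : Finset E} (h : ∀ e ∈ S, p e ≤ q e) {A : Finset E → Prop} (hA : IncrE S A) :
    Pr p S A ≤ Pr q S A := by
  have h1 : Pr p S A = Pr (fun e => if e ∈ S then p e else q e) S A :=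
    Pr_congr_param (fun e he => by rw [if_pos he]) A
  rw [h1]
  refine Pr_mono_param ?_ hq ?_ hA
  · intro e
    show 0 ≤ (if e ∈ S then p e else q e) ∧ (if e ∈ S then p e else q e) ≤ 1
    split_ifs
    · exact hp e
    · exact hq e
  · intro e
    show (if e ∈ S then p e else q e) ≤ q e
    split_ifs with he
    · exact h e he
    · exact le_rfl

/-- the height of the middle of an edge -/
noncomputable def hgt (e : Edg) : ℝ := if e.2.2 then (e.2.1 : ℝ) else (e.2.1 : ℝ) + 1 / 2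

/-- the gradient -/
noncomputable def gp (N : ℕ) (e : Edg) : ℝ := max 0 (min 1 (1 / 2 - hgt e / (2 * N)))

theorem ok_gp (N : ℕ) : Ok (gp N) := fun _ =>
  ⟨le_max_left _ _, max_le (by norm_num) (min_le_left _ _)⟩

theorem gp_le {N : ℕ} {e : Edg} {q : ℝ} (h0 : 0 ≤ q) (h : 1 / 2 - hgt e / (2 * N) ≤ q) :
    gp N e ≤ q := max_le h0 ((min_le_right _ _).trans h)

theorem le_gp {N : ℕ} {e : Edg} {q : ℝ} (h1 : q ≤ 1) (h : q ≤ 1 / 2 - hgt e / (2 * N)) :
    q ≤ gp N e := (le_min h1 h).trans (le_max_right _ _)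

theorem hgt_RE {a b c d : ℤ} {e : Edg} (he : e ∈ RE a b c d) :
    (c : ℝ) ≤ hgt e ∧ hgt e ≤ d := by
  obtain ⟨x, y, _ | _⟩ := e
  · rw [mem_RE_false] at he
    have h1 : (c : ℝ) ≤ y := by exact_mod_cast he.2.2.1
    have h2 : (y : ℝ) + 1 ≤ d := by exact_mod_cast (by omega : y + 1 ≤ d)
    unfold hgt
    simp only [Bool.false_eq_true, if_false]
    constructor <;> linarith
  · rw [mem_RE_true] at he
    have h1 : (c : ℝ) ≤ y := by exact_mod_cast he.2.2.1
    have h2 : (y : ℝ) ≤ d := by exact_mod_cast he.2.2.2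
    unfold hgt
    simp only [if_true]
    exact ⟨h1, h2⟩

theorem gp_up {N : ℕ} (hN : 1 ≤ N) {a b c d : ℤ} {q : ℝ} (h0 : 0 ≤ q)
    (h : 1 / 2 - (c : ℝ) / (2 * N) ≤ q) {e : Edg} (he : e ∈ RE a b c d) : gp N e ≤ q := by
  apply gp_le h0
  have hN' : (0 : ℝ) < 2 * N := by
    have : (1 : ℝ) ≤ N := by exact_mod_cast hN
    linarith
  have h1 := div_le_div_of_nonneg_right (hgt_RE he).1 hN'.le
  linarith

theorem gp_dn {N : ℕ} (hN : 1 ≤ N) {a b c d : ℤ} {q : ℝ} (h1 : q ≤ 1)
    (h : q ≤ 1 / 2 - (d : ℝ) / (2 * N)) {e : Edg} (he : e ∈ RE a b c d) : q ≤ gp N e := by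
  apply le_gp h1
  have hN' : (0 : ℝ) < 2 * N := by
    have : (1 : ℝ) ≤ N := by exact_mod_cast hN
    linarith
  have h1 := div_le_div_of_nonneg_right (hgt_RE he).2 hN'.le
  linarith

section cross

variable {N : ℕ} {a b c d : ℤ} {q : ℝ} {S : Finset Edg}

theorem LR_le (hN : 1 ≤ N) (h0 : 0 ≤ q) (h1 : q ≤ 1) (h : 1 / 2 - (c : ℝ) / (2 * N) ≤ q)
    (hS : LRE a b c d ⊆ S) : Pr (gp N) S (LRc a b c d) ≤ hh q (b - a) (d - c) := by
  have e1 : Pr (gp N) S (LRc a b c d) = Pr (gp N) (LRE a b c d) (LRc a b c d) :=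
    Pr_local hS (fun F _ => LRc_local (Finset.Subset.refl _))
  rw [e1, ← pr_LRc q (Finset.Subset.refl (LRE a b c d))]
  exact Pr_mono_on (ok_gp N) (okq h0 h1)
    (fun e he => gp_up hN h0 h (LRE_subset_RE he)) (LRc_incr _ _ _ _ _)

theorem le_LR (hN : 1 ≤ N) (h0 : 0 ≤ q) (h1 : q ≤ 1) (h : q ≤ 1 / 2 - (d : ℝ) / (2 * N))
    (hS : LRE a b c d ⊆ S) : hh q (b - a) (d - c) ≤ Pr (gp N) S (LRc a b c d) := by
  have e1 : Pr (gp N) S (LRc a b c d) = Pr (gp N) (LRE a b c d) (LRc a b c d) :=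
    Pr_local hS (fun F _ => LRc_local (Finset.Subset.refl _))
  rw [e1, ← pr_LRc q (Finset.Subset.refl (LRE a b c d))]
  exact Pr_mono_on (okq h0 h1) (ok_gp N)
    (fun e he => gp_dn hN h1 h (LRE_subset_RE he)) (LRc_incr _ _ _ _ _)

theorem TB_le (hN : 1 ≤ N) (h0 : 0 ≤ q) (h1 : q ≤ 1) (h : 1 / 2 - (c : ℝ) / (2 * N) ≤ q)
    (hS : TBE a b c d ⊆ S) : Pr (gp N) S (TBc a b c d) ≤ hh q (d - c) (b - a) := by
  have e1 : Pr (gp N) S (TBc a b c d) = Pr (gp N) (TBE a b c d) (TBc a b c d) :=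
    Pr_local hS (fun F _ => TBc_local (Finset.Subset.refl _))
  rw [e1, ← pr_TBc q (Finset.Subset.refl (TBE a b c d))]
  exact Pr_mono_on (ok_gp N) (okq h0 h1)
    (fun e he => gp_up hN h0 h (TBE_subset_RE he)) (TBc_incr _ _ _ _ _)

theorem le_TB (hN : 1 ≤ N) (h0 : 0 ≤ q) (h1 : q ≤ 1) (h : q ≤ 1 / 2 - (d : ℝ) / (2 * N))
    (hS : TBE a b c d ⊆ S) : hh q (d - c) (b - a) ≤ Pr (gp N) S (TBc a b c d) := by
  have e1 : Pr (gp N) S (TBc a b c d) = Pr (gp N) (TBE a b c d) (TBc a b c d) :=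
    Pr_local hS (fun F _ => TBc_local (Finset.Subset.refl _))
  rw [e1, ← pr_TBc q (Finset.Subset.refl (TBE a b c d))]
  exact Pr_mono_on (okq h0 h1) (ok_gp N)
    (fun e he => gp_dn hN h1 h (TBE_subset_RE he)) (TBc_incr _ _ _ _ _)

end cross

end Pool.Agent.Y244.GP
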