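import Pool.Agent.Y244.GP.Bridge

/-!
The density profile of the ground cluster.
-/

set_option autoImplicit false

namespace Pool.Agent.Y244.GP
open Finset MeasureTheory H974 Pool.Agent.H160R2.CV Pool.Agent.H160R2.CV.Quad Pool.Agent.Y244.PC

/-- an arm from `v` to distance `n` -/
def AV (v : Vtx) (n : ℕ) (F : Finset Edg) : Prop := Arm n (sh v F)

/-- a circuit around `v` -/
def CiV (v : Vtx) (r : ℕ) (F : Finset Edg) : Prop := Circ r (3 * r : ℕ) (sh v F)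

theorem AV_incr (S : Finset Edg) (v : Vtx) (n : ℕ) : IncrE S (AV v n) :=
  fun _ _ h _ hF => Arm.mono (sh_mono h) hF

theorem CiV_incr (S : Finset Edg) (v : Vtx) (r : ℕ) : IncrE S (CiV v r) :=
  fun _ _ h _ hF => Circ.mono (sh_mono h) hF

theorem AV_local {v : Vtx} {n : ℕ} {F : Finset Edg} : AV v n F ↔ AV v n (F ∩ bo v n) := by
  unfold AV
  rw [sh_inter, sh_bo]
  exact Arm_local (Finset.Subset.refl _)

theorem pr_shq (q : ℝ) (z : Vtx) (S : Finset Edg) (A : Finset Edg → Prop) :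
    Pr (fun _ => q) S (fun F => A (sh z F)) = Pr (fun _ => q) (sh z S) A :=
  (LSym.pr (trl (-z.1) (-z.2)) q S A).symm

theorem pr_AV (q : ℝ) (v : Vtx) (n : ℕ) : Pr (fun _ => q) (bo v n) (AV v n) = arm q n := by
  have h := pr_shq q v (bo v n) (Arm n)
  rw [sh_bo] at h
  exact h

theorem Circ_local {r : ℕ} {F : Finset Edg} :
    Circ r (3 * r : ℕ) F ↔ Circ r (3 * r : ℕ) (F ∩ boxE (3 * r)) := by
  unfold Circ
  have hr : (0 : ℤ) ≤ r := by positivity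
  have e : boxE (3 * r) = RE (-((3 * r : ℕ) : ℤ)) ((3 * r : ℕ) : ℤ) (-((3 * r : ℕ) : ℤ))
    ((3 * r : ℕ) : ℤ) := rfl
  rw [e]
  rw [← LRc_local, ← LRc_local, ← TBc_local, ← TBc_local]
  · exact TBE_subset_RE.trans (RE_subset le_rfl (by omega) le_rfl le_rfl)
  · exact TBE_subset_RE.trans (RE_subset (by omega) le_rfl le_rfl le_rfl)
  · exact LRE_subset_RE.trans (RE_subset le_rfl le_rfl le_rfl (by omega))
  · exact LRE_subset_RE.trans (RE_subset le_rfl le_rfl (by omega) le_rfl)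

theorem CiV_local {v : Vtx} {r : ℕ} {F : Finset Edg} :
    CiV v r F ↔ CiV v r (F ∩ bo v (3 * r)) := by
  unfold CiV
  rw [sh_inter, sh_bo]
  exact Circ_local

theorem pr_CiV {q : ℝ} (h0 : 0 ≤ q) (h1 : q ≤ 1) (v : Vtx) (r : ℕ) :
    (hh q (6 * (r : ℤ)) (2 * r)) ^ 4 ≤ Pr (fun _ => q) (bo v (3 * r)) (CiV v r) := by
  have h := pr_shq q v (bo v (3 * r)) (Circ r (3 * r : ℕ))
  rw [sh_bo] at h
  have e : Pr (fun _ => q) (bo v (3 * r)) (CiV v r) =
    Pr (fun _ => q) (bo v (3 * r)) (fun F => Circ r (3 * r : ℕ) (sh v F)) := rfl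
  rw [e, h]
  have h2 := pr_Circ h0 h1 (R1 := r) (R2 := ((3 * r : ℕ) : ℤ)) (by positivity)
    (by push_cast; linarith [(by positivity : (0 : ℤ) ≤ r)]) (S := boxE (3 * r))
    (by unfold boxE; exact Finset.Subset.refl _)
  have e1 : 2 * ((3 * r : ℕ) : ℤ) = 6 * (r : ℤ) := by push_cast; ring
  have e2 : ((3 * r : ℕ) : ℤ) - (r : ℤ) = 2 * r := by push_cast; ring
  rw [e1, e2] at h2
  exact h2

section law

variable {N : ℕ} {q : sqLattice.edgeSet → unitInterval}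

/-- upper bound by the one-arm event -/
theorem prof_up (hN : 1 ≤ N) (hq : ∀ e, (q (toE e) : ℝ) = gp N e) {v : Vtx} {n : ℕ}
    (hn : (n : ℤ) ≤ v.2 + N) {p : ℝ} (h0 : 0 ≤ p) (h1 : p ≤ 1)
    (hp : 1 / 2 - ((v.2 - n : ℤ) : ℝ) / (2 * N) ≤ p) :
    (ilaw q).real {ω | Reach (opn ω) (0, -(N : ℤ)) v} ≤ arm p n := by
  have h2 : (ilaw q).real {ω | Reach (opn ω) (0, -(N : ℤ)) v} ≤
      (ilaw q).real {ω | AV v n (FF (bo v n) ω)} := by
    refine measureReal_mono ?_ (measure_ne_top _ _)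
    intro ω hω
    obtain ⟨w, k1, k2, k3⟩ := first_exit (G := opn ω) (a := v.1 - n) (b := v.1 + n)
      (c := v.2 - n) (d := v.2 + n) (u := v) (v := (0, -(N : ℤ)))
      (by unfold inR; omega) hω.symm (by
        right; right; left
        show -(N : ℤ) ≤ v.2 - n
        omega)
    refine ⟨w - v, ?_, ?_⟩
    · unfold onB inR at *
      simp only [Prod.fst_sub, Prod.snd_sub]
      omega
    · rw [sh_reach_box]
      have e1 : ((0, 0) : Vtx) + v = v := by simp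
      rw [e1, sub_add_cancel, FF_coe]
      refine k3.mono ?_
      rintro e ⟨he1, he2⟩
      exact ⟨⟨he1, he2⟩, he2⟩
  refine h2.trans ?_
  rw [mu_event hq (bo v n) (AV v n), ← pr_AV p v n]
  exact Pr_mono_on (ok_gp N) (okq h0 h1) (fun e he => gp_up hN h0 hp he) (AV_incr _ _ _)

/-- the connection of `v` to the ground -/
theorem conn_det {ω : sqLattice.edgeSet → Bool} (hω : Good N ω) {v : Vtx} {r : ℕ} (hr : 1 ≤ r)
    (hv : -(N : ℤ) ≤ v.2 - 3 * r) {S : Finset Edg} (h1 : AV v (3 * r) (FF S ω))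
    (h2 : CiV v r (FF S ω)) (h3 : TBc (v.1 - r) (v.1 + r) (-(N : ℤ)) v.2 (FF S ω)) :
    Reach (opn ω) (0, -(N : ℤ)) v := by
  have hr' : (1 : ℤ) ≤ r := by exact_mod_cast hr
  have hsubF : (↑(FF S ω) : Set Edg) ⊆ opn ω := by
    rw [FF_coe]; exact Set.inter_subset_left
  obtain ⟨z, hz⟩ := circ_meet (F := sh v (FF S ω)) (R1 := r) (R2 := ((3 * r : ℕ) : ℤ))
    (by omega) (by push_cast; omega) h2
  obtain ⟨w0, hw0, hr0⟩ := h1
  have a1 := hz (0, 0) w0 (by unfold inR; simp) (by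
    unfold onB at hw0
    push_cast at hw0 ⊢
    tauto) hr0
  obtain ⟨x, x', hx, hx', hP⟩ := h3
  obtain ⟨w, k1, k2, k3⟩ := first_exit (a := v.1 - (3 * r : ℕ)) (b := v.1 + (3 * r : ℕ))
    (c := v.2 - (3 * r : ℕ)) (d := v.2 + (3 * r : ℕ)) (u := (x', v.2)) (v := (x, -(N : ℤ)))
    (by unfold inR; push_cast; omega) hP.symm (by
        right; right; left
        show -(N : ℤ) ≤ v.2 - (3 * r : ℕ)
        push_cast
        omega)
  have k3' : Reach (↑(FF S ω) ∩ ↑(bo v (3 * r))) (x', v.2) w := by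
    refine k3.mono ?_
    rintro e ⟨⟨he1, -⟩, he2⟩
    exact ⟨he1, he2⟩
  have k4 : Reach (↑(sh v (FF S ω)) ∩ ↑(boxE (3 * r))) (x' - v.1, 0) (w - v) := by
    rw [sh_reach_box, sub_add_cancel]
    have e1 : ((x' - v.1, 0) : Vtx) + v = (x', v.2) := by
      ext
      · simp
      · simp
    rw [e1]
    exact k3'
  have a2 := hz (x' - v.1, 0) (w - v) (by unfold inR; simp only; omega) (by
    simp only [Prod.fst_sub, Prod.snd_sub]
    omega) k4
  have a3 : Reach (↑(sh v (FF S ω)) ∩ ↑(boxE (3 * r))) (0, 0) (x' - v.1, 0) :=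
    Reach.trans a1 a2.symm
  rw [sh_reach_box] at a3
  have e1 : ((x' - v.1, 0) : Vtx) + v = (x', v.2) := by
    ext
    · simp
    · simp
  have e2 : ((0, 0) : Vtx) + v = v := by simp
  rw [e1, e2] at a3
  have b1 : Reach (opn ω) v (x', v.2) := a3.mono (Set.inter_subset_left.trans hsubF)
  have b2 : Reach (opn ω) (x, -(N : ℤ)) (x', v.2) := hP.mono (Set.inter_subset_left.trans hsubF)
  exact (ground_line hω x).trans (b2.trans b1.symm)

theorem prof_low (hN : 1 ≤ N) (hq : ∀ e, (q (toE e) : ℝ) = gp N e) {v : Vtx} {r : ℕ}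
    (hr : 1 ≤ r) (hv : -(N : ℤ) ≤ v.2 - 3 * r) {p : ℝ} (h0 : 0 ≤ p) (h1 : p ≤ 1)
    (hp : p ≤ 1 / 2 - ((v.2 + (3 * r : ℕ) : ℤ) : ℝ) / (2 * N)) :
    arm p (3 * r) * (hh p (6 * (r : ℤ)) (2 * r)) ^ 4 * gTB N (v.1 - r) (v.1 + r) (-(N : ℤ)) v.2 ≤
      (ilaw q).real {ω | Reach (opn ω) (0, -(N : ℤ)) v} := by
  have hr' : (1 : ℤ) ≤ r := by exact_mod_cast hr
  obtain ⟨S, hS⟩ : ∃ S : Finset Edg, S = RE (v.1 - (3 * r : ℕ)) (v.1 + (3 * r : ℕ)) (-(N : ℤ))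
    (v.2 + (3 * r : ℕ)) := ⟨_, rfl⟩
  have s1 : bo v (3 * r) ⊆ S := by
    rw [hS]; unfold bo; exact RE_subset le_rfl le_rfl (by push_cast; omega) le_rfl
  have s2 : TBE (v.1 - r) (v.1 + r) (-(N : ℤ)) v.2 ⊆ S := by
    rw [hS]
    exact TBE_subset_RE.trans (RE_subset (by push_cast; omega) (by push_cast; omega) le_rfl
      (by push_cast; omega))
  have h2 : (ilaw q).real {ω | (AV v (3 * r) (FF S ω) ∧ CiV v r (FF S ω)) ∧
      TBc (v.1 - r) (v.1 + r) (-(N : ℤ)) v.2 (FF S ω)} ≤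
      (ilaw q).real {ω | Reach (opn ω) (0, -(N : ℤ)) v} := by
    apply real_mono_ae
    filter_upwards [ae_good hN hq] with ω hω
    rintro ⟨⟨k1, k2⟩, k3⟩
    exact conn_det hω hr hv k1 k2 k3
  refine le_trans ?_ h2
  rw [mu_event hq S (fun F => (AV v (3 * r) F ∧ CiV v r F) ∧
    TBc (v.1 - r) (v.1 + r) (-(N : ℤ)) v.2 F)]
  have i1 := Pr_harris (ok_gp N) (AV_incr S v (3 * r)) (CiV_incr S v r)
  have i2 := Pr_harris (ok_gp N) (A := fun F => AV v (3 * r) F ∧ CiV v r F) (S := S)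
    (fun F G h1 h2 h3 => ⟨AV_incr S v (3 * r) F G h1 h2 h3.1, CiV_incr S v r F G h1 h2 h3.2⟩)
    (TBc_incr S (v.1 - r) (v.1 + r) (-(N : ℤ)) v.2)
  rw [pr_gTB s2] at i2
  have p1 : arm p (3 * r) ≤ Pr (gp N) S (AV v (3 * r)) := by
    have e : Pr (gp N) S (AV v (3 * r)) = Pr (gp N) (bo v (3 * r)) (AV v (3 * r)) :=
      Pr_local s1 (fun F _ => AV_local)
    rw [e, ← pr_AV p v (3 * r)]
    exact Pr_mono_on (okq h0 h1) (ok_gp N) (fun e he => gp_dn hN h1 hp he) (AV_incr _ _ _)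
  have p2 : (hh p (6 * (r : ℤ)) (2 * r)) ^ 4 ≤ Pr (gp N) S (CiV v r) := by
    have e : Pr (gp N) S (CiV v r) = Pr (gp N) (bo v (3 * r)) (CiV v r) :=
      Pr_local s1 (fun F _ => CiV_local)
    rw [e]
    refine (pr_CiV h0 h1 v r).trans ?_
    exact Pr_mono_on (okq h0 h1) (ok_gp N) (fun e he => gp_dn hN h1 hp he) (CiV_incr _ _ _)
  have hhn := hh_nonneg h0 h1 (6 * (r : ℤ)) (2 * r)
  have harm := arm_nonneg h0 h1 (3 * r)
  calc arm p (3 * r) * (hh p (6 * (r : ℤ)) (2 * r)) ^ 4 *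
        gTB N (v.1 - r) (v.1 + r) (-(N : ℤ)) v.2
      ≤ (Pr (gp N) S (AV v (3 * r)) * Pr (gp N) S (CiV v r)) *
        gTB N (v.1 - r) (v.1 + r) (-(N : ℤ)) v.2 :=
        mul_le_mul_of_nonneg_right
          (mul_le_mul p1 p2 (by positivity) (Pr_nonneg (ok_gp N) _ _)) gTB_nonneg
    _ ≤ _ := (mul_le_mul_of_nonneg_right i1 gTB_nonneg).trans i2

end law

end Pool.Agent.Y244.GP
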