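import Pool.Agent.Y244.GP.Prof

/-!
The density profile of the ground cluster: the four regimes.
-/

set_option autoImplicit false

namespace Pool.Agent.Y244.GP
open Finset MeasureTheory H974 Pool.Agent.H160R2.CV Pool.Agent.H160R2.CV.Quad Pool.Agent.Y244.PC
open Pool.Agent.W424.NC

theorem D_div {N : ℕ} (hN : 1 ≤ N) : D N / N = (N : ℝ) ^ (-(3 / 7) : ℝ) := by
  have hN0 : (0 : ℝ) < N := by exact_mod_cast hN
  unfold D
  conv_lhs => rw [← Real.rpow_one (N : ℝ), ← Real.rpow_mul hN0.le, ← Real.rpow_sub hN0]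
  norm_num

theorem D_pow {N : ℕ} (hN : 1 ≤ N) : (D N) ^ (-(5 / 48) : ℝ) = (N : ℝ) ^ (-(5 / 84) : ℝ) := by
  have hN0 : (0 : ℝ) < N := by exact_mod_cast hN
  unfold D
  rw [← Real.rpow_mul hN0.le]
  norm_num

theorem s_pow {N : ℕ} (hN : 1 ≤ N) :
    ((N : ℝ) ^ (-(3 / 7) : ℝ)) ^ (5 / 36 : ℝ) = (N : ℝ) ^ (-(5 / 84) : ℝ) := by
  have hN0 : (0 : ℝ) < N := by exact_mod_cast hN
  rw [← Real.rpow_mul hN0.le]
  norm_num

theorem D_le {N : ℕ} (hN : 1 ≤ N) : D N ≤ N := by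
  unfold D
  have h1 : (1 : ℝ) ≤ N := by exact_mod_cast hN
  have := Real.rpow_le_rpow_of_exponent_le h1 (show (4 / 7 : ℝ) ≤ 1 by norm_num)
  rwa [Real.rpow_one] at this

/-- the event that `v` belongs to the ground cluster -/
def Gr (N : ℕ) (v : Vtx) : Set (sqLattice.edgeSet → Bool) := {ω | Reach (opn ω) (0, -(N : ℤ)) v}

theorem prof_up_high : ∃ c C : ℝ, 0 < c ∧ 0 < C ∧
    ∀ (N : ℕ) (q : sqLattice.edgeSet → unitInterval), 1 ≤ N → 2 ≤ D N →
    (∀ e, (q (toE e) : ℝ) = gp N e) → ∀ (v : Vtx) (y : ℕ), v.2 = y → D N ≤ y →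
    (ilaw q).real (Gr N v) ≤ C * (N : ℝ) ^ (-(5 / 84) : ℝ) *
      Real.exp (-(c * ((y : ℝ) / D N) ^ (7 / 3 : ℝ))) := by
  obtain ⟨c1, C1, hc1, hC1, harm⟩ := arm_upper
  refine ⟨c1 / 24, C1 * 2, by positivity, by positivity, ?_⟩
  intro N q hN hD2 hq v y hv hy
  have hN0 : (0 : ℝ) < N := by exact_mod_cast hN
  have hD := D_pos hN
  have hpow : 0 < (N : ℝ) ^ (-(5 / 84) : ℝ) := Real.rpow_pos_of_pos hN0 _
  rcases lt_or_ge N y with hyN | hyN
  · have h1 : (ilaw q).real (Gr N v) ≤ (ilaw q).real ∅ := by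
      apply real_mono_ae
      filter_upwards [ae_good hN hq] with ω hω hr
      have := reach_le hω hr
      omega
    rw [measureReal_empty] at h1
    refine h1.trans ?_
    positivity
  · have hy2 : 2 ≤ y := by
      have : (2 : ℝ) ≤ y := by linarith
      exact_mod_cast this
    obtain ⟨n, hn⟩ : ∃ n : ℕ, n = y / 2 := ⟨_, rfl⟩
    have hn1 : 1 ≤ n := by omega
    have hyN' : (y : ℝ) ≤ N := by exact_mod_cast hyN
    have hq4 : (y : ℝ) / 2 / (2 * N) ≤ 1 / 4 := by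
      rw [div_div, div_le_iff₀ (by positivity)]
      linarith
    have hq0 : 0 ≤ (y : ℝ) / 2 / (2 * N) := by positivity
    have h1 := prof_up hN hq (v := v) (n := n) (by omega) (p := 1 / 2 - (y : ℝ) / 2 / (2 * N))
      (by linarith) (by linarith) (by
        have h2 : (y : ℝ) / 2 / (2 * N) ≤ ((v.2 - n : ℤ) : ℝ) / (2 * N) := by
          apply div_le_div_of_nonneg_right _ (by positivity)
          rw [hv]
          push_cast
          have h3 : 2 * n ≤ y := by omega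
          have h4 : 2 * (n : ℝ) ≤ y := by exact_mod_cast h3
          linarith
        linarith)
    have h2 := harm (1 / 2 - (y : ℝ) / 2 / (2 * N)) (by linarith) (by linarith) n hn1
    have e1 : (1 : ℝ) / 2 - (1 / 2 - (y : ℝ) / 2 / (2 * N)) = (y : ℝ) / 2 / (2 * N) := by ring
    rw [e1] at h2
    have hn3 : (y : ℝ) / 3 ≤ n := by
      rw [div_le_iff₀ (by norm_num)]
      have : y ≤ n * 3 := by omega
      exact_mod_cast this
    have h3 := hit_exp (N := N) hN (h := y) (m := n) (s := (y : ℝ) / 2) (j := 0) hn3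
      (by push_cast; linarith)
    have h4 : (n : ℝ) ^ (-(5 / 48) : ℝ) ≤ 2 * (N : ℝ) ^ (-(5 / 84) : ℝ) := by
      rw [← D_pow hN]
      have h5 : D N * (1 / 3) ≤ n := by linarith
      calc (n : ℝ) ^ (-(5 / 48) : ℝ) ≤ (D N * (1 / 3)) ^ (-(5 / 48) : ℝ) :=
            Real.rpow_le_rpow_of_nonpos (by positivity) h5 (by norm_num)
        _ = (D N) ^ (-(5 / 48) : ℝ) * (1 / 3) ^ (-(5 / 48) : ℝ) :=
            Real.mul_rpow hD.le (by norm_num)
        _ ≤ (D N) ^ (-(5 / 48) : ℝ) * 2 := by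
            apply mul_le_mul_of_nonneg_left _ (Real.rpow_nonneg hD.le _)
            rw [Real.rpow_neg (by norm_num), ← Real.inv_rpow (by norm_num)]
            have h6 : ((1 / 3 : ℝ)⁻¹) ^ (5 / 48 : ℝ) ≤ (4 : ℝ) ^ (1 / 2 : ℝ) := by
              calc ((1 / 3 : ℝ)⁻¹) ^ (5 / 48 : ℝ) ≤ (4 : ℝ) ^ (5 / 48 : ℝ) :=
                    Real.rpow_le_rpow (by norm_num) (by norm_num) (by norm_num)
                _ ≤ (4 : ℝ) ^ (1 / 2 : ℝ) :=
                    Real.rpow_le_rpow_of_exponent_le (by norm_num) (by norm_num)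
            have h7 : (4 : ℝ) ^ (1 / 2 : ℝ) = 2 := by
              have : (4 : ℝ) = 2 ^ (2 : ℝ) := by norm_num
              rw [this, ← Real.rpow_mul (by norm_num)]
              norm_num
            rw [h7] at h6
            exact h6
        _ = 2 * (D N) ^ (-(5 / 48) : ℝ) := by ring
    have h5 : Real.exp (-(c1 * (n * ((y : ℝ) / 2 / (2 * N)) ^ (4 / 3 : ℝ)))) ≤
        Real.exp (-(c1 / 24 * ((y : ℝ) / D N) ^ (7 / 3 : ℝ))) := by
      apply Real.exp_le_exp.mpr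
      have := mul_le_mul_of_nonneg_left h3 hc1.le
      push_cast at this
      linarith
    calc (ilaw q).real (Gr N v)
        ≤ C1 * (n : ℝ) ^ (-(5 / 48) : ℝ) *
          Real.exp (-(c1 * (n * ((y : ℝ) / 2 / (2 * N)) ^ (4 / 3 : ℝ)))) := h1.trans h2
      _ ≤ C1 * (2 * (N : ℝ) ^ (-(5 / 84) : ℝ)) *
          Real.exp (-(c1 / 24 * ((y : ℝ) / D N) ^ (7 / 3 : ℝ))) :=
          mul_le_mul (mul_le_mul_of_nonneg_left h4 hC1.le) h5 (Real.exp_pos _).le (by positivity)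
      _ = _ := by ring

theorem prof_up_low : ∃ C : ℝ, 0 < C ∧
    ∀ (N : ℕ) (q : sqLattice.edgeSet → unitInterval), 1 ≤ N →
    (∀ e, (q (toE e) : ℝ) = gp N e) → ∀ v : Vtx, -(N : ℤ) ≤ 2 * v.2 → (v.2 : ℝ) ≤ D N →
    ∀ s : ℝ, s = max (|(v.2 : ℝ)| / N) ((N : ℝ) ^ (-(3 / 7) : ℝ)) →
    (ilaw q).real (Gr N v) ≤ C * s ^ (5 / 36 : ℝ) := by
  obtain ⟨κ, b, hκ, hb, hst⟩ := armS
  obtain ⟨cc, C, hcc, hC, harm⟩ := Pool.Agent.W424.NC.arm_crit
  obtain ⟨β, hβd⟩ : ∃ β : ℝ, β = min b (1 / 2) := ⟨_, rfl⟩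
  have hβ : 0 < β := by rw [hβd]; exact lt_min hb (by norm_num)
  have hβb : β ≤ b := by rw [hβd]; exact min_le_left _ _
  have hβ2 : β ≤ 1 / 2 := by rw [hβd]; exact min_le_right _ _
  have hb36 : 0 < β ^ (-(5 / 36) : ℝ) := Real.rpow_pos_of_pos hβ _
  refine ⟨3 * (C * ((2 : ℝ) ^ (5 / 48 : ℝ) * β ^ (-(5 / 36) : ℝ))) + β ^ (-(5 / 36) : ℝ),
    by positivity, ?_⟩
  intro N q hN hq v hv1 hv2 s hs
  have hN0 : (0 : ℝ) < N := by exact_mod_cast hN
  have hD := D_pos hN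
  have hsN : D N / N ≤ s := by rw [hs, D_div hN]; exact le_max_right _ _
  have hs0 : 0 < s := lt_of_lt_of_le (by positivity) hsN
  have hsv : |(v.2 : ℝ)| / N ≤ s := by rw [hs]; exact le_max_left _ _
  have hse : 0 < s ^ (5 / 36 : ℝ) := Real.rpow_pos_of_pos hs0 _
  rcases lt_or_ge β s with hbs | hbs
  · have h2 : β ^ (5 / 36 : ℝ) ≤ s ^ (5 / 36 : ℝ) :=
      Real.rpow_le_rpow hβ.le hbs.le (by norm_num)
    have h3 : 1 ≤ β ^ (-(5 / 36) : ℝ) * s ^ (5 / 36 : ℝ) := by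
      rw [Real.rpow_neg hβ.le, ← div_eq_inv_mul, le_div_iff₀ (Real.rpow_pos_of_pos hβ _), one_mul]
      exact h2
    calc (ilaw q).real (Gr N v) ≤ 1 := measureReal_le_one
      _ ≤ β ^ (-(5 / 36) : ℝ) * s ^ (5 / 36 : ℝ) := h3
      _ ≤ _ := by
          apply mul_le_mul_of_nonneg_right _ hse.le
          have : 0 < 3 * (C * ((2 : ℝ) ^ (5 / 48 : ℝ) * β ^ (-(5 / 36) : ℝ))) := by positivity
          linarith
  · obtain ⟨n, hn1, hwin, hnx, hxn⟩ := Pool.Agent.Y554.NC.scale_exists hβ hs0 hbs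
    have hn0 : (0 : ℝ) < n := by exact_mod_cast hn1
    have hx0 : 0 < (β / s) ^ (4 / 3 : ℝ) := by positivity
    have hnD : (n : ℝ) ≤ D N / 2 := by
      have h1 : (β / s) ^ (4 / 3 : ℝ) ≤ (1 / 2 * (N / D N)) ^ (4 / 3 : ℝ) := by
        apply Real.rpow_le_rpow (by positivity) _ (by norm_num)
        rw [div_le_iff₀ hs0]
        have h2 : 1 ≤ N / D N * s := by
          rw [div_mul_eq_mul_div, le_div_iff₀ hD, one_mul]
          rw [div_le_iff₀ hN0] at hsN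
          linarith
        nlinarith
      have h2 : (1 / 2 * (N / D N)) ^ (4 / 3 : ℝ) ≤ D N / 2 := by
        rw [Real.mul_rpow (by norm_num) (by positivity)]
        have h3 : ((N : ℝ) / D N) ^ (4 / 3 : ℝ) = D N := by
          rw [← inv_div, D_div hN, Real.inv_rpow (by positivity), ← Real.rpow_mul hN0.le,
            ← Real.rpow_neg hN0.le]
          unfold D
          norm_num
        have h4 : (1 / 2 : ℝ) ^ (4 / 3 : ℝ) ≤ 1 / 2 := by
          have := Real.rpow_le_rpow_of_exponent_ge (x := (1 / 2 : ℝ)) (by norm_num) (by norm_num)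
            (show (1 : ℝ) ≤ 4 / 3 by norm_num)
          rwa [Real.rpow_one] at this
        rw [h3]
        nlinarith
      linarith
    have hDN := D_le hN
    have hcond : (n : ℤ) ≤ v.2 + N := by
      have h1 : -(N : ℝ) ≤ 2 * v.2 := by exact_mod_cast hv1
      have h2 : (n : ℝ) ≤ (v.2 : ℝ) + N := by linarith
      exact_mod_cast h2
    have h1 := prof_up hN hq (v := v) (n := n) hcond (p := 1 / 2 + s) (by linarith) (by linarith)
      (by
        have h2 : -(((v.2 - n : ℤ) : ℝ) / (2 * N)) ≤ s := by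
          have h3 : -(((v.2 - n : ℤ) : ℝ)) ≤ |(v.2 : ℝ)| + D N := by
            push_cast
            have := neg_abs_le (v.2 : ℝ)
            linarith
          rw [← neg_div, div_le_iff₀ (by positivity)]
          rw [div_le_iff₀ hN0] at hsv hsN
          linarith
        linarith)
    have hwin' : |(1 / 2 + s) - 1 / 2| ≤ b * (n : ℝ) ^ (-(3 / 4 : ℝ)) := by
      rw [add_sub_cancel_left, abs_of_pos hs0]
      refine hwin.trans ?_
      exact mul_le_mul_of_nonneg_right hβb (Real.rpow_nonneg hn0.le _)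
    obtain ⟨-, h5, -⟩ := hst n hn1 (1 / 2 + s) hwin'
    have h6 := (harm n hn1).2
    have h7 : (n : ℝ) ^ (-(5 / 48) : ℝ) ≤
        (2 : ℝ) ^ (5 / 48 : ℝ) * β ^ (-(5 / 36) : ℝ) * s ^ (5 / 36 : ℝ) := by
      calc (n : ℝ) ^ (-(5 / 48) : ℝ) ≤ ((β / s) ^ (4 / 3 : ℝ) / 2) ^ (-(5 / 48) : ℝ) :=
            Real.rpow_le_rpow_of_nonpos (by positivity) (by linarith) (by norm_num)
        _ = (2 : ℝ) ^ (5 / 48 : ℝ) * ((β / s) ^ (4 / 3 : ℝ)) ^ (-(5 / 48) : ℝ) := by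
            rw [Real.div_rpow hx0.le (by norm_num), Real.rpow_neg (by norm_num : (0 : ℝ) ≤ 2),
              div_inv_eq_mul, mul_comm]
        _ = (2 : ℝ) ^ (5 / 48 : ℝ) * (β / s) ^ (-(5 / 36) : ℝ) := by
            rw [← Real.rpow_mul (by positivity)]
            norm_num
        _ = (2 : ℝ) ^ (5 / 48 : ℝ) * β ^ (-(5 / 36) : ℝ) * s ^ (5 / 36 : ℝ) := by
            rw [Real.div_rpow hβ.le hs0.le, Real.rpow_neg hs0.le, div_inv_eq_mul, mul_assoc]
    calc (ilaw q).real (Gr N v) ≤ arm (1 / 2 + s) n := h1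
      _ ≤ 3 * arm (1 / 2) n := h5
      _ ≤ 3 * (C * (n : ℝ) ^ (-(5 / 48) : ℝ)) := by linarith
      _ ≤ 3 * (C * ((2 : ℝ) ^ (5 / 48 : ℝ) * β ^ (-(5 / 36) : ℝ) * s ^ (5 / 36 : ℝ))) := by
          have := mul_le_mul_of_nonneg_left h7 hC.le
          linarith
      _ = (3 * (C * ((2 : ℝ) ^ (5 / 48 : ℝ) * β ^ (-(5 / 36) : ℝ)))) * s ^ (5 / 36 : ℝ) := by ring
      _ ≤ _ := by
          apply mul_le_mul_of_nonneg_right _ hse.le
          linarith

theorem prof_low_deep : ∃ c : ℝ, 0 < c ∧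
    ∀ (N : ℕ) (q : sqLattice.edgeSet → unitInterval), 1 ≤ N → 48 ≤ D N →
    (∀ e, (q (toE e) : ℝ) = gp N e) → ∀ (v : Vtx) (t : ℕ), v.2 = -(t : ℤ) → D N ≤ t →
    2 * t ≤ N → c * ((t : ℝ) / N) ^ (5 / 36 : ℝ) ≤ (ilaw q).real (Gr N v) := by
  obtain ⟨κ, hκ, hdown⟩ := down_tube
  obtain ⟨c1, hc1, harm⟩ := arm_sup
  refine ⟨c1 * (1 / 4) * ((1 / 2) ^ 47) ^ 4 * κ, by positivity, ?_⟩
  intro N q hN hD hq v t hv ht htN
  have hN0 : (0 : ℝ) < N := by exact_mod_cast hN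
  have ht48 : (48 : ℝ) ≤ t := by linarith
  have ht48' : 48 ≤ t := by exact_mod_cast ht48
  obtain ⟨r, hr⟩ : ∃ r : ℕ, r = t / 6 := ⟨_, rfl⟩
  have hr1 : 8 ≤ r := by omega
  have htN' : 2 * (t : ℝ) ≤ N := by exact_mod_cast htN
  have hp : (t : ℝ) / (4 * N) ≤ 1 / 8 := by
    rw [div_le_iff₀ (by positivity)]
    linarith
  have hp0 : 0 < (t : ℝ) / (4 * N) := by positivity
  obtain ⟨p, hpd⟩ : ∃ p : ℝ, p = 1 / 2 + (t : ℝ) / (4 * N) := ⟨_, rfl⟩
  have hp1 : p ≤ 1 := by rw [hpd]; linarith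
  have hp2 : 1 / 2 < p := by rw [hpd]; linarith
  have h1 := prof_low hN hq (v := v) (r := r) (by omega) (by omega) (p := p) (by linarith) hp1 (by
    rw [hpd, hv]
    push_cast
    have h2 : (t : ℝ) / (4 * N) ≤ (t - 3 * r) / (2 * N) := by
      rw [div_le_div_iff₀ (by positivity) (by positivity)]
      have h3 : 6 * r ≤ t := by omega
      have h4 : 6 * (r : ℝ) ≤ t := by exact_mod_cast h3
      nlinarith
    have h3 : (-(t : ℝ) + 3 * r) / (2 * N) = -((t - 3 * r) / (2 * N)) := by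
      rw [← neg_div]; congr 1; ring
    rw [h3]
    linarith)
  refine le_trans ?_ h1
  have a1 := harm p hp2 hp1 (3 * r)
  have e1 : p - 1 / 2 = (1 / 4) * ((t : ℝ) / N) := by rw [hpd]; field_simp; ring
  rw [e1, Real.mul_rpow (by norm_num) (by positivity)] at a1
  have a2 : (1 / 4 : ℝ) ≤ (1 / 4 : ℝ) ^ (5 / 36 : ℝ) := by
    have := Real.rpow_le_rpow_of_exponent_ge (x := (1 / 4 : ℝ)) (by norm_num) (by norm_num)
      (show (5 / 36 : ℝ) ≤ 1 by norm_num)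
    rwa [Real.rpow_one] at this
  have hx : 0 ≤ ((t : ℝ) / N) ^ (5 / 36 : ℝ) := by positivity
  have a3 : c1 * (1 / 4) * ((t : ℝ) / N) ^ (5 / 36 : ℝ) ≤ arm p (3 * r) := by
    refine le_trans ?_ a1
    have := mul_le_mul_of_nonneg_right a2 hx
    nlinarith
  have hr0 : (0 : ℤ) < r := by omega
  have a4 : (1 / 2 : ℝ) ^ 47 ≤ hh p (6 * (r : ℤ)) (2 * r) :=
    (rsw hr0 (by omega) (by omega) le_rfl).trans
      (hh_mono_param (by norm_num) hp2.le hp1 _ _)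
  have a5 : κ ≤ gTB N (v.1 - r) (v.1 + r) (-(N : ℤ)) v.2 := by
    have h2 := hdown N hN (2 * r) (by omega) (by
      have h3 : t < 6 * r + 6 := by omega
      have h4 : (t : ℝ) < 6 * r + 6 := by exact_mod_cast h3
      push_cast
      have h5 : (8 : ℝ) ≤ r := by exact_mod_cast hr1
      linarith) (v.1 - r)
    have e2 : v.1 - (r : ℤ) + ((2 * r : ℕ) : ℤ) = v.1 + r := by push_cast; ring
    rw [e2] at h2
    refine h2.trans (gTB_sub le_rfl (by omega) (by omega) le_rfl le_rfl)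
  have a6 : ((1 / 2 : ℝ) ^ 47) ^ 4 ≤ (hh p (6 * (r : ℤ)) (2 * r)) ^ 4 :=
    pow_le_pow_left₀ (by positivity) a4 4
  have hhn := hh_nonneg (by linarith : (0 : ℝ) ≤ p) hp1 (6 * (r : ℤ)) (2 * r)
  have harmn := arm_nonneg (by linarith : (0 : ℝ) ≤ p) hp1 (3 * r)
  calc c1 * (1 / 4) * ((1 / 2) ^ 47) ^ 4 * κ * ((t : ℝ) / N) ^ (5 / 36 : ℝ)
      = (c1 * (1 / 4) * ((t : ℝ) / N) ^ (5 / 36 : ℝ)) * ((1 / 2) ^ 47) ^ 4 * κ := by ring
    _ ≤ arm p (3 * r) * (hh p (6 * (r : ℤ)) (2 * r)) ^ 4 *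
        gTB N (v.1 - r) (v.1 + r) (-(N : ℤ)) v.2 :=
        mul_le_mul (mul_le_mul a3 a6 (by positivity) harmn) a5 hκ.le
          (mul_nonneg harmn (by positivity))

theorem pow_shift {x : ℝ} (hx : 0 ≤ x) : (x + 3) ^ (4 / 3 : ℝ) ≤ 36 * (1 + x ^ (7 / 3 : ℝ)) := by
  have h0 : 0 ≤ x ^ (7 / 3 : ℝ) := by positivity
  rcases le_total x 3 with h | h
  · have h1 : (x + 3) ^ (4 / 3 : ℝ) ≤ (6 : ℝ) ^ (4 / 3 : ℝ) :=
      Real.rpow_le_rpow (by positivity) (by linarith) (by norm_num)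
    have h2 : (6 : ℝ) ^ (4 / 3 : ℝ) ≤ (6 : ℝ) ^ (2 : ℝ) :=
      Real.rpow_le_rpow_of_exponent_le (by norm_num) (by norm_num)
    have h3 : (6 : ℝ) ^ (2 : ℝ) = 36 := by norm_num
    linarith
  · have h1 : (x + 3) ^ (4 / 3 : ℝ) ≤ (2 * x) ^ (4 / 3 : ℝ) :=
      Real.rpow_le_rpow (by positivity) (by linarith) (by norm_num)
    rw [Real.mul_rpow (by norm_num) hx] at h1
    have h2 : (2 : ℝ) ^ (4 / 3 : ℝ) ≤ (2 : ℝ) ^ (2 : ℝ) :=
      Real.rpow_le_rpow_of_exponent_le (by norm_num) (by norm_num)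
    have h3 : (2 : ℝ) ^ (2 : ℝ) = 4 := by norm_num
    have h4 : x ^ (4 / 3 : ℝ) ≤ 1 + x ^ (7 / 3 : ℝ) := le_one_add hx (by norm_num) (by norm_num)
    have h5 : 0 ≤ x ^ (4 / 3 : ℝ) := by positivity
    nlinarith

theorem prof_low_mid : ∃ c C : ℝ, 0 < c ∧ 0 < C ∧
    ∀ (N : ℕ) (q : sqLattice.edgeSet → unitInterval), 1 ≤ N → 48 ≤ D N → 12 * D N ≤ N →
    (∀ e, (q (toE e) : ℝ) = gp N e) → ∀ (v : Vtx) (h : ℕ), v.2 ≤ h → -(D N) ≤ v.2 →
    4 * h ≤ N → c * (N : ℝ) ^ (-(5 / 84) : ℝ) *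
      Real.exp (-(C * ((h : ℝ) / D N) ^ (7 / 3 : ℝ))) ≤ (ilaw q).real (Gr N v) := by
  obtain ⟨κ, C0, hκ, hC0, hup⟩ := up_tube
  obtain ⟨c1, C1, hc1, hC1, harm⟩ := arm_lower
  obtain ⟨c2, C2, hc2, hC2, htube⟩ := tube_lower
  refine ⟨c1 * (1 / 3) * (c2 ^ 4) * κ * Real.exp (-(C1 * 108 + C2 * (12 + 864))),
    C1 * 108 + C2 * 864 + C0, by positivity, by positivity, ?_⟩
  intro N q hN hD hDN hq v h hv1 hv2 hhN
  have hN0 : (0 : ℝ) < N := by exact_mod_cast hN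
  have hD0 := D_pos hN
  obtain ⟨r, hr⟩ : ∃ r : ℕ, r = ⌊D N⌋₊ := ⟨_, rfl⟩
  have hrD : (r : ℝ) ≤ D N := by rw [hr]; exact Nat.floor_le hD0.le
  have hrD2 : D N < r + 1 := by rw [hr]; exact Nat.lt_floor_add_one _
  have hr48 : (47 : ℝ) < r := by linarith
  have hr1 : 47 < r := by exact_mod_cast hr48
  have hhN' : 4 * (h : ℝ) ≤ N := by exact_mod_cast hhN
  obtain ⟨x, hx⟩ : ∃ x : ℝ, x = (h : ℝ) / D N := ⟨_, rfl⟩
  have hx0 : 0 ≤ x := by rw [hx]; positivity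
  have hxh : (h : ℝ) = x * D N := by rw [hx]; field_simp
  obtain ⟨X, hX⟩ : ∃ X : ℝ, X = x ^ (7 / 3 : ℝ) := ⟨_, rfl⟩
  have hX0 : 0 ≤ X := by rw [hX]; positivity
  obtain ⟨u, hu⟩ : ∃ u : ℝ, u = ((h : ℝ) + 3 * r) / (2 * N) := ⟨_, rfl⟩
  have hu0 : 0 ≤ u := by rw [hu]; positivity
  have hu4 : u ≤ 1 / 4 := by
    rw [hu, div_le_iff₀ (by positivity)]
    linarith
  have hY : (r : ℝ) * u ^ (4 / 3 : ℝ) ≤ 36 * (1 + X) := by
    have h1 : u ≤ (((x + 3) * D N) : ℝ) / N := by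
      rw [hu, div_le_div_iff₀ (by positivity) hN0, hxh]
      nlinarith
    have h2 : u ^ (4 / 3 : ℝ) ≤ (((x + 3) * D N) / N) ^ (4 / 3 : ℝ) :=
      Real.rpow_le_rpow hu0 h1 (by norm_num)
    have h3 := mul_div_rpow_eq hN (D N) (t := (x + 3) * D N) (by positivity)
    have e1 : D N / D N = 1 := div_self hD0.ne'
    have e2 : (x + 3) * D N / D N = x + 3 := by field_simp
    rw [e1, e2, one_mul] at h3
    have h4 := pow_shift hx0
    rw [← hX] at h4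
    calc (r : ℝ) * u ^ (4 / 3 : ℝ) ≤ D N * (((x + 3) * D N) / N) ^ (4 / 3 : ℝ) :=
          mul_le_mul hrD h2 (by positivity) hD0.le
      _ = (x + 3) ^ (4 / 3 : ℝ) := h3
      _ ≤ _ := h4
  obtain ⟨p, hpd⟩ : ∃ p : ℝ, p = 1 / 2 - u := ⟨_, rfl⟩
  have hp1 : p ≤ 1 / 2 := by rw [hpd]; linarith
  have hp2 : 1 / 4 ≤ p := by rw [hpd]; linarith
  have hpu : 1 / 2 - p = u := by rw [hpd]; ring
  have hv2' : -(r : ℤ) - 1 ≤ v.2 := by
    have h1 : -(r : ℝ) - 1 ≤ (v.2 : ℝ) := by linarith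
    exact_mod_cast h1
  have hNr : 12 * (r : ℤ) ≤ N := by
    have h1 : 12 * (r : ℝ) ≤ N := by linarith
    exact_mod_cast h1
  have h1 := prof_low hN hq (v := v) (r := r) (by omega) (by omega) (p := p) (by linarith)
    (by linarith) (by
      rw [hpd, hu]
      push_cast
      have h2 : ((v.2 : ℝ) + 3 * r) / (2 * N) ≤ ((h : ℝ) + 3 * r) / (2 * N) := by
        apply div_le_div_of_nonneg_right _ (by positivity)
        have : (v.2 : ℝ) ≤ h := by exact_mod_cast hv1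
        linarith
      linarith)
  refine le_trans ?_ h1
  -- the arm
  have a1 := harm p (3 * r) hp2 hp1 (by omega)
  rw [hpu] at a1
  have a2 : c1 * (1 / 3) * (N : ℝ) ^ (-(5 / 84) : ℝ) * Real.exp (-(C1 * 108 * (1 + X))) ≤
      arm p (3 * r) := by
    refine le_trans ?_ a1
    have b1 : (1 / 3) * (N : ℝ) ^ (-(5 / 84) : ℝ) ≤ ((3 * r : ℕ) : ℝ) ^ (-(5 / 48) : ℝ) := by
      rw [← D_pow hN]
      have b2 : (3 * D N) ^ (-(5 / 48) : ℝ) ≤ ((3 * r : ℕ) : ℝ) ^ (-(5 / 48) : ℝ) :=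
        Real.rpow_le_rpow_of_nonpos (by push_cast; linarith) (by push_cast; linarith)
          (by norm_num)
      refine le_trans ?_ b2
      rw [Real.mul_rpow (by norm_num) hD0.le]
      apply mul_le_mul_of_nonneg_right _ (Real.rpow_nonneg hD0.le _)
      have b3 : (3 : ℝ) ^ (-1 : ℝ) ≤ (3 : ℝ) ^ (-(5 / 48) : ℝ) :=
        Real.rpow_le_rpow_of_exponent_le (by norm_num) (by norm_num)
      rw [Real.rpow_neg_one] at b3
      norm_num at b3 ⊢
      exact b3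
    have b2 : Real.exp (-(C1 * 108 * (1 + X))) ≤
        Real.exp (-C1 * (((3 * r : ℕ) : ℝ) * u ^ (4 / 3 : ℝ))) := by
      apply Real.exp_le_exp.mpr
      push_cast
      have := mul_le_mul_of_nonneg_left hY hC1.le
      nlinarith
    calc c1 * (1 / 3) * (N : ℝ) ^ (-(5 / 84) : ℝ) * Real.exp (-(C1 * 108 * (1 + X)))
        = (c1 * ((1 / 3) * (N : ℝ) ^ (-(5 / 84) : ℝ))) * Real.exp (-(C1 * 108 * (1 + X))) := by
          ring
      _ ≤ _ := mul_le_mul (mul_le_mul_of_nonneg_left b1 hc1.le) b2 (Real.exp_pos _).le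
          (by positivity)
  -- the circuit
  have a3 : c2 * Real.exp (-(C2 * (3 + 216 * (1 + X)))) ≤ hh p (6 * (r : ℤ)) (2 * r) := by
    have b1 := htube p hp2 hp1 (6 * r) (2 * r) (by omega) (by omega)
    rw [hpu] at b1
    have e1 : ((6 * r : ℕ) : ℤ) = 6 * (r : ℤ) := by push_cast; ring
    have e2 : ((2 * r : ℕ) : ℤ) = 2 * (r : ℤ) := by push_cast; ring
    rw [e1, e2] at b1
    refine le_trans ?_ b1
    apply mul_le_mul_of_nonneg_left _ hc2.le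
    apply Real.exp_le_exp.mpr
    have hr0 : (0 : ℝ) < r := by linarith
    have b2 : ((6 * r : ℕ) : ℝ) / ((2 * r : ℕ) : ℝ) = 3 := by
      push_cast; field_simp; norm_num
    rw [b2]
    push_cast
    have b3 : (3 : ℝ) + 6 * r * u ^ (4 / 3 : ℝ) ≤ 3 + 216 * (1 + X) := by nlinarith
    have := mul_le_mul_of_nonneg_left b3 hC2.le
    linarith
  -- the tube
  have a4 : κ * Real.exp (-(C0 * X)) ≤ gTB N (v.1 - r) (v.1 + r) (-(N : ℤ)) v.2 := by
    have b1 := hup N hN (2 * r) h (by omega) (by push_cast; linarith) (by push_cast; linarith)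
      (by omega) (by omega) (v.1 - r)
    have e2 : v.1 - (r : ℤ) + ((2 * r : ℕ) : ℤ) = v.1 + r := by push_cast; ring
    rw [e2, ← hx, ← hX] at b1
    refine b1.trans (gTB_sub le_rfl (by omega) hv1 le_rfl le_rfl)
  have a5 : (c2 * Real.exp (-(C2 * (3 + 216 * (1 + X))))) ^ 4 ≤
      (hh p (6 * (r : ℤ)) (2 * r)) ^ 4 := pow_le_pow_left₀ (by positivity) a3 4
  have hhn := hh_nonneg (by linarith : (0 : ℝ) ≤ p) (by linarith) (6 * (r : ℤ)) (2 * r)
  have harmn := arm_nonneg (by linarith : (0 : ℝ) ≤ p) (by linarith) (3 * r)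
  rw [← hx, ← hX]
  have hXe := Real.exp_pos (-(C0 * X))
  calc c1 * (1 / 3) * (c2 ^ 4) * κ * Real.exp (-(C1 * 108 + C2 * (12 + 864))) *
        (N : ℝ) ^ (-(5 / 84) : ℝ) * Real.exp (-((C1 * 108 + C2 * 864 + C0) * X))
      = (c1 * (1 / 3) * (N : ℝ) ^ (-(5 / 84) : ℝ) * Real.exp (-(C1 * 108 * (1 + X)))) *
        (c2 * Real.exp (-(C2 * (3 + 216 * (1 + X))))) ^ 4 * (κ * Real.exp (-(C0 * X))) := by
        rw [mul_pow, ← Real.exp_nat_mul]
        have e1 : Real.exp (-(C1 * 108 + C2 * (12 + 864))) *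
          Real.exp (-((C1 * 108 + C2 * 864 + C0) * X)) =
          Real.exp (-(C1 * 108 * (1 + X))) *
            Real.exp ((4 : ℕ) * (-(C2 * (3 + 216 * (1 + X))))) * Real.exp (-(C0 * X)) := by
          rw [← Real.exp_add, ← Real.exp_add, ← Real.exp_add]
          congr 1
          push_cast
          ring
        linear_combination (c1 * (1 / 3) * (c2 ^ 4) * κ * (N : ℝ) ^ (-(5 / 84) : ℝ)) * e1
    _ ≤ arm p (3 * r) * (hh p (6 * (r : ℤ)) (2 * r)) ^ 4 *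
        gTB N (v.1 - r) (v.1 + r) (-(N : ℤ)) v.2 :=
        mul_le_mul (mul_le_mul a2 a5 (by positivity) harmn) a4 (by positivity)
          (mul_nonneg harmn (by positivity))

end Pool.Agent.Y244.GP
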