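import Mathlib

/-!
The scale of the front: elementary computations with powers.
-/

set_option autoImplicit false

namespace Pool.Agent.Y244.GP
open Finset

/-- the scale `N ^ (4/7)` -/
noncomputable def D (N : ℕ) : ℝ := (N : ℝ) ^ (4 / 7 : ℝ)

theorem D_pos {N : ℕ} (hN : 1 ≤ N) : 0 < D N := by
  unfold D
  have : (0 : ℝ) < N := by exact_mod_cast hN
  positivity

theorem D_one_le {N : ℕ} (hN : 1 ≤ N) : 1 ≤ D N :=
  Real.one_le_rpow (by exact_mod_cast hN) (by norm_num)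

theorem div_rpow_eq {N : ℕ} (hN : 1 ≤ N) {t : ℝ} (ht : 0 ≤ t) :
    (t / N) ^ (4 / 3 : ℝ) = (t / D N) ^ (4 / 3 : ℝ) / D N := by
  have hN0 : (0 : ℝ) < N := by exact_mod_cast hN
  have hD := D_pos hN
  rw [Real.div_rpow ht hN0.le, Real.div_rpow ht hD.le, div_div]
  congr 1
  unfold D
  rw [← Real.rpow_mul hN0.le, ← Real.rpow_add hN0]
  norm_num

/-- `w (t / N)^(4/3)` in terms of the scale -/
theorem mul_div_rpow_eq {N : ℕ} (hN : 1 ≤ N) (w : ℝ) {t : ℝ} (ht : 0 ≤ t) :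
    w * (t / N) ^ (4 / 3 : ℝ) = (w / D N) * (t / D N) ^ (4 / 3 : ℝ) := by
  rw [div_rpow_eq hN ht]
  ring

theorem rpow_73 {x : ℝ} (hx : 0 ≤ x) : x * x ^ (4 / 3 : ℝ) = x ^ (7 / 3 : ℝ) := by
  rcases hx.eq_or_lt with rfl | h
  · rw [zero_mul, Real.zero_rpow (by norm_num)]
  · conv_lhs => rw [← Real.rpow_one x]
    rw [← Real.rpow_mul hx, ← Real.rpow_add h]
    norm_num

theorem self_mul_div {N : ℕ} (hN : 1 ≤ N) {t : ℝ} (ht : 0 ≤ t) :
    t * (t / N) ^ (4 / 3 : ℝ) = (t / D N) ^ (7 / 3 : ℝ) := by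
  rw [mul_div_rpow_eq hN t ht, rpow_73 (div_nonneg ht (D_pos hN).le)]

theorem le_one_add {x : ℝ} (hx : 0 ≤ x) {s t : ℝ} (hs : 0 ≤ s) (hst : s ≤ t) :
    x ^ s ≤ 1 + x ^ t := by
  rcases le_total x 1 with h | h
  · have h1 := Real.rpow_le_one hx h hs
    have h2 := Real.rpow_nonneg hx t
    linarith
  · have h1 := Real.rpow_le_rpow_of_exponent_le h hst
    linarith

theorem geomK {c C : ℝ} (hc : 0 < c) (hC : 0 < C) :
    ∃ K : ℕ, ∀ J : ℕ, ∑ j ∈ Ico K J, C * Real.exp (-(c * j)) ≤ 1 / 2 := by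
  obtain ⟨r, hr⟩ : ∃ r : ℝ, r = Real.exp (-c) := ⟨_, rfl⟩
  have hr0 : 0 < r := by rw [hr]; exact Real.exp_pos _
  have hr1 : r < 1 := by rw [hr]; exact Real.exp_lt_one_iff.mpr (by linarith)
  obtain ⟨K, hK⟩ := exists_pow_lt_of_lt_one
    (show 0 < (1 - r) / (2 * C) from div_pos (by linarith) (by positivity)) hr1
  refine ⟨K, fun J => ?_⟩
  have h1 : ∀ j ∈ Ico K J, C * Real.exp (-(c * j)) = C * r ^ j := by
    intro j _
    rw [hr, ← Real.exp_nat_mul]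
    congr 2
    ring
  rw [Finset.sum_congr rfl h1, ← Finset.mul_sum]
  have h2 := geom_sum_Ico_le_of_lt_one hr0.le hr1 (m := K) (n := J)
  have h3 : r ^ K / (1 - r) ≤ 1 / (2 * C) := by
    rw [div_le_iff₀ (by linarith)]
    have : 1 / (2 * C) * (1 - r) = (1 - r) / (2 * C) := by ring
    rw [this]
    exact hK.le
  calc C * ∑ j ∈ Ico K J, r ^ j ≤ C * (1 / (2 * C)) :=
        mul_le_mul_of_nonneg_left (h2.trans h3) hC.le
    _ = 1 / 2 := by field_simp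

/-- the exponent of the `j`-th block -/
theorem block_exp {N : ℕ} (hN : 1 ≤ N) {w : ℕ} (hw : D N ≤ 8 * w) (j : ℕ) :
    (j : ℝ) / 512 ≤ w * ((j : ℝ) * w / (2 * N)) ^ (4 / 3 : ℝ) := by
  have hD := D_pos hN
  have hN0 : (0 : ℝ) < N := by exact_mod_cast hN
  rcases Nat.eq_zero_or_pos j with rfl | hj
  · rw [Nat.cast_zero, zero_mul, zero_div, zero_div, Real.zero_rpow (by norm_num), mul_zero]
  have hj1 : (1 : ℝ) ≤ j := by exact_mod_cast hj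
  have e1 : (j : ℝ) * w / (2 * N) = ((j : ℝ) / 2 * w) / N := by
    field_simp
  rw [e1, mul_div_rpow_eq hN _ (by positivity)]
  obtain ⟨y, hy⟩ : ∃ y : ℝ, y = (w : ℝ) / D N := ⟨_, rfl⟩
  have hy8 : 1 / 8 ≤ y := by
    rw [hy, div_le_div_iff₀ (by norm_num) hD]
    linarith
  have e2 : (j : ℝ) / 2 * w / D N = (j / 2) * y := by rw [hy]; ring
  rw [e2, ← hy]
  have h1 : ((j : ℝ) / 2 * (1 / 8)) ^ (4 / 3 : ℝ) ≤ ((j : ℝ) / 2 * y) ^ (4 / 3 : ℝ) :=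
    Real.rpow_le_rpow (by positivity) (by nlinarith) (by norm_num)
  have h2 : (j : ℝ) * (1 / 64) ≤ ((j : ℝ) / 2 * (1 / 8)) ^ (4 / 3 : ℝ) := by
    have e3 : (j : ℝ) / 2 * (1 / 8) = (j : ℝ) * (1 / 16) := by ring
    rw [e3, Real.mul_rpow (by positivity) (by norm_num)]
    have h3 : (j : ℝ) ≤ (j : ℝ) ^ (4 / 3 : ℝ) := by
      have := Real.rpow_le_rpow_of_exponent_le hj1 (show (1 : ℝ) ≤ 4 / 3 by norm_num)
      rwa [Real.rpow_one] at this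
    have h4 : (1 / 64 : ℝ) ≤ (1 / 16 : ℝ) ^ (4 / 3 : ℝ) := by
      have h5 : (1 / 64 : ℝ) = (1 / 16 : ℝ) ^ (3 / 2 : ℝ) := by
        have : (1 / 16 : ℝ) = (1 / 4) ^ (2 : ℝ) := by norm_num
        rw [this, ← Real.rpow_mul (by norm_num)]
        norm_num
      rw [h5]
      exact Real.rpow_le_rpow_of_exponent_ge (by norm_num) (by norm_num) (by norm_num)
    exact mul_le_mul h3 h4 (by norm_num) (by positivity)
  have h5 : (j : ℝ) * (1 / 64) ≤ ((j : ℝ) / 2 * y) ^ (4 / 3 : ℝ) := h2.trans h1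
  calc (j : ℝ) / 512 = 1 / 8 * ((j : ℝ) * (1 / 64)) := by ring
    _ ≤ y * ((j : ℝ) / 2 * y) ^ (4 / 3 : ℝ) :=
        mul_le_mul hy8 h5 (by positivity) (by linarith)

/-- the exponent of a tube of length `h + w` -/
theorem tube_exp {N : ℕ} (hN : 1 ≤ N) {w h : ℕ} (hw : D N ≤ 8 * w) (hw2 : (w : ℝ) ≤ 8 * D N) :
    ((h + w : ℕ) : ℝ) / w + ((h + w : ℕ) : ℝ) * ((h : ℝ) / (2 * N)) ^ (4 / 3 : ℝ) ≤
      26 * (1 + ((h : ℝ) / D N) ^ (7 / 3 : ℝ)) := by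
  have hD := D_pos hN
  have hN0 : (0 : ℝ) < N := by exact_mod_cast hN
  have hw0 : (0 : ℝ) < w := by linarith
  obtain ⟨x, hx⟩ : ∃ x : ℝ, x = (h : ℝ) / D N := ⟨_, rfl⟩
  have hx0 : 0 ≤ x := by rw [hx]; positivity
  have hh : (h : ℝ) = x * D N := by rw [hx]; field_simp
  have h1 : ((h + w : ℕ) : ℝ) / w ≤ 1 + 8 * x := by
    push_cast
    rw [div_le_iff₀ hw0, hh]
    nlinarith
  have h2 : ((h : ℝ) / (2 * N)) ^ (4 / 3 : ℝ) ≤ ((h : ℝ) / N) ^ (4 / 3 : ℝ) := by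
    apply Real.rpow_le_rpow (by positivity) _ (by norm_num)
    apply div_le_div_of_nonneg_left (by positivity) hN0
    linarith
  have h3 : ((h + w : ℕ) : ℝ) * ((h : ℝ) / (2 * N)) ^ (4 / 3 : ℝ) ≤
      (x + 8) * x ^ (4 / 3 : ℝ) := by
    calc ((h + w : ℕ) : ℝ) * ((h : ℝ) / (2 * N)) ^ (4 / 3 : ℝ)
        ≤ ((h + w : ℕ) : ℝ) * ((h : ℝ) / N) ^ (4 / 3 : ℝ) :=
          mul_le_mul_of_nonneg_left h2 (by positivity)
      _ = (((h + w : ℕ) : ℝ) / D N) * x ^ (4 / 3 : ℝ) := by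
          rw [mul_div_rpow_eq hN _ (by positivity), ← hx]
      _ ≤ (x + 8) * x ^ (4 / 3 : ℝ) := by
          apply mul_le_mul_of_nonneg_right _ (by positivity)
          push_cast
          rw [div_le_iff₀ hD, hh]
          nlinarith
  have h4 : x ≤ 1 + x ^ (7 / 3 : ℝ) := by
    have := le_one_add hx0 (s := 1) (t := 7 / 3) (by norm_num) (by norm_num)
    rwa [Real.rpow_one] at this
  have h5 : x ^ (4 / 3 : ℝ) ≤ 1 + x ^ (7 / 3 : ℝ) :=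
    le_one_add hx0 (by norm_num) (by norm_num)
  have h6 := rpow_73 hx0
  have h7 : 0 ≤ x ^ (7 / 3 : ℝ) := by positivity
  rw [← hx]
  nlinarith

end Pool.Agent.Y244.GP
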