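import Pool.Agent.Y244.GP.Chain
import Pool.Agent.Y244.GP.Hom
import Pool.Agent.Y244.GP.Scale

/-!
Tubes in gradient percolation.
-/

set_option autoImplicit false

namespace Pool.Agent.Y244.GP
open Finset H974 Pool.Agent.H160R2.CV Pool.Agent.Y244.PC

/-- probability of a top-bottom crossing in gradient percolation -/
noncomputable def gTB (N : ℕ) (a b c d : ℤ) : ℝ := Pr (gp N) (TBE a b c d) (TBc a b c d)

/-- probability of a left-right crossing in gradient percolation -/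
noncomputable def gLR (N : ℕ) (a b c d : ℤ) : ℝ := Pr (gp N) (LRE a b c d) (LRc a b c d)

section basic

variable {N : ℕ} {a b c d : ℤ} {S : Finset Edg}

theorem pr_gTB (hS : TBE a b c d ⊆ S) : Pr (gp N) S (TBc a b c d) = gTB N a b c d :=
  Pr_local hS (fun F _ => TBc_local (Finset.Subset.refl _))

theorem pr_gLR (hS : LRE a b c d ⊆ S) : Pr (gp N) S (LRc a b c d) = gLR N a b c d :=
  Pr_local hS (fun F _ => LRc_local (Finset.Subset.refl _))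

theorem gTB_nonneg : 0 ≤ gTB N a b c d := Pr_nonneg (ok_gp N) _ _
theorem gTB_le_one : gTB N a b c d ≤ 1 := Pr_le_one (ok_gp N) _ _
theorem gLR_nonneg : 0 ≤ gLR N a b c d := Pr_nonneg (ok_gp N) _ _
theorem gLR_le_one : gLR N a b c d ≤ 1 := Pr_le_one (ok_gp N) _ _

theorem and_ge {E : Type*} [DecidableEq E] {p : E → ℝ} (hp : Ok p) (S : Finset E)
    (A B : Finset E → Prop) :
    1 - Pr p S (fun F => A F ∧ B F) ≤ (1 - Pr p S A) + (1 - Pr p S B) := by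
  rw [← Pr_not, ← Pr_not, ← Pr_not]
  refine le_trans ?_ (Pr_or_le hp S _ _)
  apply Pr_mono hp
  intro F _ hF
  tauto

theorem gTB_le {q : ℝ} (hN : 1 ≤ N) (h0 : 0 ≤ q) (h1 : q ≤ 1)
    (h : 1 / 2 - (c : ℝ) / (2 * N) ≤ q) : gTB N a b c d ≤ hh q (d - c) (b - a) :=
  TB_le hN h0 h1 h (Finset.Subset.refl _)

theorem le_gTB {q : ℝ} (hN : 1 ≤ N) (h0 : 0 ≤ q) (h1 : q ≤ 1)
    (h : q ≤ 1 / 2 - (d : ℝ) / (2 * N)) : hh q (d - c) (b - a) ≤ gTB N a b c d :=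
  le_TB hN h0 h1 h (Finset.Subset.refl _)

theorem gLR_le {q : ℝ} (hN : 1 ≤ N) (h0 : 0 ≤ q) (h1 : q ≤ 1)
    (h : 1 / 2 - (c : ℝ) / (2 * N) ≤ q) : gLR N a b c d ≤ hh q (b - a) (d - c) :=
  LR_le hN h0 h1 h (Finset.Subset.refl _)

theorem le_gLR {q : ℝ} (hN : 1 ≤ N) (h0 : 0 ≤ q) (h1 : q ≤ 1)
    (h : q ≤ 1 / 2 - (d : ℝ) / (2 * N)) : hh q (b - a) (d - c) ≤ gLR N a b c d :=
  le_LR hN h0 h1 h (Finset.Subset.refl _)

/-- crossings of a larger rectangle contain crossings of a smaller one -/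
theorem gTB_sub {a' b' c' d' : ℤ} (hc : c ≤ c') (hcd : c' < d') (hd : d' ≤ d) (ha : a' ≤ a)
    (hb : b ≤ b') : gTB N a b c d ≤ gTB N a' b' c' d' := by
  have h1 : gTB N a b c d = Pr (gp N) (TBE a b c d ∪ TBE a' b' c' d') (TBc a b c d) :=
    (pr_gTB Finset.subset_union_left).symm
  have h2 : gTB N a' b' c' d' = Pr (gp N) (TBE a b c d ∪ TBE a' b' c' d') (TBc a' b' c' d') :=
    (pr_gTB Finset.subset_union_right).symm
  rw [h1, h2]
  exact Pr_mono (ok_gp N) (fun F _ hF => TBc_sub hc hcd hd ha hb hF)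

theorem gLR_sub {a' b' c' d' : ℤ} (ha : a ≤ a') (hab : a' < b') (hb : b' ≤ b) (hc : c' ≤ c)
    (hd : d ≤ d') : gLR N a b c d ≤ gLR N a' b' c' d' := by
  have h1 : gLR N a b c d = Pr (gp N) (LRE a b c d ∪ LRE a' b' c' d') (LRc a b c d) :=
    (pr_gLR Finset.subset_union_left).symm
  have h2 : gLR N a' b' c' d' = Pr (gp N) (LRE a b c d ∪ LRE a' b' c' d') (LRc a' b' c' d') :=
    (pr_gLR Finset.subset_union_right).symm
  rw [h1, h2]
  exact Pr_mono (ok_gp N) (fun F _ hF => LRc_sub ha hab hb hc hd hF)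

end basic

/-- the constants of `sup_cross` -/
def SupC (c C : ℝ) : Prop := ∀ q : ℝ, 1 / 2 ≤ q → q ≤ 1 → ∀ w h : ℕ,
    1 ≤ w → 1 ≤ h → w ≤ 8 * h →
    1 - hh q w h ≤ C * Real.exp (-(c * (h * (q - 1 / 2) ^ (4 / 3 : ℝ))))

/-- the constants of `sub_cross` -/
def SubC (c C : ℝ) : Prop := ∀ q : ℝ, 0 ≤ q → q ≤ 1 / 2 → ∀ w h : ℕ,
    1 ≤ w → h ≤ 8 * w → hh q w h ≤ C * Real.exp (-(c * (w * (1 / 2 - q) ^ (4 / 3 : ℝ))))

section blocks

variable {N : ℕ} {c1 C1 : ℝ} {a b c d : ℤ}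

theorem lvl {N : ℕ} (hN : 1 ≤ N) {t : ℤ} (h0 : 0 ≤ t) (h1 : t ≤ N) :
    0 ≤ (t : ℝ) / (2 * N) ∧ (t : ℝ) / (2 * N) ≤ 1 / 2 := by
  have hN0 : (0 : ℝ) < N := by exact_mod_cast hN
  have h2 : (0 : ℝ) ≤ t := by exact_mod_cast h0
  have h3 : (t : ℝ) ≤ N := by exact_mod_cast h1
  constructor
  · positivity
  · rw [div_le_iff₀ (by positivity)]
    linarith

theorem sup_TB (hs : SupC c1 C1) (hN : 1 ≤ N) {t : ℤ} (ht0 : 0 ≤ t) (htN : t ≤ N) {w L : ℕ}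
    (hw : 1 ≤ w) (hL : 1 ≤ L) (hLw : L ≤ 8 * w) (hb : b = a + w) (hd : d = -t)
    (hc : c = -t - L) :
    1 - gTB N a b c d ≤ C1 * Real.exp (-(c1 * (w * ((t : ℝ) / (2 * N)) ^ (4 / 3 : ℝ)))) := by
  obtain ⟨l1, l2⟩ := lvl hN ht0 htN
  have h1 := le_gTB (N := N) (a := a) (b := b) (c := c) (d := d)
    (q := 1 / 2 + (t : ℝ) / (2 * N)) hN (by linarith) (by linarith) (by
      rw [hd]; push_cast; rw [neg_div]; linarith)
  have h2 := hs (1 / 2 + (t : ℝ) / (2 * N)) (by linarith) (by linarith) L w hL hw hLw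
  have e1 : d - c = L := by rw [hd, hc]; ring
  have e2 : b - a = w := by rw [hb]; ring
  have e3 : (1 : ℝ) / 2 + (t : ℝ) / (2 * N) - 1 / 2 = (t : ℝ) / (2 * N) := by ring
  rw [e1, e2] at h1
  rw [e3] at h2
  linarith

theorem sup_LR (hs : SupC c1 C1) (hN : 1 ≤ N) {t : ℤ} (ht0 : 0 ≤ t) (htN : t ≤ N) {w L : ℕ}
    (hw : 1 ≤ w) (hL : 1 ≤ L) (hLw : L ≤ 8 * w) (hb : b = a + L) (hd : d = -t)
    (hc : c = -t - w) :
    1 - gLR N a b c d ≤ C1 * Real.exp (-(c1 * (w * ((t : ℝ) / (2 * N)) ^ (4 / 3 : ℝ)))) := by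
  obtain ⟨l1, l2⟩ := lvl hN ht0 htN
  have h1 := le_gLR (N := N) (a := a) (b := b) (c := c) (d := d)
    (q := 1 / 2 + (t : ℝ) / (2 * N)) hN (by linarith) (by linarith) (by
      rw [hd]; push_cast; rw [neg_div]; linarith)
  have h2 := hs (1 / 2 + (t : ℝ) / (2 * N)) (by linarith) (by linarith) L w hL hw hLw
  have e1 : d - c = w := by rw [hd, hc]; ring
  have e2 : b - a = L := by rw [hb]; ring
  have e3 : (1 : ℝ) / 2 + (t : ℝ) / (2 * N) - 1 / 2 = (t : ℝ) / (2 * N) := by ring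
  rw [e1, e2] at h1
  rw [e3] at h2
  linarith

theorem lvl_le {N : ℕ} {c t : ℤ} (hc : t ≤ c) :
    1 / 2 - (c : ℝ) / (2 * N) ≤ 1 / 2 - (t : ℝ) / (2 * N) := by
  have h1 : (t : ℝ) ≤ c := by exact_mod_cast hc
  have h2 : (t : ℝ) / (2 * N) ≤ (c : ℝ) / (2 * N) :=
    div_le_div_of_nonneg_right h1 (by positivity)
  linarith

theorem sub_TB' (hs : SubC c1 C1) (hN : 1 ≤ N) {t : ℤ} (ht0 : 0 ≤ t) (htN : t ≤ N) {w L : ℕ}
    (hw : 1 ≤ w) (hLw : L ≤ 8 * w) (hb : b = a + L) (hc : t ≤ c)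
    (hd : d = c + w) :
    gTB N a b c d ≤ C1 * Real.exp (-(c1 * (w * ((t : ℝ) / (2 * N)) ^ (4 / 3 : ℝ)))) := by
  obtain ⟨l1, l2⟩ := lvl hN ht0 htN
  have h1 := gTB_le (N := N) (a := a) (b := b) (c := c) (d := d)
    (q := 1 / 2 - (t : ℝ) / (2 * N)) hN (by linarith) (by linarith) (lvl_le hc)
  have h2 := hs (1 / 2 - (t : ℝ) / (2 * N)) (by linarith) (by linarith) w L hw hLw
  have e1 : d - c = w := by rw [hd]; ring
  have e2 : b - a = L := by rw [hb]; ring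
  have e3 : (1 : ℝ) / 2 - (1 / 2 - (t : ℝ) / (2 * N)) = (t : ℝ) / (2 * N) := by ring
  rw [e1, e2] at h1
  rw [e3] at h2
  linarith

theorem sub_LR' (hs : SubC c1 C1) (hN : 1 ≤ N) {t : ℤ} (ht0 : 0 ≤ t) (htN : t ≤ N) {w L : ℕ}
    (hw : 1 ≤ w) (hLw : L ≤ 8 * w) (hb : b = a + w) (hc : t ≤ c)
    (hd : d = c + L) :
    gLR N a b c d ≤ C1 * Real.exp (-(c1 * (w * ((t : ℝ) / (2 * N)) ^ (4 / 3 : ℝ)))) := by
  obtain ⟨l1, l2⟩ := lvl hN ht0 htN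
  have h1 := gLR_le (N := N) (a := a) (b := b) (c := c) (d := d)
    (q := 1 / 2 - (t : ℝ) / (2 * N)) hN (by linarith) (by linarith) (lvl_le hc)
  have h2 := hs (1 / 2 - (t : ℝ) / (2 * N)) (by linarith) (by linarith) w L hw hLw
  have e1 : d - c = L := by rw [hd]; ring
  have e2 : b - a = w := by rw [hb]; ring
  have e3 : (1 : ℝ) / 2 - (1 / 2 - (t : ℝ) / (2 * N)) = (t : ℝ) / (2 * N) := by ring
  rw [e1, e2] at h1
  rw [e3] at h2
  linarith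

/-- Russo-Seymour-Welsh below level zero -/
theorem rsw_TB (hN : 1 ≤ N) (hd : d ≤ 0) {n : ℤ} (hn : 0 < n) (h1 : 0 < d - c)
    (h2 : d - c ≤ 8 * n) (h3 : 2 * n ≤ b - a) : (1 / 2 : ℝ) ^ 47 ≤ gTB N a b c d := by
  refine (rsw hn h1 h2 h3).trans (le_gTB hN (by norm_num) (by norm_num) ?_)
  have hN0 : (0 : ℝ) < N := by exact_mod_cast hN
  have : (d : ℝ) / (2 * N) ≤ 0 :=
    div_nonpos_of_nonpos_of_nonneg (by exact_mod_cast hd) (by positivity)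
  linarith

theorem rsw_LR (hN : 1 ≤ N) (hd : d ≤ 0) {n : ℤ} (hn : 0 < n) (h1 : 0 < b - a)
    (h2 : b - a ≤ 8 * n) (h3 : 2 * n ≤ d - c) : (1 / 2 : ℝ) ^ 47 ≤ gLR N a b c d := by
  refine (rsw hn h1 h2 h3).trans (le_gLR hN (by norm_num) (by norm_num) ?_)
  have hN0 : (0 : ℝ) < N := by exact_mod_cast hN
  have : (d : ℝ) / (2 * N) ≤ 0 :=
    div_nonpos_of_nonpos_of_nonneg (by exact_mod_cast hd) (by positivity)
  linarith

/-- absence of crossings above level zero -/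
theorem rsw_noLR (hN : 1 ≤ N) (hc : 0 ≤ c) {n : ℤ} (hn : 0 < n) (h1 : 2 * n + 1 ≤ b - a)
    (h2 : 0 ≤ d - c) (h3 : d - c + 1 ≤ 8 * n) : (1 / 2 : ℝ) ^ 47 ≤ 1 - gLR N a b c d := by
  have h4 := no_cross hn 0 h1 h2 (by push_cast; linarith)
  have hN0 : (0 : ℝ) < N := by exact_mod_cast hN
  have h5 : gLR N a b c d ≤ hh (1 / 2) (b - a) (d - c) := by
    refine gLR_le hN (by norm_num) (by norm_num) ?_
    have : 0 ≤ (c : ℝ) / (2 * N) := div_nonneg (by exact_mod_cast hc) (by positivity)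
    linarith
  norm_num at h4 ⊢
  linarith

theorem rsw_noTB (hN : 1 ≤ N) (hc : 0 ≤ c) {n : ℤ} (hn : 0 < n) (h1 : 2 * n + 1 ≤ d - c)
    (h2 : 0 ≤ b - a) (h3 : b - a + 1 ≤ 8 * n) : (1 / 2 : ℝ) ^ 47 ≤ 1 - gTB N a b c d := by
  have h4 := no_cross hn 0 h1 h2 (by push_cast; linarith)
  have hN0 : (0 : ℝ) < N := by exact_mod_cast hN
  have h5 : gTB N a b c d ≤ hh (1 / 2) (d - c) (b - a) := by
    refine gTB_le hN (by norm_num) (by norm_num) ?_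
    have : 0 ≤ (c : ℝ) / (2 * N) := div_nonneg (by exact_mod_cast hc) (by positivity)
    linarith
  norm_num at h4 ⊢
  linarith

end blocks

end Pool.Agent.Y244.GP
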