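import Pool.Agent.Y244.GP.Tube

/-!
Lower bounds for crossings of tubes in gradient percolation.
-/

set_option autoImplicit false

namespace Pool.Agent.Y244.GP
open Finset H974 Pool.Agent.H160R2.CV Pool.Agent.Y244.PC

theorem jw_le {j J w : ℕ} (h : j < J + 1) : ((j : ℤ)) * w ≤ J * w := by
  have : (j : ℤ) ≤ J := by omega
  exact mul_le_mul_of_nonneg_right this (by positivity)

/-- the ground is reached through a tube -/
theorem down_tube : ∃ κ : ℝ, 0 < κ ∧ ∀ N : ℕ, 1 ≤ N → ∀ w : ℕ, 2 ≤ w → D N ≤ 8 * w →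
    ∀ a : ℤ, κ ≤ gTB N a (a + w) (-(N : ℤ)) 0 := by
  obtain ⟨c1, C1, hc1, hC1, hs⟩ := sup_cross
  obtain ⟨K, hK⟩ := geomK (c := c1 / 512) (C := 2 * C1) (by positivity) (by positivity)
  refine ⟨((1 / 2 : ℝ) ^ 94) ^ K * (1 / 2), by positivity, ?_⟩
  intro N hN w hw hwD a
  have hN0 : (0 : ℝ) < N := by exact_mod_cast hN
  have hw' : (2 : ℤ) ≤ w := by exact_mod_cast hw
  obtain ⟨J, hJ⟩ : ∃ J, J = N / w := ⟨_, rfl⟩
  have hJw : (J : ℤ) * w ≤ N := by
    have h : J * w ≤ N := by rw [hJ]; exact Nat.div_mul_le_self _ _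
    exact_mod_cast h
  have hJw2 : (N : ℤ) < (J : ℤ) * w + w := by
    have h : N < J * w + w := by rw [hJ]; exact Nat.lt_div_mul_add (by omega)
    exact_mod_cast h
  obtain ⟨S, hS⟩ : ∃ S : Finset Edg, S = RE a (a + w) (-(((J : ℤ) + 2) * w)) 0 := ⟨_, rfl⟩
  obtain ⟨A, hAd⟩ : ∃ A : ℕ → Finset Edg → Prop, A = fun (j : ℕ) (F : Finset Edg) =>
      TBc a (a + w) (0 - ((j : ℤ) + 2) * w) (0 - (j : ℤ) * w) F ∧
      LRc a (a + w) (0 - ((j : ℤ) + 1) * w) (0 - (j : ℤ) * w) F := ⟨_, rfl⟩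
  have hA : ∀ j, IncrE S (A j) := by
    intro j F G h1 h2 h3
    rw [hAd] at h3 ⊢
    exact ⟨h3.1.mono h1, h3.2.mono h1⟩
  have hs1 : ∀ j < J + 1, TBE a (a + w) (0 - ((j : ℤ) + 2) * w) (0 - (j : ℤ) * w) ⊆ S := by
    intro j hj
    have h1 := jw_le (w := w) hj
    have h2 : (0 : ℤ) ≤ (j : ℤ) * w := by positivity
    rw [hS]
    refine TBE_subset_RE.trans (RE_subset le_rfl le_rfl ?_ ?_) <;> linarith
  have hs2 : ∀ j < J + 1, LRE a (a + w) (0 - ((j : ℤ) + 1) * w) (0 - (j : ℤ) * w) ⊆ S := by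
    intro j hj
    have h1 := jw_le (w := w) hj
    have h2 : (0 : ℤ) ≤ (j : ℤ) * w := by positivity
    rw [hS]
    refine LRE_subset_RE.trans (RE_subset le_rfl le_rfl ?_ ?_) <;> linarith
  have key := chain_incr (ok_gp N) (S := S) A hA K (J + 1) (κ := (1 / 2) ^ 94) (by positivity)
    (pow_le_one₀ (by norm_num) (by norm_num)) (fun j => 2 * C1 * Real.exp (-(c1 / 512 * j)))
    (fun j hj _ => by
      have h1 := Pr_harris (ok_gp N) (TBc_incr S a (a + w) (0 - ((j : ℤ) + 2) * w)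
        (0 - (j : ℤ) * w)) (LRc_incr S a (a + w) (0 - ((j : ℤ) + 1) * w) (0 - (j : ℤ) * w))
      rw [pr_gTB (hs1 j hj), pr_gLR (hs2 j hj)] at h1
      have h2 : (0 : ℤ) ≤ (j : ℤ) * w := by positivity
      have h3 := rsw_TB (N := N) (a := a) (b := a + w) (c := 0 - ((j : ℤ) + 2) * w)
        (d := 0 - (j : ℤ) * w) hN (by linarith) (n := w / 2) (by omega) (by linarith)
        (by have : (0 - (j : ℤ) * w) - (0 - ((j : ℤ) + 2) * w) = 2 * w := by ring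
            rw [this]; omega) (by omega)
      have h4 := rsw_LR (N := N) (a := a) (b := a + w) (c := 0 - ((j : ℤ) + 1) * w)
        (d := 0 - (j : ℤ) * w) hN (by linarith) (n := w / 2) (by omega) (by linarith)
        (by omega) (by
            have : (0 - (j : ℤ) * w) - (0 - ((j : ℤ) + 1) * w) = w := by ring
            rw [this]; omega)
      rw [hAd]
      refine le_trans ?_ h1
      calc (1 / 2 : ℝ) ^ 94 = (1 / 2) ^ 47 * (1 / 2) ^ 47 := by rw [← pow_add]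
        _ ≤ _ := mul_le_mul h3 h4 (by positivity) gTB_nonneg)
    (fun j hj _ => by
      have h1 := and_ge (ok_gp N) S (TBc a (a + w) (0 - ((j : ℤ) + 2) * w) (0 - (j : ℤ) * w))
        (LRc a (a + w) (0 - ((j : ℤ) + 1) * w) (0 - (j : ℤ) * w))
      rw [pr_gTB (hs1 j hj), pr_gLR (hs2 j hj)] at h1
      have h0 : (0 : ℤ) ≤ (j : ℤ) * w := by positivity
      have h2 := jw_le (w := w) hj
      have h3 := sup_TB (N := N) (a := a) (b := a + w) (c := 0 - ((j : ℤ) + 2) * w)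
        (d := 0 - (j : ℤ) * w) hs hN (t := (j : ℤ) * w) h0 (by linarith) (w := w) (L := 2 * w)
        (by omega) (by omega) (by omega) rfl (by ring) (by push_cast; ring)
      have h4 := sup_LR (N := N) (a := a) (b := a + w) (c := 0 - ((j : ℤ) + 1) * w)
        (d := 0 - (j : ℤ) * w) hs hN (t := (j : ℤ) * w) h0 (by linarith) (w := w) (L := w)
        (by omega) (by omega) (by omega) rfl (by ring) (by push_cast; ring)
      have h5 := block_exp hN hwD j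
      have e1 : (((j : ℤ) * (w : ℤ) : ℤ) : ℝ) = (j : ℝ) * w := by push_cast; ring
      rw [e1] at h3 h4
      have h6 : Real.exp (-(c1 * (w * ((j : ℝ) * w / (2 * N)) ^ (4 / 3 : ℝ)))) ≤
          Real.exp (-(c1 / 512 * j)) := by
        apply Real.exp_le_exp.mpr
        have := mul_le_mul_of_nonneg_left h5 hc1.le
        linarith
      have h7 := mul_le_mul_of_nonneg_left h6 hC1.le
      rw [hAd]
      show _ ≤ 2 * C1 * Real.exp (-(c1 / 512 * j))
      linarith)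
    (fun j => by positivity) (hK _)
  refine key.trans ?_
  have h1 : Pr (gp N) S (fun F => ∀ j < J + 1, A j F) ≤
      Pr (gp N) S (TBc a (a + w) (0 - ((J : ℤ) + 2) * w) 0) := by
    apply Pr_mono (ok_gp N)
    intro F _ hF
    rw [hAd] at hF
    exact chainT (by omega) (by omega) J (fun j hj => (hF j hj).1) (fun j hj => (hF j hj).2)
  refine h1.trans ?_
  rw [pr_gTB]
  · refine gTB_sub ?_ (by omega) le_rfl le_rfl le_rfl
    linarith
  · rw [hS]
    refine TBE_subset_RE.trans (RE_subset le_rfl le_rfl ?_ le_rfl)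
    linarith

/-- tubes reaching height `h` -/
theorem up_tube : ∃ κ C : ℝ, 0 < κ ∧ 0 < C ∧ ∀ N : ℕ, 1 ≤ N → ∀ w h : ℕ, 2 ≤ w →
    D N ≤ 8 * w → (w : ℝ) ≤ 8 * D N → w ≤ N → 2 * h ≤ N → ∀ a : ℤ,
    κ * Real.exp (-(C * ((h : ℝ) / D N) ^ (7 / 3 : ℝ))) ≤ gTB N a (a + w) (-(N : ℤ)) h := by
  obtain ⟨κ, hκ, hdown⟩ := down_tube
  obtain ⟨c2, C2, hc2, hC2, htube⟩ := tube_lower
  refine ⟨κ * (c2 * Real.exp (-(C2 * 26))) * (1 / 2) ^ 47, C2 * 26, by positivity,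
    by positivity, ?_⟩
  intro N hN w h hw hwD hwD2 hwN hhN a
  have hN0 : (0 : ℝ) < N := by exact_mod_cast hN
  have hw' : (2 : ℤ) ≤ w := by exact_mod_cast hw
  have hwN' : (w : ℤ) ≤ N := by exact_mod_cast hwN
  have hh0 : (0 : ℤ) ≤ h := by positivity
  obtain ⟨S, hS⟩ : ∃ S : Finset Edg, S = RE a (a + w) (-(N : ℤ)) h := ⟨_, rfl⟩
  have s1 : TBE a (a + w) (-(N : ℤ)) 0 ⊆ S := by
    rw [hS]; exact TBE_subset_RE.trans (RE_subset le_rfl le_rfl le_rfl hh0)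
  have s2 : TBE a (a + w) (-(w : ℤ)) h ⊆ S := by
    rw [hS]; exact TBE_subset_RE.trans (RE_subset le_rfl le_rfl (by omega) le_rfl)
  have s3 : LRE a (a + w) (-(w : ℤ)) 0 ⊆ S := by
    rw [hS]; exact LRE_subset_RE.trans (RE_subset le_rfl le_rfl (by omega) hh0)
  have s4 : TBE a (a + w) (-(N : ℤ)) h ⊆ S := by
    rw [hS]; exact TBE_subset_RE
  have p1 := hdown N hN w hw hwD a
  have hq : (h : ℝ) / (2 * N) ≤ 1 / 4 := by
    rw [div_le_iff₀ (by positivity)]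
    have : (2 : ℝ) * h ≤ N := by exact_mod_cast hhN
    linarith
  have hq0 : 0 ≤ (h : ℝ) / (2 * N) := by positivity
  have p2 : c2 * Real.exp (-(C2 * 26)) * Real.exp (-(C2 * 26 * ((h : ℝ) / D N) ^ (7 / 3 : ℝ))) ≤
      gTB N a (a + w) (-(w : ℤ)) h := by
    have h1 := le_gTB (N := N) (a := a) (b := a + w) (c := -(w : ℤ)) (d := h)
      (q := 1 / 2 - (h : ℝ) / (2 * N)) hN (by linarith) (by linarith) (by push_cast; exact le_rfl)
    have h2 := htube (1 / 2 - (h : ℝ) / (2 * N)) (by linarith) (by linarith) (h + w) w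
      (by omega) (by omega)
    have e1 : (h : ℤ) - -(w : ℤ) = ((h + w : ℕ) : ℤ) := by push_cast; ring
    have e2 : a + (w : ℤ) - a = w := by ring
    have e3 : (1 : ℝ) / 2 - (1 / 2 - (h : ℝ) / (2 * N)) = (h : ℝ) / (2 * N) := by ring
    rw [e1, e2] at h1
    rw [e3] at h2
    refine le_trans ?_ (h2.trans h1)
    rw [mul_assoc, ← Real.exp_add]
    apply mul_le_mul_of_nonneg_left _ hc2.le
    apply Real.exp_le_exp.mpr
    have h3 := mul_le_mul_of_nonneg_left (tube_exp hN hwD hwD2 (h := h)) hC2.le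
    linarith
  have p3 := rsw_LR (N := N) (a := a) (b := a + w) (c := -(w : ℤ)) (d := 0) hN le_rfl
    (n := w / 2) (by omega) (by omega) (by omega) (by omega)
  have i1 := Pr_harris (ok_gp N) (TBc_incr S a (a + w) (-(N : ℤ)) 0)
    (TBc_incr S a (a + w) (-(w : ℤ)) h)
  have i2 := Pr_harris (ok_gp N) (A := fun F => TBc a (a + w) (-(N : ℤ)) 0 F ∧
    TBc a (a + w) (-(w : ℤ)) h F) (S := S) (fun F G h1 h2 h3 => ⟨h3.1.mono h1, h3.2.mono h1⟩)
    (LRc_incr S a (a + w) (-(w : ℤ)) 0)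
  have i3 : Pr (gp N) S (fun F => (TBc a (a + w) (-(N : ℤ)) 0 F ∧
      TBc a (a + w) (-(w : ℤ)) h F) ∧ LRc a (a + w) (-(w : ℤ)) 0 F) ≤
      Pr (gp N) S (TBc a (a + w) (-(N : ℤ)) h) := by
    apply Pr_mono (ok_gp N)
    rintro F _ ⟨⟨k1, k2⟩, k3⟩
    exact glueT (by omega) (by omega) (by omega) hh0 k1 k2 k3
  rw [pr_gTB s1, pr_gTB s2] at i1
  rw [pr_gLR s3] at i2
  rw [pr_gTB s4] at i3
  have hX := Real.exp_pos (-(C2 * 26 * ((h : ℝ) / D N) ^ (7 / 3 : ℝ)))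
  calc κ * (c2 * Real.exp (-(C2 * 26))) * (1 / 2) ^ 47 *
        Real.exp (-(C2 * 26 * ((h : ℝ) / D N) ^ (7 / 3 : ℝ)))
      = (κ * (c2 * Real.exp (-(C2 * 26)) *
        Real.exp (-(C2 * 26 * ((h : ℝ) / D N) ^ (7 / 3 : ℝ))))) * (1 / 2) ^ 47 := by ring
    _ ≤ (gTB N a (a + w) (-(N : ℤ)) 0 * gTB N a (a + w) (-(w : ℤ)) h) *
        gLR N a (a + w) (-(w : ℤ)) 0 :=
        mul_le_mul (mul_le_mul p1 p2 (by positivity) gTB_nonneg) p3 (by positivity)
          (mul_nonneg gTB_nonneg gTB_nonneg)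
    _ ≤ _ := (mul_le_mul_of_nonneg_right i1 gLR_nonneg).trans (i2.trans i3)

/-- the sky is reached through a tube -/
theorem sky_tube : ∃ κ : ℝ, 0 < κ ∧ ∀ N : ℕ, 1 ≤ N → ∀ w : ℕ, 5 ≤ w → D N ≤ 8 * w →
    ∀ a : ℤ, κ ≤ 1 - gLR N a (a + w) 0 (N + 1) := by
  obtain ⟨c1, C1, hc1, hC1, hs⟩ := sub_cross
  obtain ⟨K, hK⟩ := geomK (c := c1 / 512) (C := 2 * C1) (by positivity) (by positivity)
  refine ⟨((1 / 2 : ℝ) ^ 94) ^ K * (1 / 2), by positivity, ?_⟩
  intro N hN w hw hwD a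
  have hN0 : (0 : ℝ) < N := by exact_mod_cast hN
  have hw' : (5 : ℤ) ≤ w := by exact_mod_cast hw
  obtain ⟨J, hJ⟩ : ∃ J, J = N / w := ⟨_, rfl⟩
  have hJw : (J : ℤ) * w ≤ N := by
    have h : J * w ≤ N := by rw [hJ]; exact Nat.div_mul_le_self _ _
    exact_mod_cast h
  have hJw2 : (N : ℤ) < (J : ℤ) * w + w := by
    have h : N < J * w + w := by rw [hJ]; exact Nat.lt_div_mul_add (by omega)
    exact_mod_cast h
  obtain ⟨S, hS⟩ : ∃ S : Finset Edg, S = RE a (a + w) 0 (((J : ℤ) + 2) * w) := ⟨_, rfl⟩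
  obtain ⟨A, hAd⟩ : ∃ A : ℕ → Finset Edg → Prop, A = fun (j : ℕ) (F : Finset Edg) =>
      ¬ LRc a (a + w) (0 + (j : ℤ) * w) (0 + ((j : ℤ) + 2) * w) F ∧
      ¬ TBc a (a + w) (0 + (j : ℤ) * w) (0 + ((j : ℤ) + 1) * w) F := ⟨_, rfl⟩
  have hA : ∀ j, DecrE S (A j) := by
    intro j F G h1 h2 h3 h4
    rw [hAd] at h3 h4
    exact h3 ⟨fun h => h4.1 (h.mono h1), fun h => h4.2 (h.mono h1)⟩
  have hs1 : ∀ j < J + 1, LRE a (a + w) (0 + (j : ℤ) * w) (0 + ((j : ℤ) + 2) * w) ⊆ S := by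
    intro j hj
    have h1 := jw_le (w := w) hj
    have h2 : (0 : ℤ) ≤ (j : ℤ) * w := by positivity
    rw [hS]
    refine LRE_subset_RE.trans (RE_subset le_rfl le_rfl ?_ ?_) <;> linarith
  have hs2 : ∀ j < J + 1, TBE a (a + w) (0 + (j : ℤ) * w) (0 + ((j : ℤ) + 1) * w) ⊆ S := by
    intro j hj
    have h1 := jw_le (w := w) hj
    have h2 : (0 : ℤ) ≤ (j : ℤ) * w := by positivity
    rw [hS]
    refine TBE_subset_RE.trans (RE_subset le_rfl le_rfl ?_ ?_) <;> linarith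
  have key := chain_decr (ok_gp N) (S := S) A hA K (J + 1) (κ := (1 / 2) ^ 94) (by positivity)
    (pow_le_one₀ (by norm_num) (by norm_num)) (fun j => 2 * C1 * Real.exp (-(c1 / 512 * j)))
    (fun j hj _ => by
      have h1 := harris_dec2 (ok_gp N) (decr_not (LRc_incr S a (a + w) (0 + (j : ℤ) * w)
        (0 + ((j : ℤ) + 2) * w))) (decr_not (TBc_incr S a (a + w) (0 + (j : ℤ) * w)
        (0 + ((j : ℤ) + 1) * w)))
      rw [Pr_not, Pr_not, pr_gLR (hs1 j hj), pr_gTB (hs2 j hj)] at h1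
      have h2 : (0 : ℤ) ≤ (j : ℤ) * w := by positivity
      have e2 : (0 + ((j : ℤ) + 2) * w) - (0 + (j : ℤ) * w) = 2 * w := by ring
      have e3 : (0 + ((j : ℤ) + 1) * w) - (0 + (j : ℤ) * w) = w := by ring
      have h3 := rsw_noLR (N := N) (a := a) (b := a + w) (c := 0 + (j : ℤ) * w)
        (d := 0 + ((j : ℤ) + 2) * w) hN (by linarith) (n := (w - 1) / 2) (by omega) (by omega)
        (by rw [e2]; omega) (by rw [e2]; omega)
      have h4 := rsw_noTB (N := N) (a := a) (b := a + w) (c := 0 + (j : ℤ) * w)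
        (d := 0 + ((j : ℤ) + 1) * w) hN (by linarith) (n := (w - 1) / 2) (by omega)
        (by rw [e3]; omega) (by omega) (by omega)
      rw [hAd]
      refine le_trans ?_ h1
      calc (1 / 2 : ℝ) ^ 94 = (1 / 2) ^ 47 * (1 / 2) ^ 47 := by rw [← pow_add]
        _ ≤ _ := mul_le_mul h3 h4 (by positivity) (sub_nonneg.mpr gLR_le_one))
    (fun j hj _ => by
      have h1 := and_ge (ok_gp N) S
        (fun F => ¬ LRc a (a + w) (0 + (j : ℤ) * w) (0 + ((j : ℤ) + 2) * w) F)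
        (fun F => ¬ TBc a (a + w) (0 + (j : ℤ) * w) (0 + ((j : ℤ) + 1) * w) F)
      rw [Pr_not S (LRc _ _ _ _), Pr_not S (TBc _ _ _ _), pr_gLR (hs1 j hj),
        pr_gTB (hs2 j hj)] at h1
      have h0 : (0 : ℤ) ≤ (j : ℤ) * w := by positivity
      have h2 := jw_le (w := w) hj
      have h3 := sub_LR' (N := N) (a := a) (b := a + w) (c := 0 + (j : ℤ) * w)
        (d := 0 + ((j : ℤ) + 2) * w) hs hN (t := (j : ℤ) * w) h0 (by linarith) (w := w)
        (L := 2 * w) (by omega) (by omega) rfl (by linarith) (by push_cast; ring)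
      have h4 := sub_TB' (N := N) (a := a) (b := a + w) (c := 0 + (j : ℤ) * w)
        (d := 0 + ((j : ℤ) + 1) * w) hs hN (t := (j : ℤ) * w) h0 (by linarith) (w := w) (L := w)
        (by omega) (by omega) rfl (by linarith) (by push_cast; ring)
      have h5 := block_exp hN hwD j
      have e1 : (((j : ℤ) * (w : ℤ) : ℤ) : ℝ) = (j : ℝ) * w := by push_cast; ring
      rw [e1] at h3 h4
      have h6 : Real.exp (-(c1 * (w * ((j : ℝ) * w / (2 * N)) ^ (4 / 3 : ℝ)))) ≤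
          Real.exp (-(c1 / 512 * j)) := by
        apply Real.exp_le_exp.mpr
        have := mul_le_mul_of_nonneg_left h5 hc1.le
        linarith
      have h7 := mul_le_mul_of_nonneg_left h6 hC1.le
      rw [hAd]
      show _ ≤ 2 * C1 * Real.exp (-(c1 / 512 * j))
      linarith)
    (fun j => by positivity) (hK _)
  refine key.trans ?_
  have h1 : Pr (gp N) S (fun F => ∀ j < J + 1, A j F) ≤
      Pr (gp N) S (fun F => ¬ LRc a (a + w) 0 (0 + ((J : ℤ) + 2) * w) F) := by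
    apply Pr_mono (ok_gp N)
    intro F _ hF
    rw [hAd] at hF
    exact chainN (by omega) J (fun j hj => (hF j hj).1) (fun j hj => (hF j hj).2)
  refine h1.trans ?_
  rw [Pr_not, pr_gLR]
  · have h2 := gLR_sub (N := N) (a := a) (b := a + w) (c := 0) (d := (N : ℤ) + 1) (a' := a)
      (b' := a + w) (c' := 0) (d' := 0 + ((J : ℤ) + 2) * w) le_rfl (by omega) le_rfl le_rfl
      (by linarith)
    linarith
  · rw [hS]
    refine LRE_subset_RE.trans (RE_subset le_rfl le_rfl le_rfl ?_)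
    linarith

/-- dual tubes coming down to depth `h` -/
theorem deep_tube : ∃ κ C : ℝ, 0 < κ ∧ 0 < C ∧ ∀ N : ℕ, 1 ≤ N → ∀ w h : ℕ, 5 ≤ w →
    D N ≤ 8 * w → (w : ℝ) ≤ 8 * D N → w ≤ N → 2 * h ≤ N → ∀ a : ℤ,
    κ * Real.exp (-(C * ((h : ℝ) / D N) ^ (7 / 3 : ℝ))) ≤
      1 - gLR N a (a + w) (-(h : ℤ)) (N + 1) := by
  obtain ⟨κ, hκ, hsky⟩ := sky_tube
  obtain ⟨c2, C2, hc2, hC2, htube⟩ := tube_lower_dual
  refine ⟨κ * (c2 * Real.exp (-(C2 * 26))) * (1 / 2) ^ 47, C2 * 26, by positivity,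
    by positivity, ?_⟩
  intro N hN w h hw hwD hwD2 hwN hhN a
  have hN0 : (0 : ℝ) < N := by exact_mod_cast hN
  have hw' : (5 : ℤ) ≤ w := by exact_mod_cast hw
  have hwN' : (w : ℤ) ≤ N := by exact_mod_cast hwN
  have hh0 : (0 : ℤ) ≤ h := by positivity
  obtain ⟨S, hS⟩ : ∃ S : Finset Edg, S = RE a (a + w) (-(h : ℤ)) (N + 1) := ⟨_, rfl⟩
  have s1 : LRE a (a + w) 0 (N + 1) ⊆ S := by
    rw [hS]; exact LRE_subset_RE.trans (RE_subset le_rfl le_rfl (by omega) le_rfl)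
  have s2 : LRE a (a + w) (-(h : ℤ)) w ⊆ S := by
    rw [hS]; exact LRE_subset_RE.trans (RE_subset le_rfl le_rfl le_rfl (by omega))
  have s3 : TBE a (a + w) 0 w ⊆ S := by
    rw [hS]; exact TBE_subset_RE.trans (RE_subset le_rfl le_rfl (by omega) (by omega))
  have s4 : LRE a (a + w) (-(h : ℤ)) (N + 1) ⊆ S := by
    rw [hS]; exact LRE_subset_RE
  have p1 := hsky N hN w hw hwD a
  have hq : (h : ℝ) / (2 * N) ≤ 1 / 4 := by
    rw [div_le_iff₀ (by positivity)]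
    have : (2 : ℝ) * h ≤ N := by exact_mod_cast hhN
    linarith
  have hq0 : 0 ≤ (h : ℝ) / (2 * N) := by positivity
  have p2 : c2 * Real.exp (-(C2 * 26)) * Real.exp (-(C2 * 26 * ((h : ℝ) / D N) ^ (7 / 3 : ℝ))) ≤
      1 - gLR N a (a + w) (-(h : ℤ)) w := by
    have h1 := gLR_le (N := N) (a := a) (b := a + w) (c := -(h : ℤ)) (d := w)
      (q := 1 / 2 + (h : ℝ) / (2 * N)) hN (by linarith) (by linarith) (by
        push_cast; rw [neg_div]; linarith)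
    have h2 := htube (1 / 2 + (h : ℝ) / (2 * N)) (by linarith) (by linarith) (h + w) w
      (by omega) (by omega)
    have e1 : (w : ℤ) - -(h : ℤ) = ((h + w : ℕ) : ℤ) := by push_cast; ring
    have e2 : a + (w : ℤ) - a = w := by ring
    have e3 : (1 : ℝ) / 2 + (h : ℝ) / (2 * N) - 1 / 2 = (h : ℝ) / (2 * N) := by ring
    rw [e1, e2] at h1
    rw [e3] at h2
    refine le_trans ?_ (h2.trans (by linarith))
    rw [mul_assoc, ← Real.exp_add]
    apply mul_le_mul_of_nonneg_left _ hc2.le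
    apply Real.exp_le_exp.mpr
    have h3 := mul_le_mul_of_nonneg_left (tube_exp hN hwD hwD2 (h := h)) hC2.le
    linarith
  have p3 := rsw_noTB (N := N) (a := a) (b := a + w) (c := 0) (d := w) hN le_rfl
    (n := (w - 1) / 2) (by omega) (by omega) (by omega) (by omega)
  have d1 : DecrE S (fun F => ¬ LRc a (a + w) 0 (N + 1) F) := decr_not (LRc_incr _ _ _ _ _)
  have d2 : DecrE S (fun F => ¬ LRc a (a + w) (-(h : ℤ)) w F) := decr_not (LRc_incr _ _ _ _ _)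
  have d3 : DecrE S (fun F => ¬ TBc a (a + w) 0 w F) := decr_not (TBc_incr _ _ _ _ _)
  have d4 : DecrE S (fun F => ¬ LRc a (a + w) 0 (N + 1) F ∧ ¬ LRc a (a + w) (-(h : ℤ)) w F) := by
    intro F G h1 h2 h3 h4
    exact h3 ⟨fun h => h4.1 (h.mono h1), fun h => h4.2 (h.mono h1)⟩
  have i1 := harris_dec2 (ok_gp N) d1 d2
  have i2 := harris_dec2 (ok_gp N) d4 d3
  have i3 : Pr (gp N) S (fun F => (¬ LRc a (a + w) 0 (N + 1) F ∧
      ¬ LRc a (a + w) (-(h : ℤ)) w F) ∧ ¬ TBc a (a + w) 0 w F) ≤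
      Pr (gp N) S (fun F => ¬ LRc a (a + w) (-(h : ℤ)) (N + 1) F) := by
    apply Pr_mono (ok_gp N)
    rintro F _ ⟨⟨k1, k2⟩, k3⟩
    exact glueN (c2 := 0) (d1 := w) (by omega) (by omega) (by omega) k2 k1 k3
  rw [Pr_not, Pr_not, pr_gLR s1, pr_gLR s2] at i1
  rw [Pr_not S (TBc _ _ _ _), pr_gTB s3] at i2
  rw [Pr_not S (LRc a (a + w) (-(h : ℤ)) (N + 1)), pr_gLR s4] at i3
  have hX := Real.exp_pos (-(C2 * 26 * ((h : ℝ) / D N) ^ (7 / 3 : ℝ)))
  have g1 : 0 ≤ 1 - gLR N a (a + w) 0 (N + 1) := sub_nonneg.mpr gLR_le_one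
  have g2 : 0 ≤ 1 - gLR N a (a + w) (-(h : ℤ)) w := sub_nonneg.mpr gLR_le_one
  have g3 : 0 ≤ 1 - gTB N a (a + w) 0 w := sub_nonneg.mpr gTB_le_one
  calc κ * (c2 * Real.exp (-(C2 * 26))) * (1 / 2) ^ 47 *
        Real.exp (-(C2 * 26 * ((h : ℝ) / D N) ^ (7 / 3 : ℝ)))
      = (κ * (c2 * Real.exp (-(C2 * 26)) *
        Real.exp (-(C2 * 26 * ((h : ℝ) / D N) ^ (7 / 3 : ℝ))))) * (1 / 2) ^ 47 := by ring
    _ ≤ ((1 - gLR N a (a + w) 0 (N + 1)) * (1 - gLR N a (a + w) (-(h : ℤ)) w)) *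
        (1 - gTB N a (a + w) 0 w) :=
        mul_le_mul (mul_le_mul p1 p2 (by positivity) g1) p3 (by positivity) (mul_nonneg g1 g2)
    _ ≤ _ := (mul_le_mul_of_nonneg_right i1 g3).trans (i2.trans i3)

end Pool.Agent.Y244.GP
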