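import Pool.Agent.Y244.GP.Hit

/-!
Independent windows: lower bounds for the fluctuations of the front.
-/

set_option autoImplicit false

namespace Pool.Agent.Y244.GP
open Finset MeasureTheory H974 Pool.Agent.H160R2.CV Pool.Agent.Y244.PC

theorem windows {N w : ℕ} (hN : 1 ≤ N) (hD : 48 ≤ D N) (hw : D N ≤ w) : ∃ w0 k : ℕ, 5 ≤ w0 ∧
    D N ≤ 8 * w0 ∧ (w0 : ℝ) ≤ 8 * D N ∧ w0 ≤ N ∧ k * (w0 + 1) ≤ w ∧ (w : ℝ) / D N ≤ k := by
  have hDN : D N ≤ N := by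
    unfold D
    have h1 : (1 : ℝ) ≤ N := by exact_mod_cast hN
    have := Real.rpow_le_rpow_of_exponent_le h1 (show (4 / 7 : ℝ) ≤ 1 by norm_num)
    rwa [Real.rpow_one] at this
  have h1 : (⌊D N / 4⌋₊ : ℝ) ≤ D N / 4 := Nat.floor_le (by linarith)
  have h2 : D N / 4 < (⌊D N / 4⌋₊ : ℝ) + 1 := Nat.lt_floor_add_one _
  obtain ⟨w0, hw0⟩ : ∃ w0 : ℕ, w0 = ⌊D N / 4⌋₊ := ⟨_, rfl⟩
  rw [← hw0] at h1 h2
  refine ⟨w0, w / (w0 + 1), ?_, by linarith, by linarith, ?_, Nat.div_mul_le_self _ _, ?_⟩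
  · have : (5 : ℝ) ≤ w0 := by linarith
    exact_mod_cast this
  · have : (w0 : ℝ) ≤ N := by linarith
    exact_mod_cast this
  · have h3 : w < w / (w0 + 1) * (w0 + 1) + (w0 + 1) := Nat.lt_div_mul_add (by omega)
    have h4 : (w : ℝ) < ((w / (w0 + 1) : ℕ) : ℝ) * (w0 + 1) + (w0 + 1) := by exact_mod_cast h3
    obtain ⟨K, hK⟩ : ∃ K : ℝ, K = ((w / (w0 + 1) : ℕ) : ℝ) := ⟨_, rfl⟩
    rw [← hK] at h4 ⊢
    have hK0 : 0 ≤ K := by rw [hK]; positivity
    rw [div_le_iff₀ (by linarith)]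
    nlinarith

/-- the left end of the `i`-th window -/
def wa (a : ℤ) (w0 : ℕ) (i : ℕ) : ℤ := a + (i : ℤ) * (w0 + 1)

theorem wa_ge (a : ℤ) (w0 i : ℕ) : a ≤ wa a w0 i := by
  unfold wa
  have : (0 : ℤ) ≤ (i : ℤ) * (w0 + 1) := by positivity
  linarith

theorem wa_le {a : ℤ} {w0 k w i : ℕ} (hk : k * (w0 + 1) ≤ w) (hi : i < k) :
    wa a w0 i + w0 ≤ a + w := by
  unfold wa
  have h1 : (i + 1) * (w0 + 1) ≤ w := (Nat.mul_le_mul_right _ hi).trans hk
  have h2 : ((i : ℤ) + 1) * (w0 + 1) ≤ w := by exact_mod_cast h1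
  linarith

theorem wa_disj {a : ℤ} {w0 : ℕ} {i j : ℕ} (h : i ≠ j) (c d : ℤ) :
    Disjoint (RE (wa a w0 i) (wa a w0 i + w0) c d) (RE (wa a w0 j) (wa a w0 j + w0) c d) := by
  have key : ∀ i j : ℕ, i < j → wa a w0 i + w0 < wa a w0 j := by
    intro i j hij
    unfold wa
    have h1 : (i + 1) * (w0 + 1) ≤ j * (w0 + 1) := Nat.mul_le_mul_right _ hij
    have h2 : ((i : ℤ) + 1) * (w0 + 1) ≤ j * (w0 + 1) := by exact_mod_cast h1
    linarith
  rw [Finset.disjoint_left]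
  rintro ⟨x, y, _ | _⟩ h1 h2
  · simp only [mem_RE_false] at h1 h2
    rcases Nat.lt_or_gt_of_ne h with h3 | h3
    · have := key i j h3; omega
    · have := key j i h3; omega
  · simp only [mem_RE_true] at h1 h2
    rcases Nat.lt_or_gt_of_ne h with h3 | h3
    · have := key i j h3; omega
    · have := key j i h3; omega

theorem prod_one_sub_le {k : ℕ} {p : ℝ} {f : ℕ → ℝ} (hf0 : ∀ i, 0 ≤ f i) (hf : ∀ i, f i ≤ 1 - p) :
    ∏ i ∈ range k, f i ≤ Real.exp (-(k * p)) := by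
  calc ∏ i ∈ range k, f i ≤ ∏ _i ∈ range k, Real.exp (-p) := by
        apply Finset.prod_le_prod (fun i _ => hf0 i)
        intro i _
        exact (hf i).trans (Real.one_sub_le_exp_neg p)
    _ = Real.exp (-(k * p)) := by
        rw [Finset.prod_const, Finset.card_range, ← Real.exp_nat_mul]
        congr 1
        ring

section law

variable {N : ℕ} {q : sqLattice.edgeSet → unitInterval}

theorem hit_lower : ∃ c C : ℝ, 0 < c ∧ 0 < C ∧ ∀ (N : ℕ) (q : sqLattice.edgeSet → unitInterval),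
    1 ≤ N → 48 ≤ D N → (∀ e, (q (toE e) : ℝ) = gp N e) → ∀ w h : ℕ, D N ≤ w → 2 * h ≤ N →
    ∀ a : ℤ, (ilaw q).real {ω | ¬ Hit N a w h ω} ≤
      Real.exp (-(c * (w / D N) * Real.exp (-(C * ((h : ℝ) / D N) ^ (7 / 3 : ℝ))))) := by
  obtain ⟨κ, C, hκ, hC, hup⟩ := up_tube
  refine ⟨κ, C, hκ, hC, ?_⟩
  intro N q hN hD hq w h hw hh a
  obtain ⟨w0, k, h5, hDw, hwD, hwN, hk, hkw⟩ := windows hN hD hw
  obtain ⟨S, hS⟩ : ∃ S : Finset Edg, S = RE a (a + w) (-(N : ℤ)) h := ⟨_, rfl⟩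
  have hsub : ∀ i ∈ range k, RE (wa a w0 i) (wa a w0 i + w0) (-(N : ℤ)) h ⊆ S := by
    intro i hi
    rw [Finset.mem_range] at hi
    rw [hS]
    exact RE_subset (wa_ge _ _ _) (wa_le hk hi) le_rfl le_rfl
  have h1 : (ilaw q).real {ω | ¬ Hit N a w h ω} ≤ (ilaw q).real {ω | ∀ i ∈ range k,
      ¬ TBc (wa a w0 i) (wa a w0 i + w0) (-(N : ℤ)) h (FF S ω)} := by
    apply real_mono_ae
    filter_upwards [ae_good hN hq] with ω hω
    intro hno i hi hT
    apply hno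
    obtain ⟨x, x', hx, hx', hr⟩ := hT
    rw [Finset.mem_range] at hi
    have h2 := wa_ge a w0 i
    have h3 := wa_le (a := a) hk hi
    refine ⟨(x', (h : ℤ)), (ground_line hω x).trans (hr.mono ?_), ?_, ?_, le_rfl⟩
    · rintro e ⟨he, -⟩
      rw [FF_coe] at he
      exact he.1
    · show a ≤ x'; omega
    · show x' ≤ a + w; omega
  refine h1.trans ?_
  rw [mu_event hq S (fun F => ∀ i ∈ range k, ¬ TBc (wa a w0 i) (wa a w0 i + w0) (-(N : ℤ)) h F),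
    indep_prod (range k) (fun i F => ¬ TBc (wa a w0 i) (wa a w0 i + w0) (-(N : ℤ)) h F)
      (fun i => RE (wa a w0 i) (wa a w0 i + w0) (-(N : ℤ)) h) hsub
      (fun i _ j _ hij => wa_disj hij _ _) (fun i _ F => not_congr (TBc_local TBE_subset_RE))]
  have h2 : ∀ i ∈ range k, Pr (gp N) S
      (fun F => ¬ TBc (wa a w0 i) (wa a w0 i + w0) (-(N : ℤ)) h F) =
      1 - gTB N (wa a w0 i) (wa a w0 i + w0) (-(N : ℤ)) h := by
    intro i hi
    rw [Pr_not, pr_gTB (TBE_subset_RE.trans (hsub i hi))]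
  rw [Finset.prod_congr rfl h2]
  refine (prod_one_sub_le (p := κ * Real.exp (-(C * ((h : ℝ) / D N) ^ (7 / 3 : ℝ))))
    (fun i => sub_nonneg.mpr gTB_le_one) (fun i => ?_)).trans ?_
  · have := hup N hN w0 h (by omega) hDw hwD hwN hh (wa a w0 i)
    linarith
  · apply Real.exp_le_exp.mpr
    have h3 : 0 ≤ κ * Real.exp (-(C * ((h : ℝ) / D N) ^ (7 / 3 : ℝ))) := by positivity
    have h4 := mul_le_mul_of_nonneg_right hkw h3
    linarith

/-- a horizontal open path of the ground cluster across the strip `[a, a + w]`, above the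
depth `h` -/
def Br (N : ℕ) (a w h : ℤ) (ω : sqLattice.edgeSet → Bool) : Prop :=
  ∃ u v : Vtx, Reach (opn ω) (0, -(N : ℤ)) u ∧ u.1 = a ∧ v.1 = a + w ∧
    Reach (opn ω ∩ {e | (a ≤ (src e).1 ∧ (src e).1 ≤ a + w ∧ -h ≤ (src e).2) ∧
      (a ≤ (tgt e).1 ∧ (tgt e).1 ≤ a + w ∧ -h ≤ (tgt e).2)}) u v

theorem br_lower : ∃ c C : ℝ, 0 < c ∧ 0 < C ∧ ∀ (N : ℕ) (q : sqLattice.edgeSet → unitInterval),
    1 ≤ N → 48 ≤ D N → (∀ e, (q (toE e) : ℝ) = gp N e) → ∀ w h : ℕ, D N ≤ w → 2 * h ≤ N →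
    ∀ a : ℤ, (ilaw q).real {ω | Br N a w h ω} ≤
      Real.exp (-(c * (w / D N) * Real.exp (-(C * ((h : ℝ) / D N) ^ (7 / 3 : ℝ))))) := by
  obtain ⟨κ, C, hκ, hC, hdt⟩ := deep_tube
  refine ⟨κ, C, hκ, hC, ?_⟩
  intro N q hN hD hq w h hw hh a
  obtain ⟨w0, k, h5, hDw, hwD, hwN, hk, hkw⟩ := windows hN hD hw
  obtain ⟨S, hS⟩ : ∃ S : Finset Edg, S = RE a (a + w) (-(h : ℤ)) (N + 1) := ⟨_, rfl⟩
  have hsub : ∀ i ∈ range k, RE (wa a w0 i) (wa a w0 i + w0) (-(h : ℤ)) (N + 1) ⊆ S := by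
    intro i hi
    rw [Finset.mem_range] at hi
    rw [hS]
    exact RE_subset (wa_ge _ _ _) (wa_le hk hi) le_rfl le_rfl
  have h1 : (ilaw q).real {ω | Br N a w h ω} ≤ (ilaw q).real {ω | ∀ i ∈ range k,
      LRc (wa a w0 i) (wa a w0 i + w0) (-(h : ℤ)) (N + 1) (FF S ω)} := by
    apply real_mono_ae
    filter_upwards [ae_good hN hq] with ω hω
    rintro ⟨u, v, hu, hu1, hv1, hr⟩ i hi
    rw [Finset.mem_range] at hi
    have h2 := wa_ge a w0 i
    have h3 := wa_le (a := a) hk hi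
    have hr' := reach_restrict (fun z => z.2 ≤ (N : ℤ))
      (fun z hz => reach_le hω (hu.trans (hz.mono Set.inter_subset_left))) hr
    have hr2 : Reach (↑(FF S ω) ∩ ↑S) u v := by
      refine hr'.mono ?_
      rintro e ⟨⟨he1, he2, he3⟩, he4, he5⟩
      have heS : e ∈ S := by
        rw [hS, mem_RE_iff]
        unfold inR
        have he4' : (src e).2 ≤ (N : ℤ) := he4
        have he5' : (tgt e).2 ≤ (N : ℤ) := he5
        omega
      rw [FF_coe]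
      exact ⟨⟨he1, heS⟩, heS⟩
    obtain ⟨y1, y2, k1, k2, k3, -⟩ := sub_LR (a := wa a w0 i) (b := wa a w0 i + w0)
      (c := -(h : ℤ)) (d := N + 1) (by omega)
      (by rintro x y ⟨-, he⟩ _ _
          rw [hS] at he
          simp only [mem_coe, mem_RE_true] at he
          omega)
      (by rintro x y ⟨-, he⟩ _ _
          rw [hS] at he
          simp only [mem_coe, mem_RE_false] at he
          omega) hr2 (by omega) (by omega)
    exact ⟨y1, y2, k1, k2, k3.mono (Set.inter_subset_inter_left _ Set.inter_subset_left)⟩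
  refine h1.trans ?_
  rw [mu_event hq S (fun F => ∀ i ∈ range k, LRc (wa a w0 i) (wa a w0 i + w0) (-(h : ℤ)) (N + 1) F),
    indep_prod (range k) (fun i F => LRc (wa a w0 i) (wa a w0 i + w0) (-(h : ℤ)) (N + 1) F)
      (fun i => RE (wa a w0 i) (wa a w0 i + w0) (-(h : ℤ)) (N + 1)) hsub
      (fun i _ j _ hij => wa_disj hij _ _) (fun i _ F => LRc_local LRE_subset_RE)]
  have h2 : ∀ i ∈ range k, Pr (gp N) S
      (fun F => LRc (wa a w0 i) (wa a w0 i + w0) (-(h : ℤ)) (N + 1) F) =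
      gLR N (wa a w0 i) (wa a w0 i + w0) (-(h : ℤ)) (N + 1) := by
    intro i hi
    exact pr_gLR (LRE_subset_RE.trans (hsub i hi))
  rw [Finset.prod_congr rfl h2]
  refine (prod_one_sub_le (p := κ * Real.exp (-(C * ((h : ℝ) / D N) ^ (7 / 3 : ℝ))))
    (fun i => gLR_nonneg) (fun i => ?_)).trans ?_
  · have := hdt N hN w0 h h5 hDw hwD hwN hh (wa a w0 i)
    linarith
  · apply Real.exp_le_exp.mpr
    have h3 : 0 ≤ κ * Real.exp (-(C * ((h : ℝ) / D N) ^ (7 / 3 : ℝ))) := by positivity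
    have h4 := mul_le_mul_of_nonneg_right hkw h3
    linarith

end law

end Pool.Agent.Y244.GP
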